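import Pool.Agent.H47.ST.GrowB

/-!
# Project TH: the interface with project TU
-/

set_option autoImplicit false

open Module QuadraticForm Filter Topology
open Pool.Agent.H47.QG (Pt action flw oseq Gen ind hess Zn MeanIdx)
open Pool.Agent.H47.ST

namespace Pool.Agent.H75.TH

variable {n : ℕ}

/-- `g` is close to the action of period `K`, has the same critical points and differs from it by
a constant near each of them. -/
structure Near (S : ℕ → Pt n → ℝ) (K : ℕ) [NeZero K] (C ε : ℝ) (g : (Iz n K → ℝ) → ℝ) :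
    Prop where
  smooth : ContDiff ℝ 2 g
  per : PerL (Lc n K) g
  grad : ∀ y b, |fderiv ℝ g y (Pi.single b 1) - fderiv ℝ (fS S K) y (Pi.single b 1)| ≤ C
  sup : ∀ y, |g y - fS S K y| ≤ ε
  crit : ∀ y, fderiv ℝ g y = 0 ↔ fderiv ℝ (fS S K) y = 0
  loc : ∀ y, fderiv ℝ (fS S K) y = 0 → ∃ c : ℝ, ∀ᶠ x in 𝓝 y, g x = fS S K x + c

/-- points with different mean indices have different values -/
def Sepd (S : ℕ → Pt n → ℝ) (f : ℕ → Pt n → Pt n) (K : ℕ) (g : (Iz n K → ℝ) → ℝ) : Prop :=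
  ∀ w w' t t', flw f K w = w → flw f K w' = w' → MeanIdx S f K w t → MeanIdx S f K w' t' →
    t ≠ t' → g (zw f K w) ≠ g (zw f K w')

/-- the critical value `v` of `g` has a thin band with cohomology over `ZMod q` in the grid domain
of size `R` -/
def Alive (f : ℕ → Pt n → Pt n) (K : ℕ) [NeZero K] (g : (Iz n K → ℝ) → ℝ) (q : ℕ)
    [Fact q.Prime] (R v : ℝ) : Prop :=
  ∀ b₁ b₂ : ℝ, b₁ < v → v < b₂ →
    (∀ w, flw f K w = w → b₁ ≤ g (zw f K w) → g (zw f K w) ≤ b₂ → g (zw f K w) = v) →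
    ∃ j, ∃ᶠ M : ℕ in atTop, ¬ HR (ZMod q) (lam (Lc n K) (2 ^ M))
      (Lv (qK n K) (QK n K) g R R b₂ (2 ^ M)) (Lv (qK n K) (QK n K) g R R b₁ (2 ^ M)) j 0

/-- **Cohomology in a wrong degree at the level `K`.** For every small perturbation of the action
which separates the mean indices, some critical value of points with mean index `≠ 0` has a thin
band with cohomology over `ZMod q`, for all large primes `q`. -/
def Wrong (S : ℕ → Pt n → ℝ) (f : ℕ → Pt n → Pt n) (K : ℕ) [NeZero K] : Prop :=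
  ∀ C : ℝ, ∃ ε > 0, ∃ (R₀ : ℝ) (q₀ : ℕ), ∀ (q : ℕ) [Fact q.Prime], q₀ ≤ q →
    ∀ g : (Iz n K → ℝ) → ℝ, Near S K C ε g → Sepd S f K g → ∀ R ≥ R₀,
      ∃ w t, flw f K w = w ∧ MeanIdx S f K w t ∧ t ≠ 0 ∧ Alive f K g q R (g (zw f K w))

end Pool.Agent.H75.TH
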