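import Pool.Agent.H47.ST.Loc

/-!
# Tate acyclic bands have acyclic fixed bands
-/

set_option autoImplicit false

namespace Pool.Agent.H75.TH

open Pool.Agent.H47.ST

variable {ι κ : Type*} [Fintype ι] [Fintype κ]

/-- restriction of cochains to the fixed simplices in `B` -/
theorem FixB_res_mem {F : Type*} [Field F] {π : Equiv.Perm ι} {s : ι → κ}
    {L : AddSubgroup (ι → ℤ)} {L' : AddSubgroup (κ → ℤ)} (h : Fold π s L L')
    {X A B : Set (ι → ℤ)} (hB : Inv L B) {m : ℕ} {x : Co ι F} (hx : x ∈ co (F := F) L X A m) :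
    cut (In (fo s B)) (TransN_res h.surj F x) ∈ co (F := F) L' (fo s B) (fo s A) m := by
  classical
  refine ⟨fun l hl σ => ?_, fun σ hσ => ?_⟩
  · rw [cut_apply, cut_apply]
    have h1 : (l ∘ s) ∈ L := (h.lat _).2 ⟨l, hl, rfl⟩
    have h2 : In (fo s B) (tr l σ) ↔ In (fo s B) σ := CellA_tr_In (Loc_Inv_fo h hB) hl
    have h3 : TransN_res h.surj F x (tr l σ) = TransN_res h.surj F x σ := by
      change x ((tr l σ).map (TransN_em h.surj)) = x (σ.map (TransN_em h.surj))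
      rw [← TransN_tr, hx.1 _ h1]
    rw [h3]
    simp only [h2]
  · rw [cut_apply] at hσ
    by_cases h1 : In (fo s B) σ
    · rw [if_pos h1] at hσ
      have h2 := hx.2 _ hσ
      refine ⟨h1, fun h3 => h2.2.1 ((TransN_all h.surj A σ).2 h3), ?_⟩
      rw [← h2.2.2, Finset.card_map]
    · rw [if_neg h1] at hσ
      exact absurd rfl hσ

/-- functions vanishing on the fixed simplices in `B` -/
theorem FixB_mem_Pv {F : Type*} [Field F] {π : Equiv.Perm ι} {L : AddSubgroup (ι → ℤ)}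
    {X A B : Set (ι → ℤ)} (hB : Inv L B) {m : ℕ} {z : Co ι F} (hz : z ∈ co (F := F) L X A m)
    (h0 : ∀ σ, (∀ v ∈ σ, v ∘ π = v) → (∀ v ∈ σ, v ∈ B) → z σ = 0) :
    z ∈ Pv F π L X A B m := by
  classical
  rw [Pv, Submodule.mem_sup]
  refine ⟨cut (fun σ => ¬ ∀ v ∈ σ, v ∈ B) z, ⟨fun l hl σ => ?_, fun σ hσ => ?_⟩,
    cut (fun σ => ∀ v ∈ σ, v ∈ B) z, ⟨⟨fun l hl σ => ?_, fun σ hσ => ?_⟩, fun σ hσ => ?_⟩, ?_⟩
  · rw [cut_apply, cut_apply, hz.1 l hl]
    by_cases h1 : ∀ v ∈ σ, v ∈ B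
    · rw [if_neg (not_not.2 ((TransN_tr_all hB hl σ).2 h1)), if_neg (not_not.2 h1)]
    · rw [if_pos (fun h2 => h1 ((TransN_tr_all hB hl σ).1 h2)), if_pos h1]
  · rw [cut_apply] at hσ
    by_cases h1 : ∀ v ∈ σ, v ∈ B
    · rw [if_neg (not_not.2 h1)] at hσ
      exact absurd rfl hσ
    · rw [if_pos h1] at hσ
      exact ⟨(hz.2 σ hσ).1, h1, (hz.2 σ hσ).2.2⟩
  · rw [cut_apply, cut_apply, hz.1 l hl]
    by_cases h1 : ∀ v ∈ σ, v ∈ B
    · rw [if_pos ((TransN_tr_all hB hl σ).2 h1), if_pos h1]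
    · rw [if_neg (fun h2 => h1 ((TransN_tr_all hB hl σ).1 h2)), if_neg h1]
  · rw [cut_apply] at hσ
    by_cases h1 : ∀ v ∈ σ, v ∈ B
    · rw [if_pos h1] at hσ
      exact hz.2 σ hσ
    · rw [if_neg h1] at hσ
      exact absurd rfl hσ
  · rw [cut_apply]
    by_cases h1 : ∀ v ∈ σ, v ∈ B
    · rw [if_pos h1]
      exact h0 σ hσ h1
    · rw [if_neg h1]
  · funext σ
    rw [Pi.add_apply, cut_apply, cut_apply]
    by_cases h1 : ∀ v ∈ σ, v ∈ B
    · rw [if_neg (not_not.2 h1), if_pos h1, zero_add]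
    · rw [if_pos h1, if_neg h1, add_zero]

/-- extension by zero of cochains on the fixed simplices -/
theorem FixB_ext_mem {F : Type*} [Field F] {π : Equiv.Perm ι} {s : ι → κ}
    {L : AddSubgroup (ι → ℤ)} {L' : AddSubgroup (κ → ℤ)} (h : Fold π s L L')
    {X A B : Set (ι → ℤ)} (hBX : B ⊆ X) {m : ℕ} {c : Co κ F}
    (hc : c ∈ co (F := F) L' (fo s B) (fo s A) m) :
    TransN_ext h.surj F c ∈ co (F := F) L X A m := by
  refine ⟨fun l hl σ => TransN_ext_tr h hc.1 hl σ, fun σ hσ => ?_⟩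
  obtain ⟨σ', rfl, h1⟩ := TransN_ext_ne h.surj hσ
  have h2 := hc.2 σ' h1
  refine ⟨(TransN_In h.surj X σ').2 (TransN_In_mono (TransN_fo_mono s hBX) h2.1),
    fun h3 => h2.2.1 ((TransN_all h.surj A σ').1 h3), ?_⟩
  rw [Finset.card_map, h2.2.2]

/-- If the band `(A, B)` is Tate exact then the band of the fixed grid has no cohomology
(`tot_of_TK` is the case `B = X`). -/
theorem fixed_zero {p : ℕ} [Fact p.Prime] {π : Equiv.Perm ι} {s : ι → κ}
    {L : AddSubgroup (ι → ℤ)} {L' : AddSubgroup (κ → ℤ)} (hc : Cyc π p L) (hs : Fold π s L L')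
    {X A B : Set (ι → ℤ)} (hX : PInv π X) (hA : PInv π A) (hB : PInv π B) (hXL : Inv L X)
    (hAL : Inv L A) (hBL : Inv L B) (hAB : A ⊆ B) (hBX : B ⊆ X)
    (h : ∀ k, TK (dX (F := ZMod p) X) (ta (ZMod p) π) (nu (ZMod p) π p) k
      (co (F := ZMod p) L X A) (co (F := ZMod p) L X B) 0) (j : ℕ) :
    HR (ZMod p) L' (fo s B) (fo s A) j 0 := by
  classical
  have h1 := TK.quot (Cyc_ops hc hX) (Cyc_sub hc hX hB hXL) (fun j => le_sup_left)
    (Loc_Pv_le hAB) (free_TK hc hX hA hB hXL hAL hBL hAB hBX (0 + 1)) (h 0)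
  have h2 := RK_zero.1 h1
  refine RK_zero.2 fun c hcm hdc => ?_
  rw [Submodule.mem_bot] at hdc
  -- the extension
  have hΦ : TransN_ext hs.surj (ZMod p) c ∈ co (F := ZMod p) L X A (j + 1) :=
    FixB_ext_mem hs hBX hcm
  have hfix : ∀ σ, TransN_ext hs.surj (ZMod p) c σ ≠ 0 → ∀ v ∈ σ, v ∘ π = v := by
    intro σ hσ
    obtain ⟨σ', h3, _⟩ := TransN_ext_ne hs.surj hσ
    exact (TransN_fixed hs σ).2 ⟨σ', h3⟩
  have hres : ∀ c : Co κ (ZMod p), TransN_res hs.surj (ZMod p) (TransN_ext hs.surj (ZMod p) c)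
      = c := by
    intro c
    funext τ
    exact TransN_ext_map hs.surj c τ
  obtain ⟨y, hy, hyc⟩ := h2 (Pi.single (j + 1) (TransN_ext hs.surj (ZMod p) c)) (by
      rw [mem_sq]
      intro i
      by_cases hi : i = j + 1
      · subst hi
        rw [Pi.single_eq_same]
        exact hΦ
      · rw [Pi.single_eq_of_ne hi]
        exact Submodule.zero_mem _) (by
      rw [mem_sq]
      intro i
      rw [TKb_single, TransN_the_supp hfix, smul_zero, Pi.single_zero, Pi.zero_apply, zero_add]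
      by_cases hi : i = j + 1 + 1
      · subst hi
        rw [Pi.single_eq_same]
        refine FixB_mem_Pv hBL (dX_mem hXL hΦ) fun σ hσ hσB => ?_
        obtain ⟨σ', rfl⟩ := (TransN_fixed hs σ).1 hσ
        rw [TransN_dX, hres, dX_apply]
        by_cases h3 : In (fo s X) σ'
        · rw [if_pos h3]
          have h4 : In (fo s B) σ' := ⟨h3.1, (TransN_all hs.surj B σ').1 hσB⟩
          have h5 := congrFun hdc σ'
          rw [dX_apply, if_pos h4] at h5
          exact h5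
        · rw [if_neg h3]
      · rw [Pi.single_eq_of_ne hi]
        exact Submodule.zero_mem _)
  rw [mem_sq] at hy hyc
  refine ⟨cut (In (fo s B)) (TransN_res hs.surj (ZMod p) (y j)), FixB_res_mem hs hBL (hy j), ?_⟩
  rw [Submodule.mem_bot]
  funext σ'
  rw [Pi.sub_apply, Pi.zero_apply, sub_eq_zero, dX_apply]
  by_cases h3 : In (fo s B) σ'
  · rw [if_pos h3]
    have hfx : ∀ v ∈ σ'.map (TransN_em hs.surj), v ∘ π = v := (TransN_fixed hs _).2 ⟨σ', rfl⟩
    have h4 := TransN_Pv_zero (hyc (j + 1)) hfx ((TransN_all hs.surj B σ').2 h3.2)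
    rw [Pi.sub_apply, Pi.single_eq_same, Pi.sub_apply, TransN_ext_map, sub_eq_zero, del_succ,
      Pi.add_apply, Pi.smul_apply, TransN_the_fixed _ hfx, smul_zero, add_zero, TransN_dX,
      dX_apply, if_pos (TransN_In_mono (TransN_fo_mono s hBX) h3)] at h4
    rw [h4]
    refine Finset.sum_congr rfl fun v _ => ?_
    rw [cut_apply, if_pos (TransN_erase_In h3 v)]
  · rw [if_neg h3]
    by_contra h4
    exact h3 (hcm.2 σ' h4).1

end Pool.Agent.H75.TH
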