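import Pool.Agent.H75.TH.NoCan
import Pool.Agent.H75.TH.Wrong

/-!
# A critical point of nonzero local index and nonzero mean index
-/

set_option autoImplicit false

open Module QuadraticForm Filter Topology
open Pool.Agent.H47.QG (Pt action flw oseq Gen ind hess Zn MeanIdx LocIdx)

namespace Pool.Agent.H75.TH

open Pool.Agent.H47.ST

variable {n : ℕ}

/-- If all bands in question are not acyclic for fine grids then one degree is not acyclic for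
infinitely many grids. -/
theorem WrongL_degree {ι : Type*} [Fintype ι] {F : Type*} [Field F] {L : ℕ → AddSubgroup (ι → ℤ)}
    {B A : ℕ → Set (ι → ℤ)} (h : ∀ᶠ M : ℕ in atTop, ¬ ∀ j, HR F (L M) (B M) (A M) j 0) :
    ∃ j, ∃ᶠ M : ℕ in atTop, ¬ HR F (L M) (B M) (A M) j 0 := by
  by_contra hcon
  have h1 : ∀ᶠ M : ℕ in atTop, ∀ j ∈ Finset.range (Fintype.card ι + 1),
      HR F (L M) (B M) (A M) j 0 := by
    rw [Filter.eventually_all_finset]
    intro j _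
    have h2 : ¬ ∃ᶠ M : ℕ in atTop, ¬ HR F (L M) (B M) (A M) j 0 := fun h => hcon ⟨j, h⟩
    rw [Filter.not_frequently] at h2
    filter_upwards [h2] with M hM
    exact not_not.1 hM
  obtain ⟨M, hM, hM1⟩ := (h.and h1).exists
  refine hM fun j => ?_
  by_cases hj : j < Fintype.card ι + 1
  · exact hM1 j (Finset.mem_range.2 hj)
  · refine RK_zero.2 fun x hx _ => ⟨0, Submodule.zero_mem _, ?_⟩
    rw [co_big _ _ _ (by omega), Submodule.mem_bot] at hx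
    rw [hx, map_zero, sub_zero]
    exact Submodule.zero_mem _

/-- the thin band of a critical value carried by a point with local index `≠ 0` -/
theorem band_of_locIdx {S : ℕ → Pt n → ℝ} {f : ℕ → Pt n → Pt n} (hS : ∀ j, Gen (S j) (f j))
    (K : ℕ) [NeZero K] (W : Finset (Pt n))
    (hW : ∀ w, flw f K w = w ↔ ∃ w' ∈ W, w - w' ∈ Zn n) (w : Pt n) (hw : flw f K w = w) (s : ℤ)
    (hs : LocIdx (fS S K) (zw f K w) s) (hs0 : s ≠ 0) (C₁ : ℝ) :
    ∃ R₀ : ℝ, ∀ (F : Type) [Field F] (g : (Iz n K → ℝ) → ℝ), ContDiff ℝ 2 g →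
      PerL (Lc n K) g →
      (∀ y b, |fderiv ℝ g y (Pi.single b 1) - fderiv ℝ (fS S K) y (Pi.single b 1)| ≤ C₁) →
      (∀ y, fderiv ℝ g y = 0 ↔ fderiv ℝ (fS S K) y = 0) →
      (∀ y, fderiv ℝ (fS S K) y = 0 → ∃ c : ℝ, ∀ᶠ x in 𝓝 y, g x = fS S K x + c) →
      ∀ R ≥ R₀, ∀ b₁ b₂, b₁ < g (zw f K w) → g (zw f K w) < b₂ →
        (∀ w', flw f K w' = w' → b₁ ≤ g (zw f K w') → g (zw f K w') ≤ b₂ →
          g (zw f K w') = g (zw f K w)) →
        ∃ j, ∃ᶠ M : ℕ in atTop, ¬ HR F (lam (Lc n K) (2 ^ M))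
          (Lv (qK n K) (QK n K) g R R b₂ (2 ^ M)) (Lv (qK n K) (QK n K) g R R b₁ (2 ^ M)) j 0 := by
  classical
  obtain ⟨C₂, hC₂⟩ := fS_grad hS K
  obtain ⟨R₀, hR₀, hb⟩ := dom_Bd n K one_pos (C₁ + C₂)
  refine ⟨R₀, fun F _ g hg hgp hg1 hg2 hg3 R hR b₁ b₂ hb1 hb2 hval => ?_⟩
  have hB := hb R hR R hR g (hg.differentiable (by norm_num)) (fun y b => by
    rw [one_mul]
    have h1 := hg1 y b
    have h2 := hC₂ y b
    have h3 : fderiv ℝ g y (Pi.single b 1) - DK n K y b =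
        (fderiv ℝ g y (Pi.single b 1) - fderiv ℝ (fS S K) y (Pi.single b 1)) +
          (fderiv ℝ (fS S K) y (Pi.single b 1) - DK n K y b) := by ring
    rw [h3]
    exact (abs_add_le _ _).trans (by linarith))
  simp only [one_mul] at hB
  obtain ⟨hB1, hB2⟩ := hB
  have hD : Dm (Lc n K) (qK n K) (QK n K) R R := by
    have h := dom_Dm n K one_pos R R
    simp only [one_mul] at h
    exact h
  -- the critical points
  have hWc := GrowA_crit hS K W hW (W.image (zw f K)) (fun z => by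
    rw [Finset.mem_image])
  obtain ⟨Z', hZ1, hZ2⟩ := Sep_reps (Lc n K) (W.image (zw f K))
  have hcr : ∀ y, fderiv ℝ g y = 0 ↔ ∃ z ∈ Z', ∃ l ∈ Lc n K, y = z + rl l := fun y =>
    (hg2 y).trans ((hWc y).trans (hZ1 y).symm)
  have hz0 : fderiv ℝ g (zw f K w) = 0 := by
    rw [hg2, fS_crit hS, ActZ_zw, ActZ_oseq_zero]
    exact ⟨hw, rfl⟩
  obtain ⟨z₀, hz₀, l₀, hl₀, hzl⟩ := (hcr _).1 hz0
  have hcz : ∀ z ∈ Z', fderiv ℝ g z = 0 := fun z hz =>
    (hcr z).2 ⟨z, hz, 0, (Lc n K).zero_mem, by rw [Win_rl_zero, add_zero]⟩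
  -- values
  have hv : ∀ y, fderiv ℝ g y = 0 → b₁ ≤ g y → g y ≤ b₂ → g y = g (zw f K w) := by
    intro y hy h1 h2
    obtain ⟨h3, h4⟩ := (fS_crit hS K y).1 ((hg2 y).1 hy)
    have h5 : y = zw f K (eK n K y 0) := GrowA_zw_of f K y _ h4
    have h6 := hval (eK n K y 0) h3
    rw [← h5] at h6
    exact h6 h1 h2
  have hgz : g z₀ = g (zw f K w) := by
    rw [hzl]
    exact (hgp l₀ hl₀ z₀).symm
  -- the band
  have hband : Band (Lc n K) (qK n K) (QK n K) g R R b₁ b₂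
      (Z'.filter fun z => b₁ < g z ∧ g z < b₂) := by
    refine ⟨hD, hg, hgp, hB1, by linarith, fun z hz => ?_, fun z hz z' hz' l hl h => ?_,
      fun y hy1 hy2 hy3 hy4 hy5 => ?_⟩
    · obtain ⟨h1, h2, h3⟩ := Finset.mem_filter.1 hz
      exact ⟨hcz z h1, (hB2 z (hcz z h1)).1, (hB2 z (hcz z h1)).2, h2, h3⟩
    · exact hZ2 z (Finset.mem_filter.1 hz).1 z' (Finset.mem_filter.1 hz').1 l hl h
    · obtain ⟨z, hz, l, hl, rfl⟩ := (hcr y).1 hy5
      have h1 := hv _ hy5 hy3 hy4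
      rw [hgp l hl] at h1
      refine ⟨z, Finset.mem_filter.2 ⟨hz, ?_, ?_⟩, l, hl, rfl⟩
      · rw [h1]; exact hb1
      · rw [h1]; exact hb2
  have hz₀m : z₀ ∈ Z'.filter fun z => b₁ < g z ∧ g z < b₂ :=
    Finset.mem_filter.2 ⟨hz₀, by rw [hgz]; exact hb1, by rw [hgz]; exact hb2⟩
  -- the local index of `g` at `z₀`
  have hsz : LocIdx g z₀ s := by
    obtain ⟨c, hc⟩ := hg3 (zw f K w) ((hg2 _).1 hz0)
    have h1 : LocIdx g (zw f K w) s := LocIdx_congr (fS_smooth hS K) hs hc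
    rw [hzl] at h1
    exact LocIdx_shift (hgp l₀ hl₀) h1
  exact WrongL_degree (no_cancel F hband (v := g (zw f K w)) (fun z hz => by
    obtain ⟨h1, h2, h3⟩ := Finset.mem_filter.1 hz
    exact hv z (hcz z h1) h2.le h3.le) hz₀m hsz hs0)

/-- **One point with local index `≠ 0` and mean index `≠ 0`** gives cohomology in a wrong
degree. -/
theorem wrong_of_locIdx {S : ℕ → Pt n → ℝ} {f : ℕ → Pt n → Pt n} (hS : ∀ j, Gen (S j) (f j))
    (K : ℕ) [NeZero K] (W : Finset (Pt n))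
    (hW : ∀ w, flw f K w = w ↔ ∃ w' ∈ W, w - w' ∈ Zn n) (w : Pt n) (hw : flw f K w = w) (s : ℤ)
    (hs : LocIdx (fS S K) (zw f K w) s) (hs0 : s ≠ 0) (t : ℝ) (ht : MeanIdx S f K w t)
    (ht0 : t ≠ 0) : Wrong S f K := by
  intro C
  obtain ⟨R₀, hR₀⟩ := band_of_locIdx hS K W hW w hw s hs hs0 C
  exact ⟨1, one_pos, R₀, 0, fun q _ _ g hg _ R hR => ⟨w, t, hw, ht, ht0, fun b₁ b₂ h1 h2 h3 =>
    hR₀ (ZMod q) g hg.smooth hg.per hg.grad hg.crit hg.loc R hR b₁ b₂ h1 h2 h3⟩⟩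

end Pool.Agent.H75.TH
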