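import Pool.Agent.H75.TH.Main
import Pool.Agent.H75.TH.WrongL
import Pool.Agent.H47.QG.Stmt

/-!
# Project TH: the growth theorems on the torus
-/

set_option autoImplicit false

open Module QuadraticForm Filter Topology Function
open Pool.Agent.H47.QG (Pt action flw oseq Gen ind hess Zn MeanIdx Sys orbs Decomp LocIdx flw_mul
  flw_add_int exists_reps Cnt_infinite)
open Pool.Agent.H60.QG (Torus projP P)
open Pool.Agent.H47.ST

namespace Pool.Agent.H75.TH

variable {n : ℕ}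

/-- Either all powers have finitely many fixed points upstairs modulo the lattice, or the growth is
trivial. -/
theorem growth_or_finite {S : ℕ → Pt n → ℝ} {f : ℕ → Pt n → Pt n} (hS : ∀ j, Gen (S j) (f j))
    {N : ℕ} (hfper : ∀ j, f (j + N) = f j) {X : Type*} {φ : X → X} {π : Pt n → X}
    (hsys : Sys (flw f N) φ π (Zn n)) :
    (∀ m : ℕ, 0 < m → ∃ W : Finset (Pt n), (∀ w, flw f (m * N) w = w ↔ ∃ w' ∈ W, w - w' ∈ Zn n) ∧
      ∀ w ∈ W, ∀ w' ∈ W, w - w' ∈ Zn n → w = w') ∨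
    ∃ A > 0, ∀ᶠ T : ℝ in atTop,
      ENNReal.ofReal (A * T ^ (3 / 2 : ℝ) / (Real.log T) ^ (3 / 2 : ℝ)) ≤
        ((orbs φ T).encard : ENNReal) := by
  classical
  have hit : ∀ (m : ℕ) (w : Pt n), flw f (m * N) w = (flw f N)^[m] w := fun m w =>
    flw_mul hfper m w
  by_cases hfin : ∀ m, 0 < m → (π '' {w | (flw f N)^[m] w = w}).Finite
  · left
    intro m hm
    obtain ⟨W, -, hW, hWd⟩ := exists_reps hsys.ker {w | (flw f N)^[m] w = w}
      (fun w hw e he => by
        change (flw f N)^[m] (w + e) = w + e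
        rw [← flw_mul hfper, flw_add_int hS _ _ _ he, flw_mul hfper]
        rw [show (flw f N)^[m] w = w from hw]) (hfin m hm) ∅
      (fun c hc => absurd hc (Finset.notMem_empty c))
      (fun c hc => absurd hc (Finset.notMem_empty c))
    exact ⟨W, fun w => by rw [hit]; exact hW w, hWd⟩
  · right
    push Not at hfin
    obtain ⟨m, hm, hinf⟩ := hfin
    refine ⟨1, one_pos, ?_⟩
    filter_upwards [eventually_ge_atTop (m : ℝ)] with T hT
    rw [(Cnt_infinite hsys hm hinf hT).encard_eq]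
    exact le_top

/-- growth from cohomology in a wrong degree at some level, if the numbers are finite -/
theorem growth_of_wrong {S : ℕ → Pt n → ℝ} {f : ℕ → Pt n → Pt n} (hS : ∀ j, Gen (S j) (f j))
    (hn : 0 < n) {N : ℕ} (hN : 0 < N) (hper : ∀ j, S (j + N) = S j)
    (hfper : ∀ j, f (j + N) = f j) {X : Type*} {φ : X → X} {π : Pt n → X}
    (hsys : Sys (flw f N) φ π (Zn n))
    (hW : (∀ m : ℕ, 0 < m → ∃ W : Finset (Pt n),
      (∀ w, flw f (m * N) w = w ↔ ∃ w' ∈ W, w - w' ∈ Zn n) ∧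
      ∀ w ∈ W, ∀ w' ∈ W, w - w' ∈ Zn n → w = w') →
      ∃ (k : ℕ) (_ : NeZero (k * N)), Wrong S f (k * N)) :
    ∃ A > 0, ∀ᶠ T : ℝ in atTop,
      ENNReal.ofReal (A * T ^ (3 / 2 : ℝ) / (Real.log T) ^ (3 / 2 : ℝ)) ≤
        ((orbs φ T).encard : ENNReal) := by
  rcases growth_or_finite hS hfper hsys with h | h
  · obtain ⟨k, hk, hWr⟩ := hW h
    exact growth_TH hS hn hN hper hfper hsys k hWr
  · exact h

/-- From the lower bound to the exponent. -/
theorem liminf_three_halves {P : ℝ → ENNReal} {c : ℝ} (hc : 0 < c)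
    (h : ∀ᶠ T : ℝ in atTop,
      ENNReal.ofReal (c * T ^ (3 / 2 : ℝ) / (Real.log T) ^ (3 / 2 : ℝ)) ≤ P T) :
    ((3 / 2 : ℝ) : EReal) ≤
      liminf (fun T : ℝ => ENNReal.log (P T) / ((Real.log T : ℝ) : EReal)) atTop := by
  have hlim : Tendsto (fun T : ℝ => (Real.log c + 3 / 2 * Real.log T -
      3 / 2 * Real.log (Real.log T)) / Real.log T) atTop (𝓝 (3 / 2)) := by
    have t1 : Tendsto (fun s : ℝ => (Real.log c + 3 / 2 * s - 3 / 2 * Real.log s) / s) atTop
        (𝓝 (3 / 2)) := by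
      have a1 : Tendsto (fun s : ℝ => Real.log c / s) atTop (𝓝 0) :=
        tendsto_const_nhds.div_atTop tendsto_id
      have a2 : Tendsto (fun s : ℝ => Real.log s / s) atTop (𝓝 0) := by
        have := Real.isLittleO_log_id_atTop.tendsto_div_nhds_zero
        exact this
      have a3 : Tendsto (fun s : ℝ => Real.log c / s + 3 / 2 - 3 / 2 * (Real.log s / s)) atTop
          (𝓝 (0 + 3 / 2 - 3 / 2 * 0)) := (a1.add_const (3 / 2)).sub (a2.const_mul (3 / 2))
      rw [zero_add, mul_zero, sub_zero] at a3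
      refine a3.congr' ?_
      filter_upwards [eventually_gt_atTop (0 : ℝ)] with s hs
      field_simp
    exact t1.comp Real.tendsto_log_atTop
  refine le_of_forall_lt fun a ha => ?_
  obtain ⟨r, har, hr⟩ : ∃ r : ℝ, a < (r : EReal) ∧ (r : EReal) < ((3 / 2 : ℝ) : EReal) := by
    obtain ⟨r, h1, h2⟩ := EReal.lt_iff_exists_real_btwn.1 ha
    exact ⟨r, h1, h2⟩
  refine har.trans_le ?_
  refine le_liminf_of_le (by isBoundedDefault) ?_
  have hr2 : r < 3 / 2 := EReal.coe_lt_coe_iff.1 hr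
  filter_upwards [h, hlim.eventually (lt_mem_nhds hr2), eventually_gt_atTop (Real.exp 1)]
    with T h1 h2 h3
  have hlogT : 1 < Real.log T := by
    rw [← Real.log_exp 1]
    exact Real.log_lt_log (Real.exp_pos 1) h3
  have hT : 0 < T := (Real.exp_pos 1).trans h3
  have hlogT0 : 0 < Real.log T := by linarith
  have hpos : 0 < c * T ^ (3 / 2 : ℝ) / (Real.log T) ^ (3 / 2 : ℝ) := by
    positivity
  have h4 : ((Real.log (c * T ^ (3 / 2 : ℝ) / (Real.log T) ^ (3 / 2 : ℝ)) : ℝ) : EReal) ≤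
      ENNReal.log (P T) := by
    rw [← ENNReal.log_ofReal_of_pos hpos]
    exact ENNReal.log_le_log h1
  have h5 : Real.log (c * T ^ (3 / 2 : ℝ) / (Real.log T) ^ (3 / 2 : ℝ)) =
      Real.log c + 3 / 2 * Real.log T - 3 / 2 * Real.log (Real.log T) := by
    rw [Real.log_div (by positivity) (by positivity), Real.log_mul hc.ne' (by positivity),
      Real.log_rpow hT, Real.log_rpow hlogT0]
  calc (r : EReal) ≤ (((Real.log c + 3 / 2 * Real.log T - 3 / 2 * Real.log (Real.log T)) /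
        Real.log T : ℝ) : EReal) := by
        exact EReal.coe_le_coe_iff.2 h2.le
    _ = ((Real.log (c * T ^ (3 / 2 : ℝ) / (Real.log T) ^ (3 / 2 : ℝ)) : ℝ) : EReal) /
        ((Real.log T : ℝ) : EReal) := by
        rw [h5, EReal.coe_div]
    _ ≤ ENNReal.log (P T) / ((Real.log T : ℝ) : EReal) :=
        EReal.div_le_div_right_of_nonneg (EReal.coe_nonneg.2 hlogT0.le) h4

/-- Growth with exponent `3/2`. -/
def ThreeHalves {n : ℕ} (φ : Torus n → Torus n) : Prop :=
  (∃ A : ℝ, 0 < A ∧ ∀ᶠ T : ℝ in atTop,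
      ENNReal.ofReal (A * T ^ (3 / 2 : ℝ) / (Real.log T) ^ (3 / 2 : ℝ)) ≤ (P φ T : ENNReal)) ∧
    ((3 / 2 : ℝ) : EReal) ≤ liminf (fun T : ℝ =>
      ENNReal.log (P φ T : ENNReal) / ((Real.log T : ℝ) : EReal)) atTop

theorem threeHalves_of {φ : Torus n → Torus n}
    (h : ∃ A > 0, ∀ᶠ T : ℝ in atTop,
      ENNReal.ofReal (A * T ^ (3 / 2 : ℝ) / (Real.log T) ^ (3 / 2 : ℝ)) ≤
        ((orbs φ T).encard : ENNReal)) : ThreeHalves φ := by
  obtain ⟨c, hc, h⟩ := h
  exact ⟨⟨c, hc, h⟩, liminf_three_halves hc h⟩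

/-- Fallback: one contractible fixed point of `φ^k` with local index `≠ 0` and mean index
`≠ 0`. -/
theorem threeHalves_locIdx {φ : Torus n → Torus n} (hn : 0 < n) {N : ℕ}
    {S : ℕ → Pt n → ℝ} {ψ : ℕ → Pt n → Pt n} (h : Decomp φ N S ψ) (k : ℕ)
    [hk : NeZero (k * N)] (w : Pt n) (hw : flw ψ (k * N) w = w) (t : ℝ) (ht0 : t ≠ 0)
    (ht : MeanIdx S ψ (k * N) w t) (s : ℤ) (hs0 : s ≠ 0)
    (hs : LocIdx (action S (k * N)) (oseq ψ (k * N) w) s) : ThreeHalves φ := by
  have hk0 : 0 < k := Nat.pos_of_ne_zero (fun h0 => hk.out (by rw [h0, zero_mul]))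
  refine threeHalves_of (growth_of_wrong h.gen hn h.pos h.perS h.perψ h.sys fun hfin => ?_)
  obtain ⟨W, hW, hWd⟩ := hfin k hk0
  have hs' : LocIdx (fS S (k * N)) (zw ψ (k * N) w) s := by
    have h1 := Pool.Agent.H47.QG.locIdx_comp (action S (k * N))
      (Pool.Agent.H47.QG.action_smooth S (fun j => (h.gen j).smooth) (k * N)) _ s hs
      (eK n (k * N)) 1 one_pos
    have h2 : (fun y => 1 * action S (k * N) (eK n (k * N) y)) = fS S (k * N) := by
      funext y
      rw [one_mul]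
      rfl
    rw [h2] at h1
    exact h1
  exact ⟨k, hk, wrong_of_locIdx h.gen (k * N) W hW w hw s hs' hs0 t ht ht0⟩

end Pool.Agent.H75.TH
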