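import Pool.Agent.H47.ST.Trunc

/-!
# Tate acyclicity of a thin band between two dead levels
-/

set_option autoImplicit false

namespace Pool.Agent.H75.TH

open Pool.Agent.H47.ST

variable {F E : Type*} [Field F] [AddCommGroup E] [Module F E] {d τ ν : E →ₗ[F] E}

/-- The converse of `TK_band_in` (rank zero). -/
theorem band_back (h : Ops d τ ν) {V G G' : ℕ → Submodule F E} (hV : Sub d τ ν V)
    (hG : Sub d τ ν G) (hG' : Sub d τ ν G') (hGG : ∀ j, G' j ≤ G j) (hGV : ∀ j, G j ≤ V j)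
    (J : ℕ) (hJ : ∀ j, J ≤ j → V j = ⊥) {g₁ g₂ : ℕ} (h12 : g₁ < g₂)
    (hb : ∀ j, (j ≤ g₁ ∨ g₂ ≤ j) → HK d G G' j 0)
    (hr : ∀ k, TK d τ ν k (trf d V g₁ g₂ G) (trf d V g₁ g₂ G') 0) (k : ℕ) :
    TK d τ ν k G G' 0 := by
  set L := trun d V g₁ with hL
  set B := trun d V g₂ with hB
  have hLS : Sub d τ ν L := hV.trun h g₁
  have hBS : Sub d τ ν B := hV.trun h g₂
  have hLB : ∀ j, L j ≤ B j := fun j => Trunc_mono h12 j
  have hBG : Sub d τ ν (fun j => B j ⊓ G j) := Trunc_inf hBS hG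
  have hBG' : Sub d τ ν (fun j => B j ⊓ G' j) := Trunc_inf hBS hG'
  have hMS : Sub d τ ν (fun j => (L j ⊓ G j) ⊔ (B j ⊓ G' j)) :=
    Trunc_sup (Trunc_inf hLS hG) hBG'
  have hMG : ∀ j, (L j ⊓ G j) ⊔ (B j ⊓ G' j) ≤ B j ⊓ G j := fun j =>
    sup_le (inf_le_inf_right _ (hLB j)) (inf_le_inf_left _ (hGG j))
  -- `B ⊓ G` modulo `M`
  have h1 : ∀ k, TK d τ ν k (fun j => B j ⊓ G j) (fun j => (L j ⊓ G j) ⊔ (B j ⊓ G' j)) 0 := by
    intro k
    refine RK_zero.2 fun x hx hdx => ?_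
    have h2 := RK_zero.1 (hr k) x
      (mem_sq.2 fun j => Submodule.mem_sup_right (mem_sq.1 hx j))
      (mem_sq.2 fun j => (sup_le_sup_right inf_le_left _ :
        (L j ⊓ G j) ⊔ (B j ⊓ G' j) ≤ L j ⊔ (B j ⊓ G' j)) (mem_sq.1 hdx j))
    obtain ⟨y, hy, hxy⟩ := h2
    have hy' : ∀ j, ∃ b ∈ B j ⊓ G j, y j - b ∈ L j := by
      intro j
      obtain ⟨l, hl, b, hb', hlb⟩ := Submodule.mem_sup.1 (mem_sq.1 hy j)
      refine ⟨b, hb', ?_⟩
      rw [← hlb, add_sub_cancel_right]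
      exact hl
    choose b hb1 hb2 using hy'
    have hbs : b ∈ sq (fun j => B j ⊓ G j) := mem_sq.2 hb1
    refine ⟨b, hbs, mem_sq.2 fun j => ?_⟩
    have h3 : (x - del d τ ν (k + 1) b) j =
        (x - del d τ ν (k + 1) y) j + del d τ ν (k + 1) (y - b) j := by
      rw [map_sub]; simp only [Pi.sub_apply]; abel
    have h4 : del d τ ν (k + 1) (y - b) j ∈ L j := mem_sq.1 (hLS.del (k + 1) (mem_sq.2 hb2)) j
    have h5 : (x - del d τ ν (k + 1) b) j ∈ B j ⊓ G j :=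
      mem_sq.1 (Submodule.sub_mem _ hx (hBG.del (k + 1) hbs)) j
    obtain ⟨l, hl, c, hc, hlc⟩ := Submodule.mem_sup.1 (mem_sq.1 hxy j)
    have h6 : (x - del d τ ν (k + 1) b) j = (l + del d τ ν (k + 1) (y - b) j) + c := by
      rw [h3, ← hlc]; abel
    have h7 : l + del d τ ν (k + 1) (y - b) j ∈ G j := by
      have h8 : l + del d τ ν (k + 1) (y - b) j = (x - del d τ ν (k + 1) b) j - c := by
        rw [h6, add_sub_cancel_right]
      rw [h8]
      exact Submodule.sub_mem _ h5.2 (hGG j hc.2)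
    rw [h6]
    exact Submodule.add_mem_sup ⟨Submodule.add_mem _ hl h4, h7⟩ hc
  -- `M` modulo `B ⊓ G'`
  have h4 : ∀ k, TK d τ ν k (fun j => (L j ⊓ G j) ⊔ (B j ⊓ G' j)) (fun j => B j ⊓ G' j) 0 := by
    refine fun k => Trunc_TK_zero h hBG' hMS (fun j => le_sup_right) J
      (fun j hj => ((hMG j).trans (inf_le_right.trans (hGV j))).trans ((hJ j hj).le.trans bot_le))
      (fun j x hx hdx => ?_) k
    rcases Nat.lt_or_ge g₁ j with hj | hj
    · refine ⟨0, Submodule.zero_mem _, ?_⟩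
      rw [map_zero, sub_zero]
      have h5 : L j = ⊥ := Trunc_gt hj
      simp only [h5, bot_inf_eq, bot_sup_eq] at hx
      exact hx
    · have hxG : x ∈ B j ⊓ G j := hMG j hx
      obtain ⟨y, hy, hxy⟩ := RK_zero.1 (hb j (Or.inl hj)) x hxG.2 hdx.2
      have hyL : ∀ i, i + 1 = j → G i ≤ L i ⊓ G i := fun i hi => by
        refine le_inf ?_ le_rfl
        rw [hL, Trunc_lt (show i < g₁ by omega)]
        exact hGV i
      refine ⟨y, Trunc_pr_mono (fun i hi => (hyL i hi).trans le_sup_left) hy, ?_, hxy⟩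
      refine Submodule.sub_mem _ hxG.1 ?_
      cases j with
      | zero =>
        have h0 : y = 0 := by simpa [pr] using hy
        rw [h0, map_zero]
        exact Submodule.zero_mem _
      | succ i => exact hBS.d i y (hLB i ((hyL i rfl) hy).1)
  have h5 : ∀ k, TK d τ ν k (fun j => B j ⊓ G j) (fun j => B j ⊓ G' j) 0 := fun k => by
    simpa using TK.trans h hBG' (fun j => le_sup_right) hMG (h1 k) (h4 k)
  -- `P = G' + (B ⊓ G)`
  have h6 : TK d τ ν k (fun j => G' j ⊔ (B j ⊓ G j)) G' 0 := by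
    refine RK_zero.2 fun x hx hdx => ?_
    have hx' : ∀ j, ∃ b ∈ B j ⊓ G j, x j - b ∈ G' j := by
      intro j
      obtain ⟨g, hg, b, hb', hgb⟩ := Submodule.mem_sup.1 (mem_sq.1 hx j)
      refine ⟨b, hb', ?_⟩
      rw [← hgb, add_sub_cancel_right]
      exact hg
    choose b hb1 hb2 using hx'
    have hbs : b ∈ sq (fun j => B j ⊓ G j) := mem_sq.2 hb1
    have hxb : x - b ∈ sq G' := mem_sq.2 hb2
    have h7 : del d τ ν k b ∈ sq (fun j => B j ⊓ G' j) := by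
      refine mem_sq.2 fun j => ⟨(mem_sq.1 (hBG.del k hbs) j).1, ?_⟩
      have h8 : del d τ ν k b = del d τ ν k x - del d τ ν k (x - b) := by
        rw [map_sub]; abel
      rw [h8]
      exact mem_sq.1 (Submodule.sub_mem _ hdx (hG'.del k hxb)) j
    obtain ⟨y, hy, hby⟩ := RK_zero.1 (h5 k) b hbs h7
    refine ⟨y, mem_sq.2 fun j => Submodule.mem_sup_right (mem_sq.1 hy j), ?_⟩
    have h8 : x - del d τ ν (k + 1) y = (x - b) + (b - del d τ ν (k + 1) y) := by abel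
    rw [h8]
    exact Submodule.add_mem _ hxb (mem_sq.2 fun j => (mem_sq.1 hby j).2)
  have hPS : Sub d τ ν (fun j => G' j ⊔ (B j ⊓ G j)) := Trunc_sup hG' hBG
  have h7 : TK d τ ν k G (fun j => G' j ⊔ (B j ⊓ G j)) 0 := by
    refine Trunc_TK_zero h hPS hG (fun j => sup_le (hGG j) inf_le_right) J
      (fun j hj => (hGV j).trans ((hJ j hj).le.trans bot_le)) (fun j x hx hdx => ?_) k
    rcases Nat.lt_or_ge j g₂ with hj | hj
    · refine ⟨0, Submodule.zero_mem _, ?_⟩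
      rw [map_zero, sub_zero]
      refine Submodule.mem_sup_right ⟨?_, hx⟩
      rw [hB, Trunc_lt hj]
      exact hGV j hx
    · have h2 : d x ∈ G' (j + 1) := by
        have h3 : B (j + 1) = ⊥ := Trunc_gt (show g₂ < j + 1 by omega)
        simp only [h3, bot_inf_eq, sup_bot_eq] at hdx
        exact hdx
      obtain ⟨y, hy, hxy⟩ := RK_zero.1 (hb j (Or.inr hj)) x hx h2
      exact ⟨y, hy, Submodule.mem_sup_left hxy⟩
  simpa using TK.trans h hG' (fun j => le_sup_left) (fun j => sup_le (hGG j) inf_le_right) h7 h6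

/-- A level without cohomology in the degrees `g₁ < j ≤ g₂`. -/
theorem dead_TK (h : Ops d τ ν) {V G : ℕ → Submodule F E} (hV : Sub d τ ν V)
    (hG : Sub d τ ν G) (hGV : ∀ j, G j ≤ V j)
    (J : ℕ) (hJ : ∀ j, J ≤ j → V j = ⊥) {g₁ g₂ : ℕ} (h12 : g₁ < g₂)
    (hd : ∀ j, g₁ < j → j ≤ g₂ → HK d G (fun _ => ⊥) j 0) (k : ℕ) :
    TK d τ ν k (trf d V g₁ g₂ G) (trun d V g₁) 0 := by
  refine Trunc_TK_zero h (hV.trun h g₁) (hV.trf h hG g₁ g₂) (fun j => le_sup_left) J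
    (fun j hj => (Trunc_trf_le g₁ g₂ j).trans ((hJ j hj).le.trans bot_le))
    (fun j c hc hdc => ?_) k
  rcases lt_trichotomy j g₁ with hj | rfl | hj
  · refine ⟨0, Submodule.zero_mem _, ?_⟩
    rw [map_zero, sub_zero, Trunc_lt hj]
    exact Trunc_trf_le g₁ g₂ j hc
  · refine ⟨0, Submodule.zero_mem _, ?_⟩
    rw [map_zero, sub_zero, Trunc_eq]
    rw [Trunc_gt (Nat.lt_succ_self j), Submodule.mem_bot] at hdc
    exact ⟨Trunc_trf_le j g₂ j hc, LinearMap.mem_ker.2 hdc⟩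
  · rw [Trunc_gt (show g₁ < j + 1 by omega), Submodule.mem_bot] at hdc
    have hc' : c ∈ trun d V g₂ j ⊓ G j := by
      have h1 : trf d V g₁ g₂ G j = trun d V g₂ j ⊓ G j := by
        unfold trf
        rw [Trunc_gt hj, bot_sup_eq]
      rwa [h1] at hc
    rcases Nat.lt_or_ge g₂ j with hj2 | hj2
    · rw [Trunc_gt hj2, bot_inf_eq, Submodule.mem_bot] at hc'
      refine ⟨0, Submodule.zero_mem _, ?_⟩
      rw [map_zero, sub_zero, hc']
      exact Submodule.zero_mem _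
    · obtain ⟨y, hy, hxy⟩ := RK_zero.1 (hd j hj hj2) c hc'.2
        (by rw [Submodule.mem_bot]; exact hdc)
      refine ⟨y, ?_, ?_⟩
      · refine Trunc_pr_mono (fun i hi => ?_) hy
        refine le_trans ?_ (le_sup_right : _ ≤ trf d V g₁ g₂ G i)
        refine le_inf ?_ le_rfl
        rw [Trunc_lt (show i < g₂ by omega)]
        exact hGV i
      · rw [Submodule.mem_bot] at hxy
        rw [hxy]
        exact Submodule.zero_mem _

/-- **Thin band between two dead levels.** All bands between the levels `a` and `b` except the band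
`i₀` are either outside `[g₁, g₂]` or Tate exact. -/
theorem thin_band (h : Ops d τ ν) (Fi : ℕ → ℕ → Submodule F E)
    (hsub : ∀ i, Sub d τ ν (Fi i)) (hmono : ∀ i j, Fi (i + 1) j ≤ Fi i j)
    (J : ℕ) (hJ : ∀ j, J ≤ j → Fi 0 j = ⊥) {g₁ g₂ : ℕ} (h12 : g₁ < g₂)
    (a b i₀ : ℕ) (ha : a ≤ i₀) (hb : i₀ < b)
    (hda : ∀ j, g₁ < j → j ≤ g₂ → HK d (Fi a) (fun _ => ⊥) j 0)
    (hdb : ∀ j, g₁ < j → j ≤ g₂ → HK d (Fi b) (fun _ => ⊥) j 0)
    (hband : ∀ i, a ≤ i → i < b → i ≠ i₀ →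
      (∀ j, g₁ ≤ j → j ≤ g₂ → HK d (Fi i) (Fi (i + 1)) j 0) ∨
      ((∀ j, (j ≤ g₁ ∨ g₂ ≤ j) → HK d (Fi i) (Fi (i + 1)) j 0) ∧
        ∀ k, TK d τ ν k (Fi i) (Fi (i + 1)) 0))
    (hi₀ : ∀ j, (j ≤ g₁ ∨ g₂ ≤ j) → HK d (Fi i₀) (Fi (i₀ + 1)) j 0) (k : ℕ) :
    TK d τ ν k (Fi i₀) (Fi (i₀ + 1)) 0 := by
  have hle : ∀ i n j, Fi (i + n) j ≤ Fi i j := by
    intro i n j
    induction n with
    | zero => exact le_rfl
    | succ n ih => exact (hmono (i + n) j).trans ih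
  have hle' : ∀ i i' j, i ≤ i' → Fi i' j ≤ Fi i j := by
    intro i i' j hii
    obtain ⟨n, rfl⟩ := Nat.exists_eq_add_of_le hii
    exact hle i n j
  have hV : ∀ i j, Fi i j ≤ Fi 0 j := fun i j => hle' 0 i j (Nat.zero_le i)
  have hS : ∀ i, Sub d τ ν (trf d (Fi 0) g₁ g₂ (Fi i)) := fun i =>
    (hsub 0).trf h (hsub i) g₁ g₂
  have hT : ∀ i i' j, i ≤ i' →
      trf d (Fi 0) g₁ g₂ (Fi i') j ≤ trf d (Fi 0) g₁ g₂ (Fi i) j := fun i i' j hii =>
    Trunc_trf_mono (fun j => hle' i i' j hii) g₁ g₂ j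
  -- the dead levels
  have hdA : ∀ k, TK d τ ν k (trf d (Fi 0) g₁ g₂ (Fi a)) (trun d (Fi 0) g₁) 0 :=
    dead_TK h (hsub 0) (hsub a) (hV a) J hJ h12 hda
  have hdB : ∀ k, TK d τ ν k (trf d (Fi 0) g₁ g₂ (Fi b)) (trun d (Fi 0) g₁) 0 :=
    dead_TK h (hsub 0) (hsub b) (hV b) J hJ h12 hdb
  have hab : ∀ k, TK d τ ν k (trf d (Fi 0) g₁ g₂ (Fi a)) (trf d (Fi 0) g₁ g₂ (Fi b)) 0 :=
    fun k => TK.quot h ((hsub 0).trun h g₁) (fun j => le_sup_left)
      (fun j => hT a b j (by omega)) (hdB (k + 1)) (hdA k)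
  -- the other bands
  have hband' : ∀ i, a ≤ i → i < b → i ≠ i₀ → ∀ k,
      TK d τ ν k (trf d (Fi 0) g₁ g₂ (Fi i)) (trf d (Fi 0) g₁ g₂ (Fi (i + 1))) 0 := by
    intro i h1 h2 h3 k
    rcases hband i h1 h2 h3 with h4 | ⟨h4, h5⟩
    · exact TK_band_out h (hsub 0) (hsub i) (hsub (i + 1)) (hmono i) (hV i) J hJ h12 h4 k
    · exact TK_band_in h (hsub 0) (hsub i) (hsub (i + 1)) (hmono i) (hV i) J hJ h12 h4 h5 k
  have hchain : ∀ n i, a ≤ i → i + n ≤ b → (∀ i', i ≤ i' → i' < i + n → i' ≠ i₀) → ∀ k,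
      TK d τ ν k (trf d (Fi 0) g₁ g₂ (Fi i)) (trf d (Fi 0) g₁ g₂ (Fi (i + n))) 0 := by
    intro n
    induction n with
    | zero => intro i _ _ _ k; exact TKb_refl _ k
    | succ n ih =>
      intro i h1 h2 h3 k
      have h4 := ih i h1 (by omega) (fun i' h5 h6 => h3 i' h5 (by omega)) k
      have h5 := hband' (i + n) (by omega) (by omega) (h3 (i + n) (by omega) (by omega)) k
      have h6 := TK.trans h (hS (i + n + 1)) (fun j => hT (i + n) (i + n + 1) j (by omega))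
        (fun j => hT i (i + n) j (by omega)) h4 h5
      exact h6
  have hc1 : ∀ k, TK d τ ν k (trf d (Fi 0) g₁ g₂ (Fi a)) (trf d (Fi 0) g₁ g₂ (Fi i₀)) 0 := by
    intro k
    have h1 := hchain (i₀ - a) a le_rfl (by omega) (fun i' h5 h6 => by omega) k
    rwa [show a + (i₀ - a) = i₀ by omega] at h1
  have hc2 : ∀ k, TK d τ ν k (trf d (Fi 0) g₁ g₂ (Fi (i₀ + 1)))
      (trf d (Fi 0) g₁ g₂ (Fi b)) 0 := by
    intro k
    have h1 := hchain (b - (i₀ + 1)) (i₀ + 1) (by omega) (by omega)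
      (fun i' h5 h6 => by omega) k
    rwa [show i₀ + 1 + (b - (i₀ + 1)) = b by omega] at h1
  have h1 : ∀ k, TK d τ ν k (trf d (Fi 0) g₁ g₂ (Fi i₀)) (trf d (Fi 0) g₁ g₂ (Fi b)) 0 :=
    fun k => TK.sub h (hS i₀) (fun j => hT i₀ b j hb.le) (fun j => hT a i₀ j ha)
      (hc1 (k + 1)) (hab k)
  have h2 : ∀ k, TK d τ ν k (trf d (Fi 0) g₁ g₂ (Fi i₀))
      (trf d (Fi 0) g₁ g₂ (Fi (i₀ + 1))) 0 :=
    fun k => TK.quot h (hS b) (fun j => hT (i₀ + 1) b j hb) (fun j => hT i₀ (i₀ + 1) j (by omega))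
      (hc2 (k + 1)) (h1 k)
  exact band_back h (hsub 0) (hsub i₀) (hsub (i₀ + 1)) (hmono i₀) (hV i₀) J hJ h12 hi₀ h2 k

end Pool.Agent.H75.TH
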