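import Pool.Agent.H75.TH.Count
import Pool.Agent.H47.QG.Cnt

/-!
# Project TH: from the counting theorem to the number of periodic orbits
-/

set_option autoImplicit false

open Filter Topology Function
open Pool.Agent.H47.QG (Sys orbs)

namespace Pool.Agent.H75.TH

variable {M X : Type*} [AddCommGroup M] [Module ℝ M]

/-- the primitive orbits of the level `m`: periodic with period `k m`, not with period `k` -/
def prim (F : M → M) (φ : X → X) (π : M → X) (k m : ℕ) : Set (Set X) :=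
  {O | ∃ w, F^[k * m] w = w ∧ F^[k] w ≠ w ∧ O = {y | ∃ j : ℕ, y = φ^[j] (π w)}}

omit [AddCommGroup M] [Module ℝ M] in
theorem prim_eq (F : M → M) (φ : X → X) (π : M → X) (k m : ℕ) :
    prim F φ π k m = {O | ∃ w, F^[k * m] w = w ∧ F^[k] w ≠ w ∧ O = H60.PO.orb φ (π w)} := rfl

omit [Module ℝ M] in
theorem Brid_inv {F : M → M} {φ : X → X} {π : M → X} {Λ : AddSubgroup M} (h : Sys F φ π Λ)
    {β : Type*} {n : ℕ} (iv : M → β) (hv : ∀ w, F^[n] w = w → iv (F w) = iv w)
    (hvΛ : ∀ w, ∀ e ∈ Λ, F^[n] w = w → iv (w + e) = iv w) {w w' : M}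
    (hw' : F^[n] w' = w') (he : H60.PO.orb φ (π w) = H60.PO.orb φ (π w')) : iv w = iv w' := by
  have hvj : ∀ j, iv (F^[j] w') = iv w' := by
    intro j
    induction j with
    | zero => rfl
    | succ j ih => rw [iterate_succ_apply', hv _ (Pool.Agent.H47.QG.Cnt_shift hw' j), ih]
  have h1 : π w ∈ H60.PO.orb φ (π w') := he ▸ H60.PO.mem_orb φ _
  obtain ⟨j, hj⟩ := h1
  rw [Pool.Agent.H47.QG.Cnt_iter_semi h, h.ker] at hj
  have hs := Pool.Agent.H47.QG.Cnt_shift hw' j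
  have e4 := hvΛ (F^[j] w') _ hj hs
  rw [add_sub_cancel, hvj j] at e4
  exact e4

omit [AddCommGroup M] [Module ℝ M] in
/-- the set of the orbits of the level `n` -/
theorem Brid_fin {F : M → M} {φ : X → X} {π : M → X} {n : ℕ}
    (hfin : (π '' {w | F^[n] w = w}).Finite) :
    {O : Set X | ∃ w, F^[n] w = w ∧ O = H60.PO.orb φ (π w)}.Finite := by
  refine (hfin.image (H60.PO.orb φ)).subset ?_
  rintro O ⟨w, hw, rfl⟩
  exact ⟨π w, ⟨w, hw, rfl⟩, rfl⟩

omit [AddCommGroup M] [Module ℝ M] in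
theorem Brid_prim_sub {F : M → M} {φ : X → X} {π : M → X} {k m : ℕ} :
    prim F φ π k m ⊆ {O : Set X | ∃ w, F^[k * m] w = w ∧ O = H60.PO.orb φ (π w)} := by
  rintro O ⟨w, hw, _, rfl⟩
  exact ⟨w, hw, rfl⟩

theorem Brid_prim_disj {F : M → M} {φ : X → X} {π : M → X} {Λ : AddSubgroup M}
    (h : Sys F φ π Λ) {k : ℕ} (hk : 0 < k) {m m' : ℕ} (hm : m.Prime) (hm' : m'.Prime)
    {O : Set X} (hO : O ∈ prim F φ π k m) (hO' : O ∈ prim F φ π k m') : m = m' := by
  obtain ⟨w, h1, h2, h3⟩ := hO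
  obtain ⟨w', h1', h2', h3'⟩ := hO'
  have he : H60.PO.orb φ (π w) = H60.PO.orb φ (π w') := h3.symm.trans h3'
  have e1 := Pool.Agent.H47.QG.Cnt_quot h hk hm h1 h2
  have e2 := Pool.Agent.H47.QG.Cnt_quot h hk hm' h1' h2'
  have hpos' := Pool.Agent.H47.QG.Cnt_pos h (Nat.mul_pos hk hm'.pos) h1'
  have e3 := H60.PO.period_of_orb_eq he hpos'
  rw [e3, e2] at e1
  exact e1.symm

omit [Module ℝ M] in
theorem Brid_prim_orbs {F : M → M} {φ : X → X} {π : M → X} {Λ : AddSubgroup M}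
    (h : Sys F φ π Λ) {k : ℕ} (hk : 0 < k) {m : ℕ} (hm : 0 < m) {T : ℝ}
    (hT : ((k * m : ℕ) : ℝ) ≤ T) : prim F φ π k m ⊆ orbs φ T := by
  rintro O ⟨w, h1, _, rfl⟩
  have hn := Nat.mul_pos hk hm
  exact ⟨π w, Pool.Agent.H47.QG.Cnt_pos h hn h1,
    (Nat.cast_le.2 (Pool.Agent.H47.QG.Cnt_le h hn h1)).trans hT, rfl⟩

omit [AddCommGroup M] [Module ℝ M] in
theorem Brid_orbs_mono {φ : X → X} {T T' : ℝ} (hT : T ≤ T') : orbs φ T ⊆ orbs φ T' := by
  rintro O ⟨x, h1, h2, h3⟩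
  exact ⟨x, h1, h2.trans hT, h3⟩

/-- the number of values of an invariant on the primitive orbits -/
theorem prim_values {F : M → M} {φ : X → X} {π : M → X} {Λ : AddSubgroup M} (h : Sys F φ π Λ)
    (k m : ℕ) (iv : M → ℕ) (hv : ∀ w, F^[k * m] w = w → iv (F w) = iv w)
    (hvΛ : ∀ w, ∀ e ∈ Λ, F^[k * m] w = w → iv (w + e) = iv w) (hk : 0 < k) (hm : 0 < m)
    (hfin : (π '' {w | F^[k * m] w = w}).Finite) (A : Finset ℕ)
    (hA : ∀ a ∈ A, ∃ w, F^[k * m] w = w ∧ F^[k] w ≠ w ∧ iv w = a) :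
    A.card ≤ (prim F φ π k m).ncard := by
  classical
  have hfinP : (prim F φ π k m).Finite := (Brid_fin hfin).subset Brid_prim_sub
  choose! w hw1 hw2 hw3 using hA
  have hinj : Set.InjOn (fun a => H60.PO.orb φ (π (w a))) (A : Set ℕ) := by
    intro a ha b hb he
    have e := Brid_inv h iv hv hvΛ (hw1 b hb) he
    rwa [hw3 a ha, hw3 b hb] at e
  rw [← Finset.card_image_of_injOn hinj, ← Set.ncard_coe_finset]
  refine Set.ncard_le_ncard ?_ hfinP
  intro O hO
  rw [Finset.mem_coe, Finset.mem_image] at hO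
  obtain ⟨a, ha, rfl⟩ := hO
  exact ⟨w a, hw1 a ha, hw2 a ha, rfl⟩

/-- real variable -/
theorem Brid_real (k : ℕ) (hk : 0 < k) (A : ℝ) (hA : 0 < A) (P : ℕ → ℕ)
    (hP : ∀ᶠ x : ℕ in atTop, A * (x : ℝ) ^ (3 / 2 : ℝ) / (Real.log x) ^ (3 / 2 : ℝ) ≤ P x) :
    ∃ A' > 0, ∀ᶠ T : ℝ in atTop, ∃ x : ℕ, (k * x : ℝ) ≤ T ∧
      A' * T ^ (3 / 2 : ℝ) / (Real.log T) ^ (3 / 2 : ℝ) ≤ P x := by
  have hkR : (0 : ℝ) < k := by exact_mod_cast hk
  have hk1 : (1 : ℝ) ≤ k := by exact_mod_cast hk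
  have ht : Tendsto (fun T : ℝ => ⌊T / k⌋₊) atTop atTop :=
    tendsto_nat_floor_atTop.comp (tendsto_id.atTop_div_const hkR)
  refine ⟨A / (2 * k) ^ (3 / 2 : ℝ), by positivity, ?_⟩
  filter_upwards [ht.eventually hP, eventually_ge_atTop (4 * k : ℝ)] with T h1 h2
  have hT0 : 0 ≤ T := le_trans (by positivity) h2
  refine ⟨⌊T / k⌋₊, ?_, le_trans ?_ h1⟩
  · have := Nat.floor_le (show 0 ≤ T / k by positivity)
    calc (k * ⌊T / k⌋₊ : ℝ) ≤ k * (T / k) := mul_le_mul_of_nonneg_left this hkR.le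
      _ = T := by field_simp
  · set x := ⌊T / k⌋₊ with hx
    have hT4 : 4 ≤ T := by linarith
    have h3 : T / k < x + 1 := Nat.lt_floor_add_one _
    have h4 : 4 ≤ T / k := by rw [le_div_iff₀ hkR]; linarith
    have h5 : T / (2 * k) ≤ x := by
      have : T / (2 * k) = (T / k) / 2 := by field_simp
      rw [this]
      linarith
    have h6 : (x : ℝ) ≤ T := by
      have h7 := Nat.floor_le (show 0 ≤ T / k by positivity)
      refine h7.trans ?_
      exact div_le_self (by linarith) hk1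
    have h8 : (2 : ℝ) < x := by linarith
    have hlx : 0 < Real.log x := Real.log_pos (by linarith)
    have hlT : Real.log x ≤ Real.log T := Real.log_le_log (by linarith) h6
    have e1 : A / (2 * k) ^ (3 / 2 : ℝ) * T ^ (3 / 2 : ℝ) = A * (T / (2 * k)) ^ (3 / 2 : ℝ) := by
      rw [Real.div_rpow (by linarith) (by positivity)]
      ring
    rw [e1]
    have h9 : (T / (2 * k)) ^ (3 / 2 : ℝ) ≤ (x : ℝ) ^ (3 / 2 : ℝ) :=
      Real.rpow_le_rpow (by positivity) h5 (by norm_num)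
    have h10 : (Real.log x) ^ (3 / 2 : ℝ) ≤ (Real.log T) ^ (3 / 2 : ℝ) :=
      Real.rpow_le_rpow hlx.le hlT (by norm_num)
    refine div_le_div₀ (by positivity) (mul_le_mul_of_nonneg_left h9 hA.le) (by positivity) h10

/-- if some number of orbits is infinite there is nothing to prove -/
theorem Brid_triv {φ : X → X} {T₀ : ℝ} (hinf : (orbs φ T₀).Infinite) :
    ∃ A > 0, ∀ᶠ T : ℝ in atTop,
      ENNReal.ofReal (A * T ^ (3 / 2 : ℝ) / (Real.log T) ^ (3 / 2 : ℝ)) ≤
        ((orbs φ T).encard : ENNReal) := by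
  refine ⟨1, one_pos, ?_⟩
  filter_upwards [eventually_ge_atTop T₀] with T hT
  have : (orbs φ T).Infinite := hinf.mono (Brid_orbs_mono hT)
  rw [this.encard_eq]
  exact le_top

/-- **The growth theorem from the key property.** `idx m w` is the normalised index. -/
theorem bridge {F : M → M} {φ : X → X} {π : M → X} {Λ : AddSubgroup M} (h : Sys F φ π Λ)
    (k : ℕ) (hk : 0 < k) (idx : ℕ → M → ℝ)
    (hi : ∀ m w, F^[k * m] w = w → idx m (F w) = idx m w)
    (hiΛ : ∀ m w, ∀ e ∈ Λ, F^[k * m] w = w → idx m (w + e) = idx m w)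
    (tt : Finset ℝ) (htt : ∀ t ∈ tt, t ≠ 0) (κ C₀ C₁ c₁ : ℝ) (hκ : 0 < κ) (hC₀ : 0 < C₀)
    (hC₁ : 0 < C₁) (hc₁ : 0 < c₁)
    (hkey : (∀ m, 0 < m → (π '' {w | F^[k * m] w = w}).Finite) →
      ∀ᶠ p : ℕ in atTop, p.Prime → c₁ * p ≤ (prim F φ π k p).ncard ∨
        ∃ t ∈ tt, ∃ (r : ℕ) (ℓ : Fin r → ℝ), (∀ i, 0 ≤ ℓ i) ∧ κ * p ≤ ∑ i, ℓ i ∧
          ∀ m : ℕ, m.Prime → m ≤ p → ∃ (a : Fin r → M) (u : M → ℝ),
            (∀ w, F^[k * m] w = w → u (F w) = u w) ∧
            (∀ w, ∀ e ∈ Λ, F^[k * m] w = w → u (w + e) = u w) ∧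
            (∀ i, C₀ * ((p : ℝ) - m) < ℓ i → F^[k * m] (a i) = a i ∧
              |idx m (a i) - p * t| ≤ C₁ * ((prim F φ π k p).ncard + 1)) ∧
            ∀ i j, C₀ * ((p : ℝ) - m) < ℓ i → C₀ * ((p : ℝ) - m) < ℓ j → i ≠ j →
              u (a i) ≠ u (a j)) :
    ∃ A > 0, ∀ᶠ T : ℝ in atTop,
      ENNReal.ofReal (A * T ^ (3 / 2 : ℝ) / (Real.log T) ^ (3 / 2 : ℝ)) ≤
        ((orbs φ T).encard : ENNReal) := by
  classical
  by_cases hinf : ∃ T₀ : ℝ, (orbs φ T₀).Infinite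
  · obtain ⟨T₀, hT₀⟩ := hinf
    exact Brid_triv hT₀
  push Not at hinf
  have hfo : ∀ T : ℝ, (orbs φ T).Finite := fun T => hinf T
  have hfm : ∀ m, 0 < m → (π '' {w | F^[k * m] w = w}).Finite := by
    intro m hm
    by_contra hcon
    exact Pool.Agent.H47.QG.Cnt_infinite h (Nat.mul_pos hk hm) hcon le_rfl
      (hfo ((k * m : ℕ) : ℝ))
  have hkey := hkey hfm
  -- the sets of orbits
  let OS : ℕ → Set (Set X) := fun n => {O : Set X | ∃ w, F^[n] w = w ∧ O = H60.PO.orb φ (π w)}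
  have hOS : ∀ m, 0 < m → (OS (k * m)).Finite := fun m hm => Brid_fin (hfm m hm)
  have hOS1 : (OS k).Finite := by
    have := hOS 1 one_pos
    rwa [mul_one] at this
  let O : ℕ → Finset (Set X) := fun m =>
    if hm : 0 < m then (hOS m hm).toFinset else ∅
  have hOm : ∀ m, 0 < m → ∀ o, o ∈ O m ↔ ∃ w, F^[k * m] w = w ∧ o = H60.PO.orb φ (π w) := by
    intro m hm o
    simp only [O, dif_pos hm, Set.Finite.mem_toFinset]
    rfl
  let ix : ℕ → Set X → ℝ := fun m o =>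
    if ho : ∃ w, F^[k * m] w = w ∧ o = H60.PO.orb φ (π w) then idx m ho.choose else 0
  have hix : ∀ m w, F^[k * m] w = w → ix m (H60.PO.orb φ (π w)) = idx m w := by
    intro m w hw
    have ho : ∃ w', F^[k * m] w' = w' ∧ H60.PO.orb φ (π w) = H60.PO.orb φ (π w') := ⟨w, hw, rfl⟩
    have e : ix m (H60.PO.orb φ (π w)) = idx m ho.choose := dif_pos ho
    rw [e]
    exact (Brid_inv h (idx m) (hi m) (hiΛ m) ho.choose_spec.1 ho.choose_spec.2).symm
  obtain ⟨A, hA, hAx⟩ := th_count (fun x => (orbs φ ((k : ℝ) * x)).ncard)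
    (fun m => (prim F φ π k m).ncard) hOS1.toFinset.card O ix tt htt κ C₀ C₁ c₁ hκ hC₀ hC₁ hc₁
    (by
      intro m hm
      have hpf : (prim F φ π k m).Finite := (hOS m hm.pos).subset Brid_prim_sub
      have e1 : (O m : Set (Set X)) ⊆ ((hOS1.toFinset ∪ hpf.toFinset : Finset (Set X)) :
          Set (Set X)) := by
        intro o ho
        rw [Finset.mem_coe, hOm m hm.pos] at ho
        obtain ⟨w, hw, rfl⟩ := ho
        rw [Finset.mem_coe, Finset.mem_union, Set.Finite.mem_toFinset, Set.Finite.mem_toFinset]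
        by_cases h1 : F^[k] w = w
        · exact Or.inl ⟨w, h1, rfl⟩
        · exact Or.inr ⟨w, hw, h1, rfl⟩
      have e2 := Finset.card_le_card (Finset.coe_subset.1 e1)
      refine e2.trans ((Finset.card_union_le _ _).trans ?_)
      rw [Set.ncard_eq_toFinset_card _ hpf])
    (by
      intro x
      have hpf : ∀ m, (prim F φ π k m).Finite ∨ ¬ 0 < m := by
        intro m
        by_cases hm : 0 < m
        · exact Or.inl ((hOS m hm).subset Brid_prim_sub)
        · exact Or.inr hm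
      let Pm : ℕ → Finset (Set X) := fun m => if hm : (prim F φ π k m).Finite then hm.toFinset
        else ∅
      have hPm : ∀ m, 0 < m → ∀ o, o ∈ Pm m ↔ o ∈ prim F φ π k m := by
        intro m hm o
        have hf : (prim F φ π k m).Finite := (hOS m hm).subset Brid_prim_sub
        simp only [Pm, dif_pos hf, Set.Finite.mem_toFinset]
      have hPc : ∀ m, 0 < m → (Pm m).card = (prim F φ π k m).ncard := by
        intro m hm
        have hf : (prim F φ π k m).Finite := (hOS m hm).subset Brid_prim_sub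
        simp only [Pm, dif_pos hf]
        rw [Set.ncard_eq_toFinset_card _ hf]
      have e1 : ∑ m ∈ (Finset.range (x + 1)).filter Nat.Prime, (prim F φ π k m).ncard =
          (((Finset.range (x + 1)).filter Nat.Prime).biUnion Pm).card := by
        rw [Finset.card_biUnion]
        · refine Finset.sum_congr rfl fun m hm => ?_
          rw [Finset.mem_filter] at hm
          rw [hPc m hm.2.pos]
        · intro m hm m' hm' hne
          rw [Finset.mem_coe, Finset.mem_filter] at hm hm'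
          change Disjoint (Pm m) (Pm m')
          rw [Finset.disjoint_left]
          intro o ho ho'
          rw [hPm m hm.2.pos] at ho
          rw [hPm m' hm'.2.pos] at ho'
          exact hne (Brid_prim_disj h hk hm.2 hm'.2 ho ho')
      rw [e1, ← Set.ncard_coe_finset]
      refine Set.ncard_le_ncard ?_ (hfo _)
      intro o ho
      rw [Finset.mem_coe, Finset.mem_biUnion] at ho
      obtain ⟨m, hm, ho⟩ := ho
      rw [Finset.mem_filter, Finset.mem_range, Nat.lt_succ_iff] at hm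
      rw [hPm m hm.2.pos] at ho
      refine Brid_prim_orbs h hk hm.2.pos ?_ ho
      push_cast
      exact mul_le_mul_of_nonneg_left (Nat.cast_le.2 hm.1) (Nat.cast_nonneg k))
    (by
      filter_upwards [hkey] with p hp hpp
      rcases hp hpp with h1 | ⟨t, ht, r, ℓ, hℓ, hs, h2⟩
      · exact Or.inl h1
      refine Or.inr ⟨t, ht, r, ℓ, hℓ, hs, ?_⟩
      intro m hm hmp
      obtain ⟨a, u, hu, huΛ, ha, hau⟩ := h2 m hm hmp
      refine Finset.card_le_card_of_injOn (fun i => H60.PO.orb φ (π (a i))) ?_ ?_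
      · intro i hi'
        rw [Finset.mem_coe, Finset.mem_filter] at hi'
        obtain ⟨ha1, ha2⟩ := ha i hi'.2
        rw [Finset.mem_coe, Finset.mem_filter, hOm m hm.pos]
        refine ⟨⟨a i, ha1, rfl⟩, ?_⟩
        simp only
        rw [hix m _ ha1]
        exact ha2
      · intro i hi' j hj' he
        rw [Finset.mem_coe, Finset.mem_filter] at hi' hj'
        by_contra hne
        refine hau i j hi'.2 hj'.2 hne ?_
        exact Brid_inv h u hu huΛ (ha j hj'.2).1 he)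
  obtain ⟨A', hA', hT⟩ := Brid_real k hk A hA _ hAx
  refine ⟨A', hA', ?_⟩
  filter_upwards [hT] with T hT'
  obtain ⟨x, hx1, hx2⟩ := hT'
  refine (ENNReal.ofReal_le_ofReal hx2).trans ?_
  rw [ENNReal.ofReal_natCast]
  have h3 : ((orbs φ ((k : ℝ) * x)).ncard : ℕ∞) ≤ (orbs φ T).encard := by
    rw [(hfo _).cast_ncard_eq]
    exact Set.encard_le_encard (Brid_orbs_mono hx1)
  exact ENat.toENNReal_le.2 h3

end Pool.Agent.H75.TH
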