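import Pool.Agent.H47.ST.RKa

/-!
# Chains of death levels
-/

set_option autoImplicit false

namespace Pool.Agent.H75.TH

open Pool.Agent.H47.ST

variable {F E : Type*} [Field F] [AddCommGroup E] [Module F E] {d : E →ₗ[F] E}

/-- a cocycle of degree `j + 1`, `g₁ ≤ j < g₂`, of the level `i` which is not a coboundary at the
level `i' + 1` and is a coboundary at the level `i'` -/
def Dies (d : E →ₗ[F] E) (Fi : ℕ → ℕ → Submodule F E) (g₁ g₂ i i' : ℕ) : Prop :=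
  ∃ j, g₁ ≤ j ∧ j < g₂ ∧ ∃ c ∈ Fi i (j + 1), d c = 0 ∧ (∀ y ∈ Fi (i' + 1) j, d y ≠ c) ∧
    ∃ y ∈ Fi i' j, d y = c

/-- rank zero relative cohomology -/
theorem Chain_HK_iff (B A : ℕ → Submodule F E) (j : ℕ) :
    HK d B A j 0 ↔ ∀ x ∈ B j, d x ∈ A (j + 1) → ∃ y ∈ pr B j, x - d y ∈ A j := by
  constructor
  · rintro ⟨ℓ, hℓ⟩ x hx hdx
    exact hℓ x hx hdx (Subsingleton.elim _ _)
  · intro h
    exact ⟨0, fun x hx hdx _ => h x hx hdx⟩

/-- rank zero absolute cohomology in positive degrees -/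
theorem Chain_HK_bot_iff (B : ℕ → Submodule F E) (j : ℕ) :
    HK d B (fun _ => ⊥) (j + 1) 0 ↔ ∀ x ∈ B (j + 1), d x = 0 → ∃ y ∈ B j, d y = x := by
  rw [Chain_HK_iff]
  constructor
  · intro h x hx hdx
    obtain ⟨y, hy, hxy⟩ := h x hx ((Submodule.mem_bot F).2 hdx)
    exact ⟨y, hy, (sub_eq_zero.1 ((Submodule.mem_bot F).1 hxy)).symm⟩
  · intro h x hx hdx
    obtain ⟨y, hy, hxy⟩ := h x hx ((Submodule.mem_bot F).1 hdx)
    exact ⟨y, hy, (Submodule.mem_bot F).2 (sub_eq_zero.2 hxy.symm)⟩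

/-- one death -/
theorem Chain_step (Fi : ℕ → ℕ → Submodule F E) (hmono : ∀ i j, Fi (i + 1) j ≤ Fi i j)
    {g₁ g₂ : ℕ} (h0 : ∀ j, g₁ < j → j ≤ g₂ → HK d (Fi 0) (fun _ => ⊥) j 0) (i : ℕ)
    (halive : ∃ j, g₁ < j ∧ j ≤ g₂ ∧ ¬ HK d (Fi i) (fun _ => ⊥) j 0) :
    ∃ i' < i, Dies d Fi g₁ g₂ i i' := by
  obtain ⟨j0, hj1, hj2, hH⟩ := halive
  obtain ⟨j, rfl⟩ : ∃ j, j0 = j + 1 := ⟨j0 - 1, by omega⟩
  rw [Chain_HK_bot_iff] at hH
  push Not at hH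
  obtain ⟨c, hc, hdc, hno⟩ := hH
  have hanti : ∀ a b j, a ≤ b → Fi b j ≤ Fi a j := by
    intro a b j hab
    induction b, hab using Nat.le_induction with
    | base => exact le_rfl
    | succ b _ ih => exact (hmono b j).trans ih
  have hQ0 : ∃ y ∈ Fi 0 j, d y = c :=
    (Chain_HK_bot_iff (Fi 0) j).1 (h0 (j + 1) hj1 hj2) c (hanti 0 i (j + 1) (Nat.zero_le i) hc) hdc
  have key : ∀ m, (¬ ∃ y ∈ Fi m j, d y = c) →
      ∃ i' < m, (∃ y ∈ Fi i' j, d y = c) ∧ ¬ ∃ y ∈ Fi (i' + 1) j, d y = c := by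
    intro m
    induction m with
    | zero => exact fun h => absurd hQ0 h
    | succ m ih =>
      intro h
      by_cases hm : ∃ y ∈ Fi m j, d y = c
      · exact ⟨m, Nat.lt_succ_self m, hm, h⟩
      · obtain ⟨i', hi', h'⟩ := ih hm
        exact ⟨i', hi'.trans (Nat.lt_succ_self m), h'⟩
  obtain ⟨i', hi', hy, hn⟩ := key i (by
    rintro ⟨y, hy, hyc⟩
    exact hno y hy hyc)
  refine ⟨i', hi', j, by omega, by omega, c, hc, hdc, ?_, hy⟩
  intro y hy' hyc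
  exact hn ⟨y, hy', hyc⟩

/-- **Chain of death levels.** -/
theorem exists_chain (Fi : ℕ → ℕ → Submodule F E) (hmono : ∀ i j, Fi (i + 1) j ≤ Fi i j)
    {g₁ g₂ : ℕ} (h0 : ∀ j, g₁ < j → j ≤ g₂ → HK d (Fi 0) (fun _ => ⊥) j 0) (lo hi : ℕ)
    (hlh : lo ≤ hi)
    (halive : ∀ i, lo ≤ i → i ≤ hi → ∃ j, g₁ < j ∧ j ≤ g₂ ∧ ¬ HK d (Fi i) (fun _ => ⊥) j 0) :
    ∃ (r : ℕ) (s : ℕ → ℕ), 0 < r ∧ s 0 = hi ∧ s r < lo ∧ (∀ k < r, lo ≤ s k ∧ s (k + 1) < s k) ∧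
      ∀ k < r, Dies d Fi g₁ g₂ (s k) (s (k + 1)) := by
  have main : ∀ i, lo ≤ i → i ≤ hi → ∃ (r : ℕ) (s : ℕ → ℕ), 0 < r ∧ s 0 = i ∧ s r < lo ∧
      (∀ k < r, lo ≤ s k ∧ s (k + 1) < s k) ∧ ∀ k < r, Dies d Fi g₁ g₂ (s k) (s (k + 1)) := by
    intro i
    induction i using Nat.strong_induction_on with
    | _ i ih =>
      intro hlo hhi
      obtain ⟨i', hi', hD⟩ := Chain_step Fi hmono h0 i (halive i hlo hhi)
      by_cases h : i' < lo
      · refine ⟨1, fun k => if k = 0 then i else i', one_pos, by simp, by simpa using h, ?_, ?_⟩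
        · intro k hk
          obtain rfl : k = 0 := by omega
          simpa using ⟨hlo, hi'⟩
        · intro k hk
          obtain rfl : k = 0 := by omega
          simpa using hD
      · push Not at h
        obtain ⟨r, s, hr, hs0, hsr, hs, hDs⟩ := ih i' hi' h (hi'.le.trans hhi)
        refine ⟨r + 1, fun k => Nat.casesOn k i s, Nat.succ_pos r, rfl, hsr, ?_, ?_⟩
        · intro k hk
          cases k with
          | zero => exact ⟨hlo, by simpa [hs0] using hi'⟩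
          | succ k => exact hs k (by omega)
        · intro k hk
          cases k with
          | zero => simpa [hs0] using hD
          | succ k => exact hDs k (by omega)
  exact main hi hlh le_rfl

/-- **Stability.** -/
theorem Dies.stable (hdd : ∀ x, d (d x) = 0) {Fi : ℕ → ℕ → Submodule F E} {g₁ g₂ i i' : ℕ}
    (h : Dies d Fi g₁ g₂ i i') (G G' : ℕ → Submodule F E) (hG : ∀ j, Fi i' j ≤ G j)
    (hG' : ∀ j, Fi i j ≤ G' j) (hG'' : ∀ j, G' j ≤ Fi (i' + 1) j) :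
    ∃ j, g₁ ≤ j ∧ j < g₂ ∧ ¬ HK d G G' j 0 := by
  obtain ⟨j, hj1, hj2, c, hc, hdc, hno, y, hy, hyc⟩ := h
  refine ⟨j, hj1, hj2, fun hHK => ?_⟩
  rw [Chain_HK_iff] at hHK
  obtain ⟨z, -, hyz⟩ := hHK y (hG j hy) (by rw [hyc]; exact hG' (j + 1) hc)
  refine hno (y - d z) (hG'' j hyz) ?_
  rw [map_sub, hdd, sub_zero, hyc]

end Pool.Agent.H75.TH
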