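import Pool.Agent.H45.AC.Adm
import Pool.Agent.H45.AC.Sep2
import Pool.Agent.H75.TH.Alg
import Pool.Agent.H75.TH.Chain
import Pool.Agent.H75.TH.FixB

/-!
# Project TH: the chain of death levels of the action of period `p N`
-/

set_option autoImplicit false

namespace Pool.Agent.H75.TH

open Filter Topology QuadraticForm
open Pool.Agent.H47.ST
open Pool.Agent.H47.QG (hess)
open Pool.Agent.H45.AC (Adm ClI SepI Rgd exists_Rgd)

section algebra

variable {F E : Type*} [Field F] [AddCommGroup E] [Module F E] {d τ ν : E →ₗ[F] E}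

/-- Between the marked band `i₀`, whose Tate cohomology is not zero, and one of the neighbouring
marked bands all levels are alive. -/
theorem Core_gap (h : Ops d τ ν) (Fi : ℕ → ℕ → Submodule F E)
    (hsub : ∀ i, Sub d τ ν (Fi i)) (hmono : ∀ i j, Fi (i + 1) j ≤ Fi i j)
    (J : ℕ) (hJ : ∀ j, J ≤ j → Fi 0 j = ⊥) {g₁ g₂ : ℕ} (h12 : g₁ < g₂) (M₀ i₀ : ℕ)
    (hi₀M : i₀ < M₀)
    (hd0 : ∀ j, g₁ < j → j ≤ g₂ → HK d (Fi 0) (fun _ => ⊥) j 0)
    (hdM : ∀ j, g₁ < j → j ≤ g₂ → HK d (Fi M₀) (fun _ => ⊥) j 0)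
    (Iv : ℕ → Prop)
    (hband : ∀ i < M₀, ¬ Iv i → (∀ j, g₁ ≤ j → j ≤ g₂ → HK d (Fi i) (Fi (i + 1)) j 0) ∨
      ((∀ j, (j ≤ g₁ ∨ g₂ ≤ j) → HK d (Fi i) (Fi (i + 1)) j 0) ∧
        ∀ k, TK d τ ν k (Fi i) (Fi (i + 1)) 0))
    (hIv : Iv i₀)
    (hi₀ : ∀ j, (j ≤ g₁ ∨ g₂ ≤ j) → HK d (Fi i₀) (Fi (i₀ + 1)) j 0)
    (hne : ¬ ∀ k, TK d τ ν k (Fi i₀) (Fi (i₀ + 1)) 0) :
    ∃ a b, a < b ∧ b < M₀ ∧ Iv a ∧ Iv b ∧ (a = i₀ ∨ b = i₀) ∧
      ∀ i, a + 1 ≤ i → i ≤ b → ∃ j, g₁ < j ∧ j ≤ g₂ ∧ ¬ HK d (Fi i) (fun _ => ⊥) j 0 := by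
  classical
  have halive : ∀ i, (¬ ∀ j, g₁ < j → j ≤ g₂ → HK d (Fi i) (fun _ => ⊥) j 0) →
      ∃ j, g₁ < j ∧ j ≤ g₂ ∧ ¬ HK d (Fi i) (fun _ => ⊥) j 0 := by
    intro i hi
    push Not at hi
    exact hi
  by_cases hL : ∃ a ≤ i₀, (∀ j, g₁ < j → j ≤ g₂ → HK d (Fi a) (fun _ => ⊥) j 0) ∧
      ∀ i, a ≤ i → i < i₀ → ¬ Iv i
  · by_cases hU : ∃ b, i₀ < b ∧ b ≤ M₀ ∧
        (∀ j, g₁ < j → j ≤ g₂ → HK d (Fi b) (fun _ => ⊥) j 0) ∧ ∀ i, i₀ < i → i < b → ¬ Iv i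
    · exfalso
      obtain ⟨a, ha, hda, hna⟩ := hL
      obtain ⟨b, hb, hbM, hdb, hnb⟩ := hU
      refine hne fun k => thin_band h Fi hsub hmono J hJ h12 a b i₀ ha hb hda hdb ?_ hi₀ k
      intro i h1 h2 h3
      refine hband i (by omega) ?_
      rcases Nat.lt_or_ge i i₀ with h4 | h4
      · exact hna i h1 h4
      · exact hnb i (by omega) h2
    · -- the upper gap
      have hex : ∃ i, i₀ < i ∧ i < M₀ ∧ Iv i := by
        by_contra hcon
        push Not at hcon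
        exact hU ⟨M₀, hi₀M, le_rfl, hdM, fun i h1 h2 => hcon i h1 h2⟩
      obtain ⟨hb1, hb2, hb3⟩ := Nat.find_spec hex
      have hmin : ∀ i, i < Nat.find hex → ¬ (i₀ < i ∧ i < M₀ ∧ Iv i) := fun i hi =>
        Nat.find_min hex hi
      refine ⟨i₀, Nat.find hex, hb1, hb2, hIv, hb3, Or.inl rfl, fun i h1 h2 => halive i ?_⟩
      intro hd
      refine hU ⟨i, by omega, by omega, hd, fun i' h3 h4 h5 => ?_⟩
      exact hmin i' (by omega) ⟨h3, by omega, h5⟩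
  · -- the lower gap
    have hex : ∃ c, ∃ i, i + c = i₀ ∧ 0 < c ∧ Iv i := by
      by_contra hcon
      push Not at hcon
      refine hL ⟨0, Nat.zero_le _, hd0, fun i _ h2 h3 => ?_⟩
      exact hcon (i₀ - i) i (by omega) (by omega) h3
    obtain ⟨i, hi1, hi2, hi3⟩ := Nat.find_spec hex
    have hmin : ∀ c, c < Nat.find hex → ¬ ∃ i, i + c = i₀ ∧ 0 < c ∧ Iv i := fun c hc =>
      Nat.find_min hex hc
    refine ⟨i, i₀, by omega, hi₀M, hi3, hIv, Or.inr rfl, fun i' h1 h2 => halive i' ?_⟩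
    intro hd
    refine hL ⟨i', h2, hd, fun i'' h3 h4 h5 => ?_⟩
    exact hmin (i₀ - i'') (by omega) ⟨i'', by omega, by omega, h5⟩

end algebra

/-- the band of a function close to `Q` between two regular levels -/
theorem Core_band {n K : ℕ} [NeZero K] {C R : ℝ} (hR : Rgd n K 1 C R)
    {f : (Iz n K → ℝ) → ℝ} {W : Finset (Iz n K → ℝ)} (hsm : ContDiff ℝ 2 f)
    (hper : PerL (Lc n K) f)
    (hgr : ∀ y b, |fderiv ℝ f y (Pi.single b 1) - DK n K y b| ≤ C)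
    (hcr : ∀ y, fderiv ℝ f y = 0 ↔ ∃ z ∈ W, ∃ l ∈ Lc n K, y = z + rl l)
    (hij : ∀ z ∈ W, ∀ z' ∈ W, ∀ l ∈ Lc n K, z' = z + rl l → z' = z)
    {b₁ b₂ : ℝ} (hb : b₁ < b₂) (h1 : ∀ z ∈ W, f z ≠ b₁) (h2 : ∀ z ∈ W, f z ≠ b₂) :
    Band (Lc n K) (qK n K) (QK n K) f R R b₁ b₂ (W.filter fun z => b₁ < f z ∧ f z < b₂) := by
  have hD : Dm (Lc n K) (qK n K) (QK n K) R R := by
    have h := dom_Dm n K one_pos R R
    simp only [one_mul] at h
    exact h
  have hB := hR f (hsm.differentiable (by norm_num)) (fun y b => by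
    rw [one_mul]
    exact hgr y b)
  simp only [one_mul] at hB
  obtain ⟨hB1, hB2⟩ := hB
  have hWc : ∀ z ∈ W, fderiv ℝ f z = 0 := fun z hz =>
    (hcr z).2 ⟨z, hz, 0, (Lc n K).zero_mem, by rw [Win_rl_zero, add_zero]⟩
  refine ⟨hD, hsm, hper, hB1, hb, ?_, ?_, ?_⟩
  · intro z hz
    obtain ⟨hz1, hz2, hz3⟩ := Finset.mem_filter.1 hz
    exact ⟨hWc z hz1, (hB2 z (hWc z hz1)).1, (hB2 z (hWc z hz1)).2, hz2, hz3⟩
  · intro z hz z' hz' l hl e
    exact hij z (Finset.mem_filter.1 hz).1 z' (Finset.mem_filter.1 hz').1 l hl e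
  · intro y _ _ h3 h4 h5
    obtain ⟨z, hz, l, hl, rfl⟩ := (hcr y).1 h5
    rw [hper l hl z] at h3 h4
    exact ⟨z, Finset.mem_filter.2 ⟨hz, lt_of_le_of_ne h3 (h1 z hz).symm,
      lt_of_le_of_ne h4 (h2 z hz)⟩, l, hl, rfl⟩

/-- the band of a value -/
theorem Core_find (α : ℕ → ℝ) (x : ℝ) (h : ∀ i, α i ≠ x) (M : ℕ) (h0 : α 0 < x) (hM : x < α M) :
    ∃ i < M, α i < x ∧ x < α (i + 1) := by
  induction M with
  | zero => exact absurd h0 hM.not_gt
  | succ M ih =>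
    rcases lt_trichotomy x (α M) with h1 | h1 | h1
    · obtain ⟨i, hi, h2⟩ := ih h1
      exact ⟨i, by omega, h2⟩
    · exact absurd h1.symm (h M)
    · exact ⟨M, Nat.lt_succ_self M, h1, hM⟩

/-- a shift for which finitely many levels are regular -/
theorem Core_shift (α : ℕ → ℝ) (M : ℕ) (V : Finset ℝ) (c : ℝ) :
    ∃ c', c < c' ∧ c' < c + 1 / 8 ∧ ∀ i ≤ M, ∀ v ∈ V, v ≠ α i - c' ∧ v ≠ α i + c' := by
  classical
  obtain ⟨c', hc', hb⟩ := (Set.Ioo_infinite (show c < c + 1 / 8 by linarith)).exists_notMem_finset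
    ((Finset.range (M + 1)).biUnion fun i =>
      (V.image fun v => α i - v) ∪ (V.image fun v => v - α i))
  refine ⟨c', hc'.1, hc'.2, fun i hi v hv => ⟨fun e => hb ?_, fun e => hb ?_⟩⟩
  · refine Finset.mem_biUnion.2 ⟨i, Finset.mem_range.2 (by omega), Finset.mem_union_left _ ?_⟩
    exact Finset.mem_image.2 ⟨v, hv, by rw [e]; ring⟩
  · refine Finset.mem_biUnion.2 ⟨i, Finset.mem_range.2 (by omega), Finset.mem_union_right _ ?_⟩
    exact Finset.mem_image.2 ⟨v, hv, by rw [e]; ring⟩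

theorem Core_lat {n p N : ℕ} [NeZero (p * N)] {l : Iz n (p * N) → ℤ} (hl : l ∈ Lc n (p * N)) :
    rl l ∘ shp n p N = rl l := by
  obtain ⟨c, hc⟩ := hl
  funext a
  obtain ⟨j, b⟩ := a
  change (l (shp n p N (j, b)) : ℝ) = (l (j, b) : ℝ)
  rw [hc j b]
  exact congrArg _ (hc _ _)

/-- the folded band without critical points -/
theorem Core_fold {n p N : ℕ} [NeZero N] [NeZero (p * N)] [Fact p.Prime] {C : ℝ} {G₁ G₂ : ℕ}
    {f : (Iz n (p * N) → ℝ) → ℝ} {W : Finset (Iz n (p * N) → ℝ)}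
    (h : Adm n (p * N) (shp n p N) C G₁ G₂ f W) {R : ℝ} (hR' : Rgd n N p (p * C) R) {b₁ b₂ : ℝ}
    (hb : b₁ < b₂) (h1 : ∀ z ∈ W, f z ≠ b₁) (h2 : ∀ z ∈ W, f z ≠ b₂)
    (hno : ∀ z ∈ W, z ∘ shp n p N = z → b₁ < f z → f z < b₂ → False) :
    Band (Lc n N) (fun t => p * qK n N t) (fun t => p * QK n N t)
      (fun y : Iz n N → ℝ => f (y ∘ shs n p N)) R R b₁ b₂ (∅ : Finset (Iz n N → ℝ)) := by
  have hp : p.Prime := Fact.out
  have hp0 : (0 : ℝ) < p := by exact_mod_cast hp.pos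
  have hfd : Differentiable ℝ f := h.smooth.differentiable (by norm_num)
  have hfb : ContDiff ℝ 2 (fun y : Iz n N → ℝ => f (y ∘ shs n p N)) :=
    fold_smooth (shs n p N) 2 f h.smooth
  obtain ⟨hB1', -⟩ := hR' (fun y : Iz n N → ℝ => f (y ∘ shs n p N))
    (hfb.differentiable (by norm_num)) (EqM_partial hfd h.grad)
  have hcf := crit_of_fold (shp n p N) hp.pos (shp_pow n p N) (shs n p N)
    (fun v => shp_fix v) f hfd h.inv
  refine ⟨dom_Dm n N hp0 R R, hfb, EqM_per h.per, hB1', hb, ?_, ?_, ?_⟩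
  · intro c hc
    exact absurd hc (Finset.notMem_empty c)
  · intro c hc
    exact absurd hc (Finset.notMem_empty c)
  · intro y _ _ h3 h4 h5
    exfalso
    obtain ⟨z, hz, l, hl, hy⟩ := (h.crit _).1 ((hcf y).1 h5)
    have hy2 : (y ∘ shs n p N) ∘ shp n p N = y ∘ shs n p N :=
      (shp_fix (y ∘ shs n p N)).2 ⟨y, rfl⟩
    have hzi : z ∘ shp n p N = z := by
      have hz2 : z = y ∘ shs n p N - rl l := by rw [hy, add_sub_cancel_right]
      have e : (y ∘ shs n p N - rl l) ∘ shp n p N =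
          (y ∘ shs n p N) ∘ shp n p N - rl l ∘ shp n p N := rfl
      rw [hz2, e, hy2, Core_lat hl]
    rw [hy, h.per l hl z] at h3 h4
    exact hno z hz hzi (lt_of_le_of_ne h3 (h1 z hz).symm) (lt_of_le_of_ne h4 (h2 z hz))

/-- **Chain of death levels.** -/
theorem TH_core {n p N : ℕ} [NeZero N] [NeZero (p * N)] [Fact p.Prime] {C : ℝ} {G₁ G₂ : ℕ}
    (h12 : G₁ < G₂) (hside : G₂ ≤ n * (p * N - 1) ∨ n * (p * N - 1) + 2 * n < G₁)
    {f : (Iz n (p * N) → ℝ) → ℝ} {W : Finset (Iz n (p * N) → ℝ)}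
    (h : Adm n (p * N) (shp n p N) C G₁ G₂ f W) (hsep : SepI G₁ G₂ f W)
    (I : Finset ℕ) (f' : ℕ → (Iz n (p * N) → ℝ) → ℝ) (W' : ℕ → Finset (Iz n (p * N) → ℝ))
    (c : ℕ → ℝ) (hsm : ∀ i ∈ I, ContDiff ℝ 2 (f' i)) (hper : ∀ i ∈ I, PerL (Lc n (p * N)) (f' i))
    (hgr : ∀ i ∈ I, ∀ y b, |fderiv ℝ (f' i) y (Pi.single b 1) - DK n (p * N) y b| ≤ C)
    (hcr : ∀ i ∈ I, ∀ y, fderiv ℝ (f' i) y = 0 ↔ ∃ z ∈ W' i, ∃ l ∈ Lc n (p * N), y = z + rl l)
    (hij : ∀ i ∈ I, ∀ z ∈ W' i, ∀ z' ∈ W' i, ∀ l ∈ Lc n (p * N), z' = z + rl l → z' = z)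
    (hc : ∀ i ∈ I, ∀ y, |f' i y - f y| ≤ c i) :
    ∃ R₀ : ℝ, ∀ R ≥ R₀, ∀ v κ : ℝ,
      (∃ z ∈ W, z ∘ shp n p N = z ∧ ClI G₁ G₂ f z ∧ f z = v) →
      (∀ z ∈ W, z ∘ shp n p N = z → ClI G₁ G₂ f z → f z ≠ v → κ ≤ |f z - v|) →
      (∀ b₁ b₂ : ℝ, b₁ < v → v < b₂ →
        (∀ y : Iz n N → ℝ, fderiv ℝ f (y ∘ shs n p N) = 0 → b₁ ≤ f (y ∘ shs n p N) →
          f (y ∘ shs n p N) ≤ b₂ → f (y ∘ shs n p N) = v) →
        ∃ j, ∃ᶠ M : ℕ in atTop, ¬ HR (ZMod p) (lam (Lc n N) (2 ^ M))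
          (Lv (fun t => p * qK n N t) (fun t => p * QK n N t)
            (fun y : Iz n N → ℝ => f (y ∘ shs n p N)) R R b₂ (2 ^ M))
          (Lv (fun t => p * qK n N t) (fun t => p * QK n N t)
            (fun y : Iz n N → ℝ => f (y ∘ shs n p N)) R R b₁ (2 ^ M)) j 0) →
      ∃ (r : ℕ) (d : ℕ → ℝ), (∀ k < r, d (k + 1) < d k) ∧ κ ≤ d 0 - d r ∧
        (∀ k < r, ∃ z ∈ W, ClI G₁ G₂ f z ∧ f z = d (k + 1)) ∧
        ∀ i ∈ I, ∀ k < r, 2 * c i + 1 / 2 < d k - d (k + 1) →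
          ∃ y ∈ W' i, |f' i y - d (k + 1)| ≤ c i + 1 / 4 ∧
            ∃ g, G₁ ≤ g + 1 ∧ g + 1 < G₂ ∧ sigNeg (hess (f' i) y) ≤ g ∧
              g + sigPos (hess (f' i) y) ≤ Fintype.card (Iz n (p * N)) := by
  classical
  have hp : p.Prime := Fact.out
  have hp0 : (0 : ℝ) < p := by exact_mod_cast hp.pos
  have hf := h.smooth
  have hfp := h.per
  have hfd : Differentiable ℝ f := hf.differentiable (by norm_num)
  -- the domain
  obtain ⟨R₁, -, hR1⟩ := exists_Rgd n (p * N) one_pos C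
  obtain ⟨R₂, -, hR2⟩ := exists_Rgd n N hp0 (p * C)
  obtain ⟨R₃, hb3⟩ := total_K (ZMod p) n (p * N)
  refine ⟨max (max R₁ R₂) R₃, fun R hR₀ v κ hvI hκ hna => ?_⟩
  have hRa : R₁ ≤ R := ((le_max_left _ _).trans (le_max_left _ _)).trans hR₀
  have hRb : R₂ ≤ R := ((le_max_right _ _).trans (le_max_left _ _)).trans hR₀
  have hRc : R₃ ≤ R := (le_max_right _ _).trans hR₀
  have hR := hR1 R hRa
  have hR' := hR2 R hRb
  have hD : Dm (Lc n (p * N)) (qK n (p * N)) (QK n (p * N)) R R := by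
    have h := dom_Dm n (p * N) one_pos R R
    simp only [one_mul] at h
    exact h
  have hB := hR f hfd (fun y b => by
    rw [one_mul]
    exact h.grad y b)
  simp only [one_mul] at hB
  obtain ⟨hB1, hB2⟩ := hB
  have hWc : ∀ z ∈ W, fderiv ℝ f z = 0 := fun z hz =>
    (h.crit z).2 ⟨z, hz, 0, (Lc n (p * N)).zero_mem, by rw [Win_rl_zero, add_zero]⟩
  -- the levels
  obtain ⟨α₀, hα₀⟩ := Lv_low hD hf.continuous hfp
  obtain ⟨β₀, hβ₀⟩ := Lv_high hD hf.continuous hfp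
  obtain ⟨M₀, α, hmono, hα0, hαM, hαV, hαs⟩ := exists_levels
    (W.image f ∪ (W.image fun z => f z - 1 / 8) ∪ (W.image fun z => f z + 1 / 8)) α₀ β₀
  have hV0 : ∀ z ∈ W, f z ∈ W.image f ∪ (W.image fun z => f z - 1 / 8) ∪
      (W.image fun z => f z + 1 / 8) := fun z hz =>
    Finset.mem_union_left _ (Finset.mem_union_left _ (Finset.mem_image_of_mem f hz))
  have hV1 : ∀ z ∈ W, f z - 1 / 8 ∈ W.image f ∪ (W.image fun z => f z - 1 / 8) ∪
      (W.image fun z => f z + 1 / 8) := fun z hz =>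
    Finset.mem_union_left _ (Finset.mem_union_right _
      (Finset.mem_image_of_mem (fun z => f z - 1 / 8) hz))
  have hV2 : ∀ z ∈ W, f z + 1 / 8 ∈ W.image f ∪ (W.image fun z => f z - 1 / 8) ∪
      (W.image fun z => f z + 1 / 8) := fun z hz =>
    Finset.mem_union_right _ (Finset.mem_image_of_mem (fun z => f z + 1 / 8) hz)
  have hαf : ∀ i, ∀ z ∈ W, f z ≠ α i := fun i z hz e => hαV i (by rw [← e]; exact hV0 z hz)
  have hsame : ∀ i, ∀ z ∈ W, ∀ z' ∈ W, α i < f z → f z < α (i + 1) → α i < f z' →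
      f z' < α (i + 1) → f z = f z' := fun i z hz z' hz' e1 e2 e3 e4 =>
    hαs i _ (hV0 z hz) _ (hV0 z' hz') e1 e2 e3 e4
  have hnr1 : ∀ i, ∀ z ∈ W, α i < f z → f z < α (i + 1) → f z - 1 / 8 < α i := by
    intro i z hz e1 e2
    by_contra e3
    rw [not_lt] at e3
    have e4 : α i < f z - 1 / 8 := lt_of_le_of_ne e3 fun e => hαV i (by rw [e]; exact hV1 z hz)
    have e5 := hαs i _ (hV1 z hz) _ (hV0 z hz) e4 (by linarith) e1 e2
    linarith
  have hnr2 : ∀ i, ∀ z ∈ W, α i < f z → f z < α (i + 1) → α (i + 1) < f z + 1 / 8 := by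
    intro i z hz e1 e2
    by_contra e3
    rw [not_lt] at e3
    have e4 : f z + 1 / 8 < α (i + 1) :=
      lt_of_le_of_ne e3 fun e => hαV (i + 1) (by rw [← e]; exact hV2 z hz)
    have e5 := hαs i _ (hV2 z hz) _ (hV0 z hz) (by linarith) e4 e1 e2
    linarith
  have hin : ∀ z ∈ W, ∃ i < M₀, α i < f z ∧ f z < α (i + 1) := by
    intro z hz
    have e1 := hB2 z (hWc z hz)
    exact Core_find α (f z) (fun i => (hαf i z hz).symm) M₀
      ((hα₀ (α 0) hα0).1 z e1.1.le e1.2.le) ((hβ₀ (α M₀) hαM).1 z e1.1.le e1.2.le)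
  obtain ⟨z₀, hz₀, hz₀T, hz₀I, rfl⟩ := hvI
  obtain ⟨i₀, hi₀M, hi₀1, hi₀2⟩ := hin z₀ hz₀
  -- the shifts of the levels
  have hsh : ∀ i, ∃ c', c i < c' ∧ c' < c i + 1 / 8 ∧ ∀ i' ≤ M₀, ∀ z ∈ W' i,
      f' i z ≠ α i' - c' ∧ f' i z ≠ α i' + c' := by
    intro i
    obtain ⟨c', e1, e2, e3⟩ := Core_shift α M₀ ((W' i).image (f' i)) (c i)
    exact ⟨c', e1, e2, fun i' hi' z hz => e3 i' hi' _ (Finset.mem_image_of_mem _ hz)⟩
  choose c' hc1 hc2 hc3 using hsh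
  -- fine meshes
  have hev1 : ∀ᶠ M : ℕ in atTop, ∀ i ∈ Finset.range M₀, ∀ j,
      (∀ z ∈ W.filter fun z => α i < f z ∧ f z < α (i + 1),
        ¬ (sigNeg (hess f z) ≤ j ∧ j + sigPos (hess f z) ≤ Fintype.card (Iz n (p * N)))) →
      HR (ZMod p) (lam (Lc n (p * N)) (2 ^ M))
        (Lv (qK n (p * N)) (QK n (p * N)) f R R (α (i + 1)) (2 ^ M))
        (Lv (qK n (p * N)) (QK n (p * N)) f R R (α i) (2 ^ M)) j 0 :=
    (Filter.eventually_all_finset _).2 fun i _ => window_out (ZMod p)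
      (Core_band hR hf hfp h.grad h.crit h.inj (hmono (Nat.lt_succ_self i)) (hαf i) (hαf (i + 1)))
  have hev2 : ∀ᶠ M : ℕ in atTop, ∀ i ∈ Finset.range M₀,
      (∀ z ∈ W, z ∘ shp n p N = z → α i < f z → f z < α (i + 1) → False) →
      ∀ j, HR (ZMod p) (lam (Lc n N) (2 ^ M))
        (fo (shs n p N) (Lv (qK n (p * N)) (QK n (p * N)) f R R (α (i + 1)) (2 ^ M)))
        (fo (shs n p N) (Lv (qK n (p * N)) (QK n (p * N)) f R R (α i) (2 ^ M))) j 0 := by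
    refine (Filter.eventually_all_finset _).2 fun i _ => ?_
    by_cases hPi : ∀ z ∈ W, z ∘ shp n p N = z → α i < f z → f z < α (i + 1) → False
    · filter_upwards [window_out (ZMod p) (Core_fold h hR' (hmono (Nat.lt_succ_self i)) (hαf i)
        (hαf (i + 1)) hPi)] with M hM _ j
      rw [EqM_fo_Lv, EqM_fo_Lv]
      exact hM j fun z hz => absurd hz (Finset.notMem_empty z)
    · exact Filter.Eventually.of_forall fun M h => absurd h hPi
  have hev4 : ∀ᶠ M : ℕ in atTop, ∀ i ∈ I, ∀ i' ∈ Finset.range M₀, ∀ j,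
      (∀ z ∈ (W' i).filter fun z => α i' - c' i < f' i z ∧ f' i z < α (i' + 1) + c' i,
        ¬ (sigNeg (hess (f' i) z) ≤ j ∧
          j + sigPos (hess (f' i) z) ≤ Fintype.card (Iz n (p * N)))) →
      HR (ZMod p) (lam (Lc n (p * N)) (2 ^ M))
        (Lv (qK n (p * N)) (QK n (p * N)) (f' i) R R (α (i' + 1) + c' i) (2 ^ M))
        (Lv (qK n (p * N)) (QK n (p * N)) (f' i) R R (α i' - c' i) (2 ^ M)) j 0 := by
    refine (Filter.eventually_all_finset _).2 fun i hi =>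
      (Filter.eventually_all_finset _).2 fun i' hi' => ?_
    have hi'' : i' < M₀ := Finset.mem_range.1 hi'
    have e0 : 0 ≤ c i := (abs_nonneg _).trans (hc i hi 0)
    exact window_out (ZMod p) (Core_band hR (hsm i hi) (hper i hi) (hgr i hi) (hcr i hi) (hij i hi)
      (by
        have e1 := hmono (Nat.lt_succ_self i')
        have e2 := hc1 i
        have e3 : α i' < α (i' + 1) := e1
        linarith) (fun z hz => (hc3 i i' hi''.le z hz).1)
      (fun z hz => (hc3 i (i' + 1) hi'' z hz).2))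
  have hfr := hna (α i₀) (α (i₀ + 1)) hi₀1 hi₀2 (by
    intro y e1 e2 e3
    obtain ⟨z, hz, l, hl, hy⟩ := (h.crit _).1 e1
    have e4 : f (y ∘ shs n p N) = f z := by rw [hy, hfp l hl z]
    rw [e4] at e2 e3 ⊢
    exact (hsame i₀ z hz z₀ hz₀ (lt_of_le_of_ne e2 (hαf i₀ z hz).symm)
      (lt_of_le_of_ne e3 (hαf (i₀ + 1) z hz)) hi₀1 hi₀2))
  obtain ⟨j₀, hfr⟩ := hfr
  obtain ⟨M, hMn, ⟨⟨⟨hM1, hM2⟩, hM3⟩, hM4⟩, hM5⟩ := (hfr.and_eventually
    ((((hev1.and hev2).and (hb3 R hRc R hRc)).and hev4).and (eventually_ge_atTop 1))).exists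
  have hm2 : 2 ≤ 2 ^ M := by
    calc 2 = 2 ^ 1 := rfl
      _ ≤ 2 ^ M := Nat.pow_le_pow_right (by norm_num) hM5
  have hm0 : 0 < 2 ^ M := by omega
  have hA0 : Lv (qK n (p * N)) (QK n (p * N)) f R R (α 0) (2 ^ M) =
      Am (qK n (p * N)) (QK n (p * N)) R R (2 ^ M) := (hα₀ (α 0) hα0).2 _
  have hAM : Lv (qK n (p * N)) (QK n (p * N)) f R R (α M₀) (2 ^ M) =
      Xm (qK n (p * N)) R (2 ^ M) := (hβ₀ (α M₀) hαM).2 _
  -- the filtered complex
  set X : Set (Iz n (p * N) → ℤ) := Xm (qK n (p * N)) R (2 ^ M) with hXdef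
  set A : ℕ → Set (Iz n (p * N) → ℤ) :=
    fun i => Lv (qK n (p * N)) (QK n (p * N)) f R R (α i) (2 ^ M) with hAdef
  have hAmono : ∀ i, A i ⊆ A (i + 1) := fun i =>
    Lv_mono _ _ _ _ _ (hmono.monotone (Nat.le_succ i)) _
  have hAX : ∀ i, A i ⊆ X := fun i w hw => hw.1
  have hXL : Inv (lam (Lc n (p * N)) (2 ^ M)) X := Xm_inv hD.qp R hm0
  have hAL : ∀ i, Inv (lam (Lc n (p * N)) (2 ^ M)) (A i) := fun i =>
    Lv_inv hD.qp hD.Qp hfp R R (α i) hm0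
  have hAπ : ∀ i, PInv (shp n p N) (A i) := fun i => EqM_PInv h.inv R R (α i) (2 ^ M)
  have hXπ : PInv (shp n p N) X := by
    rw [← hAM]
    exact hAπ M₀
  have hcy := Cyc_K (n := n) (N := N) hp hm2
  have hfo := Fold_K (n := n) (p := p) (N := N) (m := 2 ^ M)
  have hops := Cyc_ops hcy hXπ
  set Fi : ℕ → ℕ → Submodule (ZMod p) (Co (Iz n (p * N)) (ZMod p)) :=
    fun i => co (F := ZMod p) (lam (Lc n (p * N)) (2 ^ M)) X (A i) with hFi
  have hsub : ∀ i, Sub (dX (F := ZMod p) X) (ta (ZMod p) (shp n p N)) (nu (ZMod p) (shp n p N) p)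
      (Fi i) := fun i => Cyc_sub hcy hXπ (hAπ i) hXL
  have hFmono : ∀ i j, Fi (i + 1) j ≤ Fi i j := fun i j => co_anti (hAmono i) j
  have hrel : ∀ i j, HR (ZMod p) (lam (Lc n (p * N)) (2 ^ M)) (A (i + 1)) (A i) j 0 →
      HK (dX (F := ZMod p) X) (Fi i) (Fi (i + 1)) (j + 1) 0 := fun i j hj =>
    HR.rel hXL (hAL (i + 1)) (hAmono i) (hAX (i + 1)) hj
  have hbot : Fi M₀ = fun _ => ⊥ := by
    funext j
    have e : A M₀ = X := hAM
    change co (F := ZMod p) (lam (Lc n (p * N)) (2 ^ M)) X (A M₀) j = ⊥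
    rw [e]
    exact co_self _ _ j
  -- dead levels
  have hd0 : ∀ j, G₁ < j → j ≤ G₂ → HK (dX (F := ZMod p) X) (Fi 0) (fun _ => ⊥) j 0 := by
    intro j e1 e2
    obtain ⟨j, rfl⟩ : ∃ j', j = j' + 1 := ⟨j - 1, by omega⟩
    have e3 : HR (ZMod p) (lam (Lc n (p * N)) (2 ^ M)) X (A 0) j 0 := by
      have e4 : A 0 = Am (qK n (p * N)) (QK n (p * N)) R R (2 ^ M) := hA0
      rw [e4]
      exact hM3 j (by omega)
    have e5 := HR.rel hXL hXL (hAX 0) (Set.Subset.refl X) e3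
    have e6 : (fun j => co (F := ZMod p) (lam (Lc n (p * N)) (2 ^ M)) X X j) = fun _ => ⊥ :=
      funext fun j => co_self _ X j
    have e7 : co (F := ZMod p) (lam (Lc n (p * N)) (2 ^ M)) X X = fun _ => ⊥ := e6
    rwa [e7] at e5
  have hdM : ∀ j, G₁ < j → j ≤ G₂ → HK (dX (F := ZMod p) X) (Fi M₀) (fun _ => ⊥) j 0 := by
    intro j _ _
    rw [hbot, Chain_HK_iff]
    intro x hx _
    exact ⟨0, Submodule.zero_mem _, by rw [map_zero, sub_zero]; exact hx⟩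
  -- bands without values of class I
  have hout : ∀ i < M₀, (∀ z ∈ W, ClI G₁ G₂ f z → α i < f z → f z < α (i + 1) → False) →
      ∀ j, G₁ ≤ j → j ≤ G₂ → HK (dX (F := ZMod p) X) (Fi i) (Fi (i + 1)) j 0 := by
    intro i hi hno j e1 e2
    cases j with
    | zero => exact Loc_HK_zero _ _
    | succ j =>
      refine hrel i j (hM1 i (Finset.mem_range.2 hi) j ?_)
      intro z hz
      obtain ⟨hz1, hz2, hz3⟩ := Finset.mem_filter.1 hz
      have h5 : ¬ ClI G₁ G₂ f z := fun h => hno z hz1 h hz2 hz3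
      have h6 := h.win z hz1 G₂ (Or.inr rfl)
      have h7 := h.win z hz1 G₁ (Or.inl rfl)
      unfold ClI at h5
      omega
  -- bands with values of class I
  have hall : ∀ i, ∀ z ∈ W, ClI G₁ G₂ f z → α i < f z → f z < α (i + 1) →
      ∀ z' ∈ W, α i < f z' → f z' < α (i + 1) → ClI G₁ G₂ f z' := by
    intro i z hz hzI e1 e2 z' hz' e3 e4
    by_contra hcon
    exact hsep z hz z' hz' hzI hcon (hsame i z hz z' hz' e1 e2 e3 e4)
  have hinb : ∀ i < M₀, (∃ z ∈ W, ClI G₁ G₂ f z ∧ α i < f z ∧ f z < α (i + 1)) →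
      ∀ j, (j ≤ G₁ ∨ G₂ ≤ j) → HK (dX (F := ZMod p) X) (Fi i) (Fi (i + 1)) j 0 := by
    rintro i hi ⟨z₁, hz₁, e1, e2, e3⟩ j hj
    cases j with
    | zero => exact Loc_HK_zero _ _
    | succ j =>
      refine hrel i j (hM1 i (Finset.mem_range.2 hi) j ?_)
      intro z hz
      obtain ⟨hz1, hz2, hz3⟩ := Finset.mem_filter.1 hz
      have h5 := hall i z₁ hz₁ e1 e2 e3 z hz1 hz2 hz3
      have h6 := h.win z hz1 G₂ (Or.inr rfl)
      unfold ClI at h5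
      omega
  -- the gap
  obtain ⟨a, b, hab, hbM, ⟨za, hza, hzaT, hzaI, hza1, hza2⟩, ⟨zb, hzb, hzbT, hzbI, hzb1, hzb2⟩,
      hor, halive⟩ := Core_gap hops Fi hsub hFmono (Fintype.card (Iz n (p * N)) + 2)
    (fun j hj => co_big _ _ _ (by omega)) h12 M₀ i₀ hi₀M hd0 hdM
    (fun i => ∃ z ∈ W, z ∘ shp n p N = z ∧ ClI G₁ G₂ f z ∧ α i < f z ∧ f z < α (i + 1))
    (fun i hi hno => by
      by_cases hPi : ∃ z ∈ W, ClI G₁ G₂ f z ∧ α i < f z ∧ f z < α (i + 1)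
      · right
        refine ⟨hinb i hi hPi, fun k => ?_⟩
        obtain ⟨z₁, hz₁, e1, e2, e3⟩ := hPi
        have e4 := hM2 i (Finset.mem_range.2 hi) (fun z hz hzT e5 e6 =>
          hno ⟨z, hz, hzT, hall i z₁ hz₁ e1 e2 e3 z hz e5 e6, e5, e6⟩)
        have e5 := loc_band hcy hfo hXπ (hAπ i) (hAπ (i + 1)) hXL (hAL i) (hAL (i + 1))
          (hAmono i) (hAX (i + 1)) (fun _ => 0) e4 k
        rwa [Finset.sum_const_zero] at e5
      · left
        exact hout i hi fun z hz e1 e2 e3 => hPi ⟨z, hz, e1, e2, e3⟩)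
    ⟨z₀, hz₀, hz₀T, hz₀I, hi₀1, hi₀2⟩
    (hinb i₀ hi₀M ⟨z₀, hz₀, hz₀I, hi₀1, hi₀2⟩)
    (fun htk => hMn (by
      have e1 := fixed_zero hcy hfo hXπ (hAπ i₀) (hAπ (i₀ + 1)) hXL (hAL i₀) (hAL (i₀ + 1))
        (hAmono i₀) (hAX (i₀ + 1)) htk j₀
      have e2 : fo (shs n p N) (A (i₀ + 1)) = _ := EqM_fo_Lv f R R (α (i₀ + 1)) (2 ^ M)
      have e3 : fo (shs n p N) (A i₀) = _ := EqM_fo_Lv f R R (α i₀) (2 ^ M)
      rw [e2, e3] at e1
      exact e1))
  -- the chain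
  obtain ⟨r, s, hr, hs0, hsr, hs, hDs⟩ := exists_chain Fi hFmono hd0 (a + 1) b hab halive
  have hsb : ∀ k ≤ r, s k ≤ b := by
    intro k
    induction k with
    | zero => intro _; rw [hs0]
    | succ k ih =>
      intro hk
      exact (hs k (by omega)).2.le.trans (ih (by omega))
  have hFle : ∀ i i' j, i ≤ i' → Fi i' j ≤ Fi i j := by
    intro i i' j hii
    induction i', hii using Nat.le_induction with
    | base => exact le_rfl
    | succ i' _ ih => exact (hFmono i' j).trans ih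
  have hval : ∀ k, ∃ x : ℝ, k < r → ∃ z ∈ W, ClI G₁ G₂ f z ∧ f z = x ∧ α (s (k + 1)) < x ∧
      x < α (s (k + 1) + 1) := by
    intro k
    by_cases hk : k < r
    swap
    · exact ⟨0, fun h => absurd h hk⟩
    by_contra hcon
    push Not at hcon
    obtain ⟨j, hj1, hj2, hj3⟩ := (hDs k hk).stable (dX_dX X) (Fi (s (k + 1)))
      (Fi (s (k + 1) + 1)) (fun j => le_rfl)
      (fun j => hFle _ _ j (hs k hk).2) (fun j => le_rfl)
    refine hj3 (hout (s (k + 1)) ((hsb (k + 1) hk).trans_lt hbM) ?_ j hj1 hj2.le)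
    intro z hz e1 e2 e3
    have e4 := (hcon (f z)).2 z hz e1 rfl e2
    linarith
  choose x hx using hval
  obtain ⟨d, hd0', hds⟩ : ∃ d : ℕ → ℝ, d 0 = f zb ∧ ∀ k, d (k + 1) = x k :=
    ⟨fun k => Nat.casesOn k (f zb) x, rfl, fun _ => rfl⟩
  have hdlo : ∀ k ≤ r, α (s k) < d k := by
    intro k hk
    cases k with
    | zero => rw [hs0, hd0']; exact hzb1
    | succ k =>
      obtain ⟨z, _, _, _, e1, _⟩ := hx k hk
      rw [hds]
      exact e1
  have hdhi : ∀ k ≤ r, d k < α (s k + 1) := by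
    intro k hk
    cases k with
    | zero => rw [hs0, hd0']; exact hzb2
    | succ k =>
      obtain ⟨z, _, _, _, _, e1⟩ := hx k hk
      rw [hds]
      exact e1
  have hdW : ∀ k ≤ r, ∃ z ∈ W, f z = d k := by
    intro k hk
    cases k with
    | zero => exact ⟨zb, hzb, hd0'.symm⟩
    | succ k =>
      obtain ⟨z, hz, _, e, _, _⟩ := hx k hk
      exact ⟨z, hz, by rw [hds]; exact e⟩
  refine ⟨r, d, ?_, ?_, ?_, ?_⟩
  · intro k hk
    have e1 := hdhi (k + 1) hk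
    have e2 := hdlo k hk.le
    have e3 : α (s (k + 1) + 1) ≤ α (s k) := hmono.monotone (hs k hk).2
    linarith
  · -- the length of the gap
    have e1 : d r ≤ f za := by
      rcases Nat.lt_or_ge (s r) a with e2 | e2
      · have e3 : α (s r + 1) ≤ α a := hmono.monotone e2
        have e4 := hdhi r le_rfl
        linarith
      · have e3 : s r = a := by omega
        obtain ⟨z, hz, e4⟩ := hdW r le_rfl
        have e5 := hdlo r le_rfl
        have e6 := hdhi r le_rfl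
        rw [e3] at e5 e6
        rw [← e4] at e5 e6 ⊢
        exact (hsame a z hz za hza e5 e6 hza1 hza2).le
    have e2 : f za < f zb := by
      have e3 : α (a + 1) ≤ α b := hmono.monotone hab
      linarith
    have e3 : κ ≤ f zb - f za := by
      rcases hor with rfl | rfl
      · have e4 := hsame a za hza z₀ hz₀ hza1 hza2 hi₀1 hi₀2
        have e5 := hκ zb hzb hzbT hzbI (by rw [← e4]; exact e2.ne')
        rw [← e4, abs_of_pos (sub_pos.2 e2)] at e5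
        exact e5
      · have e4 := hsame b zb hzb z₀ hz₀ hzb1 hzb2 hi₀1 hi₀2
        have e5 := hκ za hza hzaT hzaI (by rw [← e4]; exact e2.ne)
        rw [← e4, abs_of_neg (sub_neg.2 e2)] at e5
        linarith
    rw [hd0']
    linarith
  · intro k hk
    obtain ⟨z, hz, e1, e2, _, _⟩ := hx k hk
    exact ⟨z, hz, e1, by rw [hds]; exact e2⟩
  · -- comparison
    intro i hi k hk hlen
    have hck := hc i hi
    have hs1 : s (k + 1) < M₀ := (hsb (k + 1) hk).trans_lt hbM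
    -- the band `s (k + 1)` is short
    have e1 : d (k + 1) - 1 / 8 < α (s (k + 1)) := by
      obtain ⟨z, hz, e⟩ := hdW (k + 1) hk
      rw [← e]
      exact hnr1 _ z hz (by rw [e]; exact hdlo (k + 1) hk) (by rw [e]; exact hdhi (k + 1) hk)
    have e2 : α (s (k + 1) + 1) < d (k + 1) + 1 / 8 := by
      obtain ⟨z, hz, e⟩ := hdW (k + 1) hk
      rw [← e]
      exact hnr2 _ z hz (by rw [e]; exact hdlo (k + 1) hk) (by rw [e]; exact hdhi (k + 1) hk)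
    have e3 : d k - 1 / 8 < α (s k) := by
      obtain ⟨z, hz, e⟩ := hdW k hk.le
      rw [← e]
      exact hnr1 _ z hz (by rw [e]; exact hdlo k hk.le) (by rw [e]; exact hdhi k hk.le)
    have e4 := hc1 i
    have e5 := hc2 i
    have hS1 : Lv (qK n (p * N)) (QK n (p * N)) (f' i) R R (α (s (k + 1)) - c' i) (2 ^ M) ⊆
        A (s (k + 1)) := by
      rintro w ⟨hw1, hw2⟩
      refine ⟨hw1, hw2.imp id fun e => ?_⟩
      have e6 := abs_le.1 (hck (ps (2 ^ M) w))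
      linarith
    have hS2 : Lv (qK n (p * N)) (QK n (p * N)) (f' i) R R (α (s (k + 1) + 1) + c' i) (2 ^ M) ⊆
        A (s k) := by
      rintro w ⟨hw1, hw2⟩
      refine ⟨hw1, hw2.imp id fun e => ?_⟩
      have e6 := abs_le.1 (hck (ps (2 ^ M) w))
      linarith
    have hS3 : A (s (k + 1) + 1) ⊆
        Lv (qK n (p * N)) (QK n (p * N)) (f' i) R R (α (s (k + 1) + 1) + c' i) (2 ^ M) := by
      rintro w ⟨hw1, hw2⟩
      refine ⟨hw1, hw2.imp id fun e => ?_⟩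
      have e6 := abs_le.1 (hck (ps (2 ^ M) w))
      linarith
    obtain ⟨j, hj1, hj2, hj3⟩ := (hDs k hk).stable (dX_dX X)
      (co (F := ZMod p) (lam (Lc n (p * N)) (2 ^ M)) X
        (Lv (qK n (p * N)) (QK n (p * N)) (f' i) R R (α (s (k + 1)) - c' i) (2 ^ M)))
      (co (F := ZMod p) (lam (Lc n (p * N)) (2 ^ M)) X
        (Lv (qK n (p * N)) (QK n (p * N)) (f' i) R R (α (s (k + 1) + 1) + c' i) (2 ^ M)))
      (fun j => co_anti hS1 j) (fun j => co_anti hS2 j) (fun j => co_anti hS3 j)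
    by_contra hcon
    push Not at hcon
    refine hj3 ?_
    cases j with
    | zero => exact Loc_HK_zero _ _
    | succ j =>
      refine HR.rel hXL (Lv_inv hD.qp hD.Qp (hper i hi) R R _ hm0) (Lv_mono _ _ _ _ _ (by
        have e6 : α (s (k + 1)) < α (s (k + 1) + 1) := hmono (Nat.lt_succ_self _)
        have e7 : 0 ≤ c i := (abs_nonneg _).trans (hck 0)
        linarith) _) (fun w hw => hw.1)
        (hM4 i hi (s (k + 1)) (Finset.mem_range.2 hs1) j ?_)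
      intro y hy
      obtain ⟨hy1, hy2, hy3⟩ := Finset.mem_filter.1 hy
      rintro ⟨e6, e7⟩
      have e8 := hcon y hy1 (by
        rw [abs_le]
        constructor <;> linarith) j hj1 (by omega) e6
      omega

end Pool.Agent.H75.TH
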