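import Pool.Agent.H75.TH.Good

/-!
# The double counting argument (exponent `3/2`)
-/

set_option autoImplicit false

open Filter Topology

namespace Pool.Agent.H75.TH

theorem count_one_le_log {x : ℝ} (hx : 5 ≤ x) : 1 ≤ Real.log x := by
  rw [Real.le_log_iff_exp_le (by linarith)]
  have := Real.exp_one_lt_d9
  linarith

/-- `c * x` is small compared to `(x / log x) ^ (3 / 2)` -/
theorem count_lin_small (c s : ℝ) (hs : 0 < s) : ∀ᶠ M : ℕ in atTop,
    c * (M : ℝ) ≤ s * ((M : ℝ) / Real.log M) ^ (3 / 2 : ℝ) := by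
  have h0 : (fun x : ℝ => Real.log x ^ (3 / 2 : ℝ)) =o[atTop] (fun x : ℝ => x ^ (1 / 2 : ℝ)) :=
    isLittleO_log_rpow_rpow_atTop (3 / 2) (by norm_num)
  have h1 := (h0.def (c := s / (|c| + 1)) (by positivity))
  filter_upwards [tendsto_natCast_atTop_atTop.eventually h1, eventually_ge_atTop 5] with M h2 h3
  have hM : (5 : ℝ) ≤ M := by exact_mod_cast h3
  have hM0 : (0 : ℝ) < M := by linarith
  have hL := count_one_le_log hM
  have hL0 : 0 < Real.log M := by linarith
  have a1 : 0 ≤ Real.log (M : ℝ) ^ (3 / 2 : ℝ) := Real.rpow_nonneg hL0.le _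
  have a2 : 0 ≤ (M : ℝ) ^ (1 / 2 : ℝ) := Real.rpow_nonneg hM0.le _
  rw [Real.norm_of_nonneg a1, Real.norm_of_nonneg a2] at h2
  rw [Real.div_rpow hM0.le hL0.le]
  have e1 : (M : ℝ) ^ (3 / 2 : ℝ) = M * (M : ℝ) ^ (1 / 2 : ℝ) := by
    rw [show (3 / 2 : ℝ) = 1 + 1 / 2 by norm_num, Real.rpow_add hM0, Real.rpow_one]
  have hpos : 0 < Real.log M ^ (3 / 2 : ℝ) := by positivity
  rw [e1, mul_div_assoc', le_div_iff₀ hpos]
  have h4 : (|c| + 1) * Real.log M ^ (3 / 2 : ℝ) ≤ s * (M : ℝ) ^ (1 / 2 : ℝ) := by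
    have h5 := mul_le_mul_of_nonneg_left h2 (show 0 ≤ |c| + 1 by positivity)
    refine h5.trans (le_of_eq ?_)
    have : |c| + 1 ≠ 0 := by positivity
    field_simp
  have h6 : c * Real.log M ^ (3 / 2 : ℝ) ≤ (|c| + 1) * Real.log M ^ (3 / 2 : ℝ) := by
    refine mul_le_mul_of_nonneg_right ?_ hpos.le
    linarith [le_abs_self c]
  calc c * (M : ℝ) * Real.log M ^ (3 / 2 : ℝ) = M * (c * Real.log M ^ (3 / 2 : ℝ)) := by ring
    _ ≤ M * (s * (M : ℝ) ^ (1 / 2 : ℝ)) := mul_le_mul_of_nonneg_left (h6.trans h4) hM0.le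
    _ = s * (M * (M : ℝ) ^ (1 / 2 : ℝ)) := by ring

/-- sum of minima -/
theorem count_sum_min {κ : Type*} (B : Finset κ) (f : κ → ℝ) (hf : ∀ k ∈ B, 0 ≤ f k) (x : ℝ)
    (hx : 0 ≤ x) : min (∑ k ∈ B, f k) x ≤ ∑ k ∈ B, min (f k) x := by
  classical
  by_cases h : ∃ k ∈ B, x ≤ f k
  · obtain ⟨k, hk, hkx⟩ := h
    refine (min_le_right _ _).trans ?_
    calc x = min (f k) x := (min_eq_right hkx).symm
      _ ≤ ∑ k ∈ B, min (f k) x :=
        Finset.single_le_sum (f := fun k => min (f k) x)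
          (fun j hj => le_min (hf j hj) hx) hk
  · have h' : ∀ k ∈ B, f k < x := fun k hk => by
      by_contra hcon
      exact h ⟨k, hk, not_lt.1 hcon⟩
    refine (min_le_left _ _).trans (le_of_eq ?_)
    exact Finset.sum_congr rfl fun k hk => (min_eq_left (h' k hk).le).symm

/-- the primes up to `x` -/
def cpr (x : ℕ) : Finset ℕ := (Finset.range (x + 1)).filter Nat.Prime

theorem mem_cpr {x m : ℕ} : m ∈ cpr x ↔ m ≤ x ∧ m.Prime := by
  unfold cpr
  rw [Finset.mem_filter, Finset.mem_range, Nat.lt_succ_iff]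

/-- good primes with few orbits -/
theorem count_good : ∀ᶠ x : ℕ in atTop, ∀ (ν : ℕ → ℕ) (X : ℝ), 0 < X →
    ((∑ m ∈ cpr x, ν m : ℕ) : ℝ) ≤ X * (x / (16 * Real.log x)) →
    ∃ G : Finset ℕ, (∀ p ∈ G, p.Prime ∧ p ≤ x ∧ (x : ℝ) / 4 < p) ∧
      (x : ℝ) / (8 * Real.log x) ≤ (G.card : ℝ) ∧ ∀ p ∈ G,
      (ν p : ℝ) ≤ X ∧ ¬ Bad {m | m.Prime} (1 / (16 * Real.log x)) p := by
  classical
  filter_upwards [many_primes, eventually_ge_atTop 5] with x h1 h2
  intro ν X hX hs
  have hM : (5 : ℝ) ≤ x := by exact_mod_cast h2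
  have hlog : 0 < Real.log x := Real.log_pos (by linarith)
  set δ : ℝ := 1 / (16 * Real.log x) with hδ
  have hδ0 : 0 < δ := by positivity
  set S := (Finset.range (x + 1)).filter (fun p : ℕ => p.Prime ∧ (x : ℝ) / 4 < p) with hS
  have hSm : ∀ p, p ∈ S ↔ p.Prime ∧ p ≤ x ∧ (x : ℝ) / 4 < p := by
    intro p
    rw [hS, Finset.mem_filter, Finset.mem_range, Nat.lt_succ_iff]
    tauto
  set Lg := S.filter (fun p => X < (ν p : ℝ)) with hLg
  set Bd := S.filter (fun p => Bad {m | m.Prime} δ p) with hBd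
  set G := S.filter (fun p => p ∉ Lg ∧ p ∉ Bd) with hG
  -- the large ones
  have hL : (Lg.card : ℝ) ≤ x / (16 * Real.log x) := by
    have e1 : (Lg.card : ℝ) * X ≤ ((∑ m ∈ cpr x, ν m : ℕ) : ℝ) := by
      rw [Nat.cast_sum]
      calc (Lg.card : ℝ) * X = ∑ _m ∈ Lg, X := by rw [Finset.sum_const, nsmul_eq_mul]
        _ ≤ ∑ m ∈ Lg, (ν m : ℝ) := by
            refine Finset.sum_le_sum fun m hm => ?_
            rw [hLg, Finset.mem_filter] at hm
            exact hm.2.le
        _ ≤ ∑ m ∈ cpr x, (ν m : ℝ) := by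
            refine Finset.sum_le_sum_of_subset_of_nonneg ?_ fun m _ _ => Nat.cast_nonneg _
            intro m hm
            rw [hLg, Finset.mem_filter, hSm] at hm
            exact mem_cpr.2 ⟨hm.1.2.1, hm.1.1⟩
    have e2 : (Lg.card : ℝ) * X ≤ (x / (16 * Real.log x)) * X := by
      refine (e1.trans hs).trans (le_of_eq ?_)
      ring
    exact le_of_mul_le_mul_right e2 hX
  -- the bad ones
  have hB : (Bd.card : ℝ) ≤ x / (16 * Real.log x) := by
    have e1 := bad_card {m | m.Prime} δ hδ0.le x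
    have e3 : δ * (x : ℝ) = x / (16 * Real.log x) := by
      rw [hδ]
      ring
    rw [← e3]
    refine le_trans (Nat.cast_le.2 (Finset.card_le_card ?_)) e1
    intro p hp
    rw [hBd, Finset.mem_filter, hSm] at hp
    simp only [Finset.mem_filter, Finset.mem_range, Nat.lt_succ_iff]
    exact ⟨hp.1.2.1, hp.1.1, hp.2⟩
  refine ⟨G, ?_, ?_, ?_⟩
  · intro p hp
    rw [hG, Finset.mem_filter, hSm] at hp
    exact hp.1
  · have e3 : S ⊆ G ∪ (Lg ∪ Bd) := by
      intro p hp
      rw [Finset.mem_union, Finset.mem_union]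
      by_cases ha : p ∈ Lg
      · exact Or.inr (Or.inl ha)
      by_cases hb : p ∈ Bd
      · exact Or.inr (Or.inr hb)
      left
      rw [hG, Finset.mem_filter]
      exact ⟨hp, ha, hb⟩
    have e4 : (S.card : ℝ) ≤ G.card + (Lg.card + Bd.card) := by
      have e5 := (Finset.card_le_card e3).trans (Finset.card_union_le _ _)
      have e6 := Finset.card_union_le Lg Bd
      exact_mod_cast e5.trans (Nat.add_le_add_left e6 _)
    have e7 : (x : ℝ) / (4 * Real.log x) = x / (8 * Real.log x) + (x / (16 * Real.log x) +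
        x / (16 * Real.log x)) := by
      field_simp
      ring
    rw [e7] at h1
    linarith
  · intro p hp
    rw [hG, Finset.mem_filter] at hp
    obtain ⟨hpS, hp1, hp2⟩ := hp
    refine ⟨?_, ?_⟩
    · by_contra hcon
      exact hp1 (by rw [hLg, Finset.mem_filter]; exact ⟨hpS, not_le.1 hcon⟩)
    · intro hcon
      exact hp2 (by rw [hBd, Finset.mem_filter]; exact ⟨hpS, hcon⟩)

open scoped Classical in
/-- the bars of a good prime -/
theorem count_bars (δ C S : ℝ) (hδ : 0 < δ) (hC : 0 < C) (p : ℕ) (hp : 0 < p)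
    (hgood : ¬ Bad {m | m.Prime} δ p) (r : ℕ) (l : Fin r → ℝ) (hl : ∀ k, 0 ≤ l k)
    (hS : S ≤ ∑ k, l k) :
    δ * min (S / C) p ≤ ∑ m ∈ cpr p,
      ((Finset.univ.filter (fun k => C * ((p : ℝ) - m) < l k)).card : ℝ) := by
  have hp0 : (0 : ℝ) < p := by exact_mod_cast hp
  have e0 : ∑ m ∈ cpr p, ((Finset.univ.filter (fun k => C * ((p : ℝ) - m) < l k)).card : ℝ) =
      ∑ k, (((cpr p).filter (fun m : ℕ => C * ((p : ℝ) - m) < l k)).card : ℝ) := by
    have : ∑ m ∈ cpr p, (Finset.univ.filter (fun k => C * ((p : ℝ) - m) < l k)).card =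
        ∑ k, ((cpr p).filter (fun m : ℕ => C * ((p : ℝ) - m) < l k)).card := by
      simp_rw [Finset.card_filter]
      exact Finset.sum_comm
    exact_mod_cast this
  rw [e0]
  have e1 : ∀ k ∈ (Finset.univ : Finset (Fin r)), δ * min (l k / C) p ≤
      (((cpr p).filter (fun m : ℕ => C * ((p : ℝ) - m) < l k)).card : ℝ) := by
    intro k _
    rcases (hl k).eq_or_lt with h0 | h0
    · rw [← h0, zero_div, min_eq_left hp0.le, mul_zero]
      exact Nat.cast_nonneg _
    set ρ : ℝ := min (l k / C) p with hρ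
    have hρ0 : 0 < ρ := lt_min (by positivity) hp0
    have hρM : ρ ≤ p := min_le_right _ _
    have h1 : δ * ρ ≤ ((below {m | m.Prime} p ρ).card : ℝ) := by
      by_contra hcon
      exact hgood ⟨ρ, hρ0, hρM, not_le.1 hcon⟩
    refine h1.trans (Nat.cast_le.2 (Finset.card_le_card ?_))
    intro m hm
    unfold below at hm
    simp only [Finset.mem_filter, Finset.mem_range, Nat.lt_succ_iff, Set.mem_ofPred_eq] at hm
    rw [Finset.mem_filter, mem_cpr]
    refine ⟨⟨hm.1, hm.2.1⟩, ?_⟩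
    have h4 : (p : ℝ) - m < l k / C := by
      have := min_le_left (l k / C) (p : ℝ)
      rw [← hρ] at this
      linarith [hm.2.2]
    rw [lt_div_iff₀ hC] at h4
    linarith
  refine le_trans ?_ (Finset.sum_le_sum e1)
  rw [← Finset.mul_sum]
  refine mul_le_mul_of_nonneg_left ?_ hδ.le
  refine le_trans ?_ (count_sum_min Finset.univ (fun k => l k / C)
    (fun k _ => div_nonneg (hl k) hC.le) p hp0.le)
  refine min_le_min ?_ le_rfl
  rw [← Finset.sum_div]
  exact div_le_div_of_nonneg_right hS hC.le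

open scoped Classical in
/-- each orbit is counted at most once -/
theorem count_once {α : Type*} (O : ℕ → Finset α) (idx : ℕ → α → ℝ) (t w : ℝ) (x D : ℕ)
    (hD : 2 * w < D * |t|) (P : Finset ℕ) (hPM : ∀ p ∈ P, p ≤ x)
    (hsep : ∀ p ∈ P, ∀ q ∈ P, p < q → p + D ≤ q) :
    ∑ p ∈ P, ∑ m ∈ cpr p, ((O m).filter (fun z => |idx m z - p * t| ≤ w)).card ≤
      ∑ m ∈ cpr x, (O m).card := by
  have hU : ∀ p ∈ P, ∑ m ∈ cpr p,
      ((O m).filter (fun z => |idx m z - p * t| ≤ w)).card ≤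
      ∑ m ∈ cpr x, ((O m).filter (fun z => |idx m z - p * t| ≤ w)).card := by
    intro p hp
    refine Finset.sum_le_sum_of_subset ?_
    intro m hm
    rw [mem_cpr] at hm ⊢
    exact ⟨hm.1.trans (hPM p hp), hm.2⟩
  refine (Finset.sum_le_sum hU).trans ?_
  rw [Finset.sum_comm]
  refine Finset.sum_le_sum fun m _ => ?_
  have hdis : ∀ p ∈ P, ∀ q ∈ P, p ≠ q →
      Disjoint ((O m).filter (fun z => |idx m z - p * t| ≤ w))
        ((O m).filter (fun z => |idx m z - q * t| ≤ w)) := by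
    have key : ∀ p ∈ P, ∀ q ∈ P, p < q → ∀ z, |idx m z - p * t| ≤ w →
        |idx m z - q * t| ≤ w → False := by
      intro p hp q hq hpq z h1 h2
      have h3 := hsep p hp q hq hpq
      have h4 : (D : ℝ) ≤ q - p := by
        have : p + D ≤ q := h3
        have h5 : ((p + D : ℕ) : ℝ) ≤ q := by exact_mod_cast this
        push_cast at h5
        linarith
      have h6 : |((q : ℝ) - p) * t| ≤ 2 * w := by
        have : ((q : ℝ) - p) * t = (idx m z - p * t) - (idx m z - q * t) := by ring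
        rw [this]
        refine (abs_sub _ _).trans ?_
        linarith
      rw [abs_mul] at h6
      have h7 : (D : ℝ) * |t| ≤ |(q : ℝ) - p| * |t| := by
        refine mul_le_mul_of_nonneg_right (h4.trans (le_abs_self _)) (abs_nonneg _)
      linarith
    intro p hp q hq hne
    rw [Finset.disjoint_left]
    intro z hz hz'
    rw [Finset.mem_filter] at hz hz'
    rcases lt_or_gt_of_ne hne with h | h
    · exact key p hp q hq h z hz.2 hz'.2
    · exact key q hq p hp h z hz'.2 hz.2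
  rw [← Finset.card_biUnion hdis]
  refine Finset.card_le_card ?_
  intro z hz
  rw [Finset.mem_biUnion] at hz
  obtain ⟨p, _, hz⟩ := hz
  exact (Finset.mem_filter.1 hz).1

/-- a popular value -/
theorem count_popular {α β : Type*} [DecidableEq β] (G : Finset α) (tt : Finset β) (f : α → β)
    (hf : ∀ a ∈ G, f a ∈ tt) (hG : G.Nonempty) :
    ∃ t ∈ tt, G.card ≤ (tt.card + 1) * (G.filter (fun a => f a = t)).card := by
  by_contra hcon
  push Not at hcon
  have h1 : G.card = ∑ t ∈ tt, (G.filter (fun a => f a = t)).card :=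
    Finset.card_eq_sum_card_fiberwise (fun a ha => hf a (Finset.mem_coe.1 ha))
  obtain ⟨a, ha⟩ := hG
  have hne : tt.Nonempty := ⟨f a, hf a ha⟩
  have h2 : (tt.card + 1) * G.card < tt.card * G.card := by
    calc (tt.card + 1) * G.card = ∑ t ∈ tt, (tt.card + 1) * (G.filter (fun a => f a = t)).card := by
          rw [← Finset.mul_sum, ← h1]
      _ < ∑ _t ∈ tt, G.card := Finset.sum_lt_sum_of_nonempty hne fun t ht => hcon t ht
      _ = tt.card * G.card := by rw [Finset.sum_const, smul_eq_mul]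
  have h3 : tt.card * G.card ≤ (tt.card + 1) * G.card := Nat.mul_le_mul_right _ (Nat.le_succ _)
  omega

/-- a common lower bound -/
theorem count_theta (tt : Finset ℝ) (htt : ∀ t ∈ tt, t ≠ 0) :
    ∃ θ : ℝ, 0 < θ ∧ ∀ t ∈ tt, θ ≤ |t| := by
  rcases tt.eq_empty_or_nonempty with h | h
  · exact ⟨1, one_pos, fun t ht => absurd ht (by rw [h]; exact Finset.notMem_empty _)⟩
  · obtain ⟨t₀, ht₀, hmin⟩ := tt.exists_min_image (fun t => |t|) h
    exact ⟨|t₀|, abs_pos.2 (htt t₀ ht₀), hmin⟩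

open scoped Classical in
/-- **Double counting.** `ν m` is the number of primitive orbits of prime level `m`, `O m` the set of
all orbits of level `m`, `idx m o` the normalised index of `o`. Every prime `p` has either `ν p ≥ c₁ p`
or a list of lengths `ℓ` of sum `≥ κ p` such that every prime level `m ≤ p` has at least
`#{k | C₀ (p - m) < ℓ k}` orbits of index `p t + O(ν p + 1)`. Then `P x ≥ A x^(3/2) / (log x)^(3/2)`. -/
theorem th_count {α : Type*} (P ν : ℕ → ℕ) (F : ℕ) (O : ℕ → Finset α) (idx : ℕ → α → ℝ)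
    (tt : Finset ℝ) (htt : ∀ t ∈ tt, t ≠ 0) (κ C₀ C₁ c₁ : ℝ) (hκ : 0 < κ) (hC₀ : 0 < C₀)
    (hC₁ : 0 < C₁) (hc₁ : 0 < c₁) (hO : ∀ m, m.Prime → (O m).card ≤ F + ν m)
    (hP : ∀ x : ℕ, ∑ m ∈ (Finset.range (x + 1)).filter Nat.Prime, ν m ≤ P x)
    (hkey : ∀ᶠ p : ℕ in atTop, p.Prime → c₁ * p ≤ ν p ∨ ∃ t ∈ tt, ∃ (r : ℕ) (ℓ : Fin r → ℝ),
      (∀ k, 0 ≤ ℓ k) ∧ κ * p ≤ ∑ k, ℓ k ∧ ∀ m : ℕ, m.Prime → m ≤ p →
        (Finset.univ.filter (fun k => C₀ * ((p : ℝ) - m) < ℓ k)).card ≤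
          ((O m).filter (fun o => |idx m o - p * t| ≤ C₁ * (ν p + 1))).card) :
    ∃ A > 0, ∀ᶠ x : ℕ in atTop,
      A * (x : ℝ) ^ (3 / 2 : ℝ) / (Real.log x) ^ (3 / 2 : ℝ) ≤ P x := by
  obtain ⟨θ, hθ0, hθ⟩ := count_theta tt htt
  set n : ℝ := tt.card + 1 with hn
  have hn0 : 0 < n := by positivity
  set g : ℝ := min (κ / C₀) 1 with hg
  have hg0 : 0 < g := lt_min (by positivity) one_pos
  set C₂ : ℝ := (2 * C₁ + 1) / θ + 2 with hC₂
  have hC₂0 : 0 < C₂ := by positivity
  set C₃ : ℝ := 32 * C₁ / θ + C₂ with hC₃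
  have hC₃0 : 0 < C₃ := by positivity
  set c₅ : ℝ := g / (512 * n * C₃) with hc₅
  have hc₅0 : 0 < c₅ := by positivity
  set r : ℝ := Real.sqrt c₅ with hr
  have hr0 : 0 < r := Real.sqrt_pos.2 hc₅0
  have hr2 : r ^ 2 = c₅ := Real.sq_sqrt hc₅0.le
  set s : ℝ := min (r / 2) (c₁ / 128) with hs
  have hs0 : 0 < s := lt_min (by positivity) (by positivity)
  refine ⟨s, hs0, ?_⟩
  obtain ⟨p₀, hp₀⟩ := eventually_atTop.1 hkey
  filter_upwards [count_good, count_lin_small (2 * F + 1) s hs0, eventually_ge_atTop 5,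
    eventually_ge_atTop (4 * p₀)] with x hgp hls hx5 hxp0
  have hx : (5 : ℝ) ≤ x := by exact_mod_cast hx5
  have hx0 : (0 : ℝ) < x := by linarith
  set L : ℝ := Real.log x with hL
  have hL1 : 1 ≤ L := count_one_le_log hx
  have hL0 : 0 < L := by linarith
  set Q : ℝ := (P x : ℝ) with hQ
  have hQ0 : 0 ≤ Q := Nat.cast_nonneg _
  have hQs : ((∑ m ∈ cpr x, ν m : ℕ) : ℝ) ≤ Q := Nat.cast_le.2 (hP x)
  set z : ℝ := ((x : ℝ) / L) ^ (3 / 2 : ℝ) with hz
  have hgoal : s * (x : ℝ) ^ (3 / 2 : ℝ) / L ^ (3 / 2 : ℝ) = s * z := by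
    rw [hz, Real.div_rpow hx0.le hL0.le, mul_div_assoc]
  rw [hgoal]
  have hz0 : 0 ≤ z := by positivity
  have hz2 : z ^ 2 = (x : ℝ) ^ 3 / L ^ 3 := by
    rw [hz, ← Real.rpow_natCast, ← Real.rpow_mul (by positivity), ← div_pow, ← Real.rpow_natCast]
    norm_num
  set X : ℝ := 16 * (Q + 1) * L / x with hX
  have hX0 : 0 < X := by positivity
  set w : ℝ := C₁ * (X + 1) with hw
  have hw0 : 0 ≤ w := by positivity
  have hF : (0 : ℝ) ≤ F := Nat.cast_nonneg _
  have h1sz : 1 ≤ s * z := by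
    refine le_trans ?_ hls
    nlinarith
  obtain ⟨G, hGS, hGc, hG⟩ := hgp ν X hX0 (by
    have : X * (x / (16 * L)) = Q + 1 := by
      rw [hX]
      field_simp
    rw [this]
    linarith)
  have hGp : ∀ p ∈ G, p₀ ≤ p := by
    intro p hp
    have h1 := (hGS p hp).2.2
    have h2 : ((4 * p₀ : ℕ) : ℝ) ≤ x := Nat.cast_le.2 hxp0
    push_cast at h2
    have h3 : (p₀ : ℝ) < p := by linarith
    exact (Nat.cast_lt.1 h3).le
  by_cases hcase : ∃ p ∈ G, c₁ * p ≤ ν p
  · -- many orbits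
    obtain ⟨p, hp, hp2⟩ := hcase
    have h1 : c₁ * (x / 4) ≤ X := by
      have h3 := mul_le_mul_of_nonneg_left (hGS p hp).2.2.le hc₁.le
      linarith [(hG p hp).1]
    rw [hX, le_div_iff₀ hx0] at h1
    have h2 : c₁ / 64 * ((x : ℝ) ^ 2 / L) ≤ Q + 1 := by
      rw [div_mul_div_comm, div_le_iff₀ (by positivity)]
      nlinarith
    have h3 : z ≤ (x : ℝ) ^ 2 / L := by
      have h4 : z ^ 2 ≤ ((x : ℝ) ^ 2 / L) ^ 2 := by
        rw [hz2, div_pow, div_le_div_iff₀ (by positivity) (by positivity)]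
        have h5 : (0 : ℝ) ≤ (x : ℝ) ^ 3 * L ^ 2 := by positivity
        have h6 : 1 ≤ (x : ℝ) * L := by nlinarith
        calc (x : ℝ) ^ 3 * L ^ 2 ≤ (x : ℝ) ^ 3 * L ^ 2 * (x * L) := le_mul_of_one_le_right h5 h6
          _ = ((x : ℝ) ^ 2) ^ 2 * L ^ 3 := by ring
      exact (pow_le_pow_iff_left₀ hz0 (by positivity) two_ne_zero).1 h4
    have h5 : 2 * s * z ≤ c₁ / 64 * ((x : ℝ) ^ 2 / L) := by
      refine mul_le_mul ?_ h3 hz0 (by positivity)
      have := min_le_right (r / 2) (c₁ / 128)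
      rw [← hs] at this
      linarith
    linarith
  · have hkey2 : ∀ p ∈ G, ∃ t ∈ tt, ∃ (r : ℕ) (ℓ : Fin r → ℝ),
        (∀ k, 0 ≤ ℓ k) ∧ κ * p ≤ ∑ k, ℓ k ∧ ∀ m : ℕ, m.Prime → m ≤ p →
          (Finset.univ.filter (fun k => C₀ * ((p : ℝ) - m) < ℓ k)).card ≤
            ((O m).filter (fun o => |idx m o - p * t| ≤ C₁ * (ν p + 1))).card := by
      intro p hp
      rcases hp₀ p (hGp p hp) (hGS p hp).1 with h | h
      · exact absurd ⟨p, hp, h⟩ hcase
      · exact h
    choose! f hf1 hf2 using hkey2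
    have hGne : G.Nonempty := by
      rw [← Finset.card_pos]
      have h1 : (0 : ℝ) < (G.card : ℝ) := lt_of_lt_of_le (by positivity) hGc
      exact_mod_cast h1
    obtain ⟨t, ht, hpop⟩ := count_popular G tt f hf1 hGne
    set G' := G.filter (fun a => f a = t) with hG'
    have ht0 : 0 < |t| := abs_pos.2 (htt t ht)
    have htθ : θ ≤ |t| := hθ t ht
    set D : ℕ := ⌈(2 * w + 1) / θ⌉₊ + 1 with hD
    have hDw : 2 * w < D * |t| := by
      have h1 : (2 * w + 1) / θ ≤ (⌈(2 * w + 1) / θ⌉₊ : ℝ) := Nat.le_ceil _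
      rw [div_le_iff₀ hθ0] at h1
      have h2 : (D : ℝ) * θ ≤ D * |t| := mul_le_mul_of_nonneg_left htθ (Nat.cast_nonneg _)
      refine lt_of_lt_of_le ?_ h2
      rw [hD]
      push_cast
      nlinarith
    have hDle : (D : ℝ) ≤ (2 * w + 1) / θ + 2 := by
      have h1 : (⌈(2 * w + 1) / θ⌉₊ : ℝ) < (2 * w + 1) / θ + 1 :=
        Nat.ceil_lt_add_one (by positivity)
      rw [hD]
      push_cast
      linarith
    obtain ⟨B, hBG', hBc, hsep⟩ := exists_separated G' D (Nat.succ_pos _)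
    have hBG : ∀ p ∈ B, p ∈ G ∧ f p = t := by
      intro p hp
      have := hBG' hp
      rw [hG', Finset.mem_filter] at this
      exact this
    have hBw : ∀ p ∈ B, C₁ * (ν p + 1) ≤ w := by
      intro p hp
      rw [hw]
      refine mul_le_mul_of_nonneg_left ?_ hC₁.le
      linarith [(hG p (hBG p hp).1).1]
    -- lower bound
    have hlow : ∀ p ∈ B, 1 / (16 * L) * (g * (x / 4)) ≤ ((∑ m ∈ cpr p,
        ((O m).filter (fun z => |idx m z - p * t| ≤ w)).card : ℕ) : ℝ) := by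
      intro p hp
      obtain ⟨hpG, hpt⟩ := hBG p hp
      obtain ⟨hpp, hpx, hp4⟩ := hGS p hpG
      obtain ⟨r', l, hl0, hlS, hl⟩ := hf2 p hpG
      have h1 := count_bars (1 / (16 * L)) C₀ (κ * p) (by positivity) hC₀ p hpp.pos
        (hG p hpG).2 r' l hl0 hlS
      have hp0 : (0 : ℝ) < p := by exact_mod_cast hpp.pos
      have h2 : g * (x / 4) ≤ min (κ * p / C₀) p := by
        refine le_min ?_ ?_
        · calc g * (x / 4) ≤ κ / C₀ * p :=
                mul_le_mul (min_le_left _ _) hp4.le (by positivity) (by positivity)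
            _ = κ * p / C₀ := by ring
        · calc g * (x / 4) ≤ 1 * p :=
                mul_le_mul (min_le_right _ _) hp4.le (by positivity) zero_le_one
            _ = p := one_mul _
      refine (mul_le_mul_of_nonneg_left h2 (by positivity)).trans (h1.trans ?_)
      rw [Nat.cast_sum]
      refine Finset.sum_le_sum fun m hm => ?_
      rw [mem_cpr] at hm
      have h4 := hl m hm.2 hm.1
      rw [hpt] at h4
      have h5 : ((O m).filter (fun z => |idx m z - p * t| ≤ C₁ * (ν p + 1))).card ≤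
          ((O m).filter (fun z => |idx m z - p * t| ≤ w)).card := by
        refine Finset.card_le_card ?_
        intro z hz
        rw [Finset.mem_filter] at hz ⊢
        exact ⟨hz.1, hz.2.trans (hBw p hp)⟩
      exact_mod_cast h4.trans h5
    have hup := count_once O idx t w x D hDw B (fun p hp => (hGS p (hBG p hp).1).2.1) hsep
    have hup2 : ((∑ m ∈ cpr x, (O m).card : ℕ) : ℝ) ≤ Q + 2 * F * x := by
      have h1 : ∑ m ∈ cpr x, (O m).card ≤ (x + 1) * F + ∑ m ∈ cpr x, ν m := by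
        calc ∑ m ∈ cpr x, (O m).card ≤ ∑ m ∈ cpr x, (F + ν m) :=
              Finset.sum_le_sum fun m hm => hO m (mem_cpr.1 hm).2
          _ = (cpr x).card * F + ∑ m ∈ cpr x, ν m := by
              rw [Finset.sum_add_distrib, Finset.sum_const, smul_eq_mul]
          _ ≤ (x + 1) * F + ∑ m ∈ cpr x, ν m := by
              refine Nat.add_le_add_right (Nat.mul_le_mul_right _ ?_) _
              refine (Finset.card_le_card (Finset.filter_subset _ _)).trans ?_
              rw [Finset.card_range]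
      have h2 : ((∑ m ∈ cpr x, (O m).card : ℕ) : ℝ) ≤ (x + 1) * F +
          ((∑ m ∈ cpr x, ν m : ℕ) : ℝ) := by
        exact_mod_cast h1
      nlinarith
    have hmain : (B.card : ℝ) * (1 / (16 * L) * (g * (x / 4))) ≤ Q + 2 * F * x := by
      refine le_trans ?_ hup2
      have h1 : (B.card : ℝ) * (1 / (16 * L) * (g * (x / 4))) ≤ ((∑ p ∈ B, ∑ m ∈ cpr p,
          ((O m).filter (fun z => |idx m z - p * t| ≤ w)).card : ℕ) : ℝ) := by
        rw [← nsmul_eq_mul, ← Finset.sum_const, Nat.cast_sum]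
        exact Finset.sum_le_sum hlow
      refine h1.trans ?_
      exact_mod_cast hup
    -- the conclusion
    set Y : ℝ := Q + (2 * F + 1) * x with hY
    have hY0 : 0 < Y := by positivity
    have hYM : (x : ℝ) ≤ Y := by rw [hY]; nlinarith
    have hYQ : Q + 1 ≤ Y := by rw [hY]; nlinarith
    have hD3 : (D : ℝ) ≤ C₃ * Y * L / x := by
      refine hDle.trans ?_
      have h1 : (2 * w + 1) / θ + 2 = 32 * C₁ / θ * (Q + 1) * L / x + C₂ := by
        rw [hw, hX, hC₂]
        field_simp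
        ring
      rw [h1]
      have h2 : 32 * C₁ / θ * (Q + 1) * L / x ≤ 32 * C₁ / θ * Y * L / x := by
        refine div_le_div_of_nonneg_right ?_ hx0.le
        refine mul_le_mul_of_nonneg_right ?_ hL0.le
        exact mul_le_mul_of_nonneg_left hYQ (by positivity)
      have h3 : C₂ ≤ C₂ * Y * L / x := by
        rw [le_div_iff₀ hx0, mul_assoc]
        refine mul_le_mul_of_nonneg_left ?_ hC₂0.le
        nlinarith
      have h4 : C₃ * Y * L / x = 32 * C₁ / θ * Y * L / x + C₂ * Y * L / x := by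
        rw [hC₃]
        ring
      rw [h4]
      linarith
    have h6 : (x : ℝ) / (8 * L) ≤ n * (D * B.card) := by
      refine hGc.trans ?_
      have h1 : G.card ≤ (tt.card + 1) * (D * B.card) :=
        hpop.trans (Nat.mul_le_mul_left _ hBc)
      rw [hn]
      exact_mod_cast h1
    have h7 : g * (x : ℝ) ^ 3 ≤ 512 * n * C₃ * L ^ 3 * Y ^ 2 := by
      have e1 : (x : ℝ) / (8 * L) * (1 / (16 * L) * (g * (x / 4))) ≤
          n * (D * (Q + 2 * F * x)) := by
        calc (x : ℝ) / (8 * L) * (1 / (16 * L) * (g * (x / 4)))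
            ≤ n * (D * B.card) * (1 / (16 * L) * (g * (x / 4))) :=
              mul_le_mul_of_nonneg_right h6 (by positivity)
          _ = n * (D * (B.card * (1 / (16 * L) * (g * (x / 4))))) := by ring
          _ ≤ n * (D * (Q + 2 * F * x)) := by
              refine mul_le_mul_of_nonneg_left ?_ hn0.le
              exact mul_le_mul_of_nonneg_left hmain (Nat.cast_nonneg _)
      have e2 : (D : ℝ) * (Q + 2 * F * x) ≤ C₃ * Y * L / x * Y := by
        refine mul_le_mul hD3 ?_ (by positivity) (by positivity)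
        rw [hY]
        nlinarith
      have e3 := e1.trans (mul_le_mul_of_nonneg_left e2 hn0.le)
      have e4 : (x : ℝ) / (8 * L) * (1 / (16 * L) * (g * (x / 4))) =
          g * (x : ℝ) ^ 2 / (512 * L ^ 2) := by
        field_simp
        ring
      have e5 : n * (C₃ * Y * L / x * Y) = n * C₃ * L * Y ^ 2 / x := by
        field_simp
      rw [e4, e5, div_le_div_iff₀ (by positivity) hx0] at e3
      calc g * (x : ℝ) ^ 3 = g * (x : ℝ) ^ 2 * x := by ring
        _ ≤ n * C₃ * L * Y ^ 2 * (512 * L ^ 2) := e3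
        _ = 512 * n * C₃ * L ^ 3 * Y ^ 2 := by ring
    have h8 : (r * z) ^ 2 ≤ Y ^ 2 := by
      rw [mul_pow, hr2, hz2, hc₅, div_mul_div_comm, div_le_iff₀ (by positivity)]
      calc g * (x : ℝ) ^ 3 ≤ 512 * n * C₃ * L ^ 3 * Y ^ 2 := h7
        _ = Y ^ 2 * (512 * n * C₃ * L ^ 3) := by ring
    have h9 : r * z ≤ Y := (pow_le_pow_iff_left₀ (by positivity) hY0.le two_ne_zero).1 h8
    have h10 : 2 * s * z ≤ r * z := by
      refine mul_le_mul_of_nonneg_right ?_ hz0
      have := min_le_left (r / 2) (c₁ / 128)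
      rw [← hs] at this
      linarith
    have h11 : Y ≤ Q + s * z := by
      rw [hY]
      linarith
    linarith

end Pool.Agent.H75.TH
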