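import Pool.Agent.H45.AC.Ech

/-!
# The Euler characteristic of an acyclic band is zero
-/

set_option autoImplicit false

namespace Pool.Agent.H75.TH

open Pool.Agent.H47.ST Pool.Agent.H45.AC

variable {κ : Type*} [Fintype κ] [DecidableEq κ] {F : Type*} [Field F]

omit [DecidableEq κ] in
theorem EchZ_orb_tr {L : AddSubgroup (κ → ℤ)} {l : κ → ℤ} (hl : l ∈ L) (σ : Finset (κ → ℤ)) :
    orb L (tr l σ) = orb L σ := by
  ext τ
  constructor
  · rintro ⟨m, hm, rfl⟩
    exact ⟨l + m, L.add_mem hl hm, Sym_tr_tr _ _ _⟩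
  · rintro ⟨m, hm, rfl⟩
    refine ⟨m - l, L.sub_mem hm hl, ?_⟩
    rw [Sym_tr_tr]
    congr 1
    abel

omit [DecidableEq κ] in
theorem EchZ_bs_tr {L : AddSubgroup (κ → ℤ)} {B A : Set (κ → ℤ)} (hB : Inv L B) (hA : Inv L A)
    {l : κ → ℤ} (hl : l ∈ L) {j : ℕ} (σ : Finset (κ → ℤ)) : tr l σ ∈ bs B A j ↔ σ ∈ bs B A j := by
  unfold bs
  simp only [Set.mem_ofPred_eq]
  rw [Sym_In_tr hB hl, Sym_all_tr hA hl, Sym_card_tr]

/-- The invariant cochains are the functions on the classes of simplices. -/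
noncomputable def EchZ_eq (F : Type*) [Field F] {L : AddSubgroup (κ → ℤ)} {B A : Set (κ → ℤ)}
    (hB : Inv L B) (hA : Inv L A) (j : ℕ) :
    co (F := F) L B A j ≃ₗ[F] ((orb L '' bs B A j : Set (Set (Finset (κ → ℤ)))) → F) := by
  classical
  have hrep : ∀ s : (orb L '' bs B A j : Set (Set (Finset (κ → ℤ)))), ∃ σ ∈ bs B A j,
      orb L σ = s.1 := fun s => s.2
  choose rep hrep1 hrep2 using hrep
  have hself : ∀ σ : Finset (κ → ℤ), σ ∈ orb L σ := fun σ => ⟨0, L.zero_mem, (Sym_tr_zero σ).symm⟩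
  let Φ : co (F := F) L B A j →ₗ[F]
      ((orb L '' bs B A j : Set (Set (Finset (κ → ℤ)))) → F) :=
    { toFun := fun c s => c.1 (rep s)
      map_add' := fun _ _ => rfl
      map_smul' := fun _ _ => rfl }
  refine LinearEquiv.ofBijective Φ ⟨?_, ?_⟩
  · rw [← LinearMap.ker_eq_bot, LinearMap.ker_eq_bot']
    intro c hc
    apply Subtype.ext
    funext σ
    by_contra h
    obtain ⟨h1, h2, h3⟩ := c.2.2 σ h
    have hσ : σ ∈ bs B A j := ⟨h1, h2, h3⟩
    have h4 : orb L (rep ⟨orb L σ, σ, hσ, rfl⟩) = orb L σ := hrep2 ⟨orb L σ, σ, hσ, rfl⟩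
    have h5 : rep ⟨orb L σ, σ, hσ, rfl⟩ ∈ orb L σ := by
      have h6 := hself (rep ⟨orb L σ, σ, hσ, rfl⟩)
      rwa [h4] at h6
    obtain ⟨l, hl, h6⟩ := h5
    have h7 : c.1 (rep ⟨orb L σ, σ, hσ, rfl⟩) = 0 := congrFun hc _
    rw [h6, c.2.1 l hl] at h7
    exact h h7
  · intro f
    refine ⟨⟨fun σ => if h : σ ∈ bs B A j then f ⟨orb L σ, σ, h, rfl⟩ else 0,
      fun l hl σ => ?_, fun σ hσ => ?_⟩, ?_⟩
    · beta_reduce
      by_cases h : σ ∈ bs B A j
      · rw [dif_pos h, dif_pos ((EchZ_bs_tr hB hA hl σ).2 h)]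
        congr 1
        exact Subtype.ext (EchZ_orb_tr hl σ)
      · rw [dif_neg h, dif_neg fun h' => h ((EchZ_bs_tr hB hA hl σ).1 h')]
    · by_contra h
      exact hσ (dif_neg h)
    · funext s
      change (if h : rep s ∈ bs B A j then f ⟨orb L (rep s), rep s, h, rfl⟩ else 0) = f s
      rw [dif_pos (hrep1 s)]
      congr 1
      exact Subtype.ext (hrep2 s)

theorem co_finite (F : Type*) [Field F] {L : AddSubgroup (κ → ℤ)} {B A : Set (κ → ℤ)}
    (hB : Inv L B) (hA : Inv L A) (hfin : FinMod L B A) (j : ℕ) :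
    FiniteDimensional F (co (F := F) L B A j) := by
  have : Finite (orb L '' bs B A j : Set (Set (Finset (κ → ℤ)))) := nc_finite hB hA hfin j
  exact Module.Finite.equiv (EchZ_eq F hB hA j).symm

theorem finrank_co (F : Type*) [Field F] {L : AddSubgroup (κ → ℤ)} {B A : Set (κ → ℤ)}
    (hB : Inv L B) (hA : Inv L A) (hfin : FinMod L B A) (j : ℕ) :
    Module.finrank F (co (F := F) L B A j) = nc L B A j := by
  classical
  have hf : Finite (orb L '' bs B A j : Set (Set (Finset (κ → ℤ)))) := nc_finite hB hA hfin j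
  have hf' : Fintype (orb L '' bs B A j : Set (Set (Finset (κ → ℤ)))) := Fintype.ofFinite _
  rw [(EchZ_eq F hB hA j).finrank_eq, Module.finrank_fintype_fun_eq_card, nc, Set.ncard,
    Set.encard, ENat.card_eq_coe_fintype_card, ENat.toNat_coe]

/-- **The Euler characteristic of an acyclic band is zero.** -/
theorem ech_of_HR (F : Type*) [Field F] {L : AddSubgroup (κ → ℤ)} {B A : Set (κ → ℤ)}
    (hB : Inv L B) (hA : Inv L A) (hfin : FinMod L B A) (h : ∀ j, HR F L B A j 0) :
    ech L B A = 0 := by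
  classical
  have hfd : ∀ j, FiniteDimensional F (co (F := F) L B A j) := co_finite F hB hA hfin
  let D : ∀ j, co (F := F) L B A j →ₗ[F] co (F := F) L B A (j + 1) := fun j =>
    (dX B).restrict fun _ hx => dX_mem hB hx
  have hD : ∀ j (x : co (F := F) L B A j), (D j x).1 = dX B x.1 := fun _ _ => rfl
  have hker : ∀ j, LinearMap.ker (D (j + 1)) = LinearMap.range (D j) := by
    intro j
    ext x
    rw [LinearMap.mem_ker, LinearMap.mem_range]
    constructor
    · intro hx
      have hx' : dX B x.1 = 0 := congrArg Subtype.val hx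
      obtain ⟨y, hy, hyx⟩ := (RK_zero.1 (h j)) x.1 x.2 (by rw [Submodule.mem_bot]; exact hx')
      rw [Submodule.mem_bot, sub_eq_zero] at hyx
      exact ⟨⟨y, hy⟩, Subtype.ext hyx.symm⟩
    · rintro ⟨y, rfl⟩
      apply Subtype.ext
      rw [hD, hD, dX_dX]
      rfl
  set r : ℕ → ℕ := fun j => Module.finrank F (LinearMap.range (D j)) with hr
  have h0 : nc L B A 0 = 0 := by
    rw [← finrank_co F hB hA hfin, co_zero]
    exact finrank_bot F _
  have hr0 : r 0 = 0 := by
    have h1 := LinearMap.finrank_range_add_finrank_ker (D 0)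
    rw [finrank_co F hB hA hfin, h0] at h1
    have : r 0 + _ = 0 := h1
    omega
  have hstep : ∀ j, nc L B A (j + 1) = r (j + 1) + r j := by
    intro j
    have h1 := LinearMap.finrank_range_add_finrank_ker (D (j + 1))
    rw [hker, finrank_co F hB hA hfin] at h1
    exact h1.symm
  have hsum : ∀ m, ∑ j ∈ Finset.range (m + 1), (-1 : ℤ) ^ (j + 1) * (nc L B A j : ℤ) =
      (-1) ^ (m + 1) * (r m : ℤ) := by
    intro m
    induction m with
    | zero => simp [h0, hr0]
    | succ m ih =>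
      rw [Finset.sum_range_succ, ih, hstep]
      push_cast
      ring
  have htop : r (Fintype.card κ + 1) = 0 := by
    have h1 := hstep (Fintype.card κ + 1)
    rw [nc_big (by omega)] at h1
    omega
  unfold ech
  rw [show Fintype.card κ + 2 = (Fintype.card κ + 1) + 1 from rfl, hsum, htop]
  simp

end Pool.Agent.H75.TH
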