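import Pool.Agent.H47.ST.Lev

/-!
# Excision and a splitting of a band
-/

set_option autoImplicit false

namespace Pool.Agent.H75.TH

open Pool.Agent.H47.ST

variable {ι : Type*} [Fintype ι] {F : Type*} [Field F]

/-- acyclicity of a band, elementwise -/
theorem Exc_HR {L : AddSubgroup (ι → ℤ)} {B A : Set (ι → ℤ)} {j : ℕ} :
    HR F L B A j 0 ↔ ∀ x ∈ co (F := F) L B A (j + 1), dX B x = 0 →
      ∃ y ∈ co (F := F) L B A j, dX B y = x := by
  unfold HR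
  rw [RK_zero]
  simp only [Submodule.mem_bot, sub_eq_zero]
  exact ⟨fun h x hx hd => (h x hx hd).imp fun y hy => ⟨hy.1, hy.2.symm⟩,
    fun h x hx hd => (h x hx hd).imp fun y hy => ⟨hy.1, hy.2.symm⟩⟩

/-- Dividing by an acyclic lower band: if `(B, A)` and `(A', A)` are acyclic then so is `(B, A')`. -/
theorem HR_upper {L : AddSubgroup (ι → ℤ)} {A A' B : Set (ι → ℤ)} (hA' : Inv L A') (hB : Inv L B)
    (hAA' : A ⊆ A') (hA'B : A' ⊆ B) (h1 : ∀ j, HR F L A' A j 0) (h2 : ∀ j, HR F L B A j 0)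
    (j : ℕ) : HR F L B A' j 0 := by
  rw [Exc_HR]
  intro x hx hdx
  obtain ⟨y, hy, hyx⟩ := Exc_HR.1 (h2 j) x (co_anti hAA' (j + 1) hx) hdx
  have h3 : HK (dX B) (co (F := F) L B A) (co (F := F) L B A') j 0 := by
    cases j with
    | zero => exact HK_co_zero 0
    | succ j => exact HR.rel hB hA' hAA' hA'B (h1 j)
  obtain ⟨z, hz, hyz⟩ := RK_zero.1 h3 y hy (by rw [hyx]; exact hx)
  refine ⟨y - dX B z, hyz, ?_⟩
  rw [map_sub, dX_dX, sub_zero, hyx]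

/-- **Splitting of a band.** `A' = M₊ ∩ M₋`, `U = M₊ ∪ M₋`; no simplex meets both `M₊ ∖ M₋` and
`M₋ ∖ M₊`. If `(B, A')` and `(B, U)` are acyclic then `(B, M₊)` is acyclic. -/
theorem HR_split {L : AddSubgroup (ι → ℤ)} {A' Mp Mm U B : Set (ι → ℤ)} (hMp : Inv L Mp)
    (hB : Inv L B) (hinter : ∀ v, v ∈ A' ↔ v ∈ Mp ∧ v ∈ Mm)
    (hunion : ∀ v, v ∈ U ↔ v ∈ Mp ∨ v ∈ Mm)
    (hsep : ∀ v w, Adj v w → v ∈ Mp → v ∉ Mm → w ∈ Mm → w ∈ Mp)
    (h1 : ∀ j, HR F L B U j 0) (h2 : ∀ j, HR F L B A' j 0) (j : ℕ) :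
    HR F L B Mp j 0 := by
  classical
  rw [Exc_HR]
  intro x hx hdx
  have hA'p : A' ⊆ Mp := fun v hv => ((hinter v).1 hv).1
  have hpU : Mp ⊆ U := fun v hv => (hunion v).2 (Or.inl hv)
  obtain ⟨y, hy, hyx⟩ := Exc_HR.1 (h2 j) x (co_anti hA'p (j + 1) hx) hdx
  -- the part of `y` in `M₊`
  have hy2 : cut (fun σ => ∀ v ∈ σ, v ∈ Mp) y ∈ co (F := F) L B Mm j := by
    refine ⟨fun l hl σ => ?_, fun σ hσ => ?_⟩
    · rw [cut_apply, cut_apply, hy.1 l hl]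
      have h3 : (∀ v ∈ tr l σ, v ∈ Mp) ↔ ∀ v ∈ σ, v ∈ Mp := by
        constructor
        · intro h v hv
          exact (hMp l hl v).2 (h _ (CellA_tr_mem.2 ⟨v, hv, rfl⟩))
        · intro h w hw
          obtain ⟨v, hv, rfl⟩ := CellA_tr_mem.1 hw
          exact (hMp l hl v).1 (h v hv)
      by_cases h4 : ∀ v ∈ σ, v ∈ Mp
      · rw [if_pos h4, if_pos (h3.2 h4)]
      · rw [if_neg h4, if_neg fun h5 => h4 (h3.1 h5)]
    · rw [cut_apply] at hσ
      by_cases h4 : ∀ v ∈ σ, v ∈ Mp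
      · rw [if_pos h4] at hσ
        obtain ⟨h5, h6, h7⟩ := hy.2 σ hσ
        exact ⟨h5, fun h8 => h6 fun v hv => (hinter v).2 ⟨h4 v hv, h8 v hv⟩, h7⟩
      · rw [if_neg h4] at hσ
        exact absurd rfl hσ
  set y2 : Co ι F := cut (fun σ => ∀ v ∈ σ, v ∈ Mp) y with hy2def
  have hdy2 : dX B y2 ∈ co (F := F) L B Mm (j + 1) := dX_mem hB hy2
  have hdy2U : dX B y2 ∈ co (F := F) L B U (j + 1) := by
    refine ⟨hdy2.1, fun σ hσ => ?_⟩
    obtain ⟨h3, h4, h5⟩ := hdy2.2 σ hσ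
    refine ⟨h3, fun hU => ?_, h5⟩
    have hp : ∀ v ∈ σ, v ∈ Mp := by
      have h6 := h4
      push Not at h6
      obtain ⟨w, hw, hwm⟩ := h6
      have hwp : w ∈ Mp := ((hunion w).1 (hU w hw)).resolve_right hwm
      intro v hv
      rcases (hunion v).1 (hU v hv) with h7 | h7
      · exact h7
      · exact hsep w v (h3.1 w hw v hv) hwp hwm h7
    apply hσ
    have h6 : dX B y2 σ = dX B y σ := by
      rw [dX_apply, dX_apply, if_pos h3, if_pos h3]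
      refine Finset.sum_congr rfl fun v _ => ?_
      rw [hy2def, cut_apply, if_pos fun w hw => hp w (Finset.mem_of_mem_erase hw)]
    rw [h6, hyx]
    by_contra h7
    exact (hx.2 σ h7).2.1 hp
  obtain ⟨w, hw, hwx⟩ := Exc_HR.1 (h1 j) (dX B y2) hdy2U (dX_dX B y2)
  refine ⟨y - (y2 - w), ?_, ?_⟩
  · have hwA : w ∈ co (F := F) L B A' j := co_anti (hA'p.trans hpU) j hw
    have hyA2 : y2 ∈ co (F := F) L B A' j :=
      co_anti (fun v hv => ((hinter v).1 hv).2) j hy2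
    have h3 : y - (y2 - w) ∈ co (F := F) L B A' j :=
      Submodule.sub_mem _ hy (Submodule.sub_mem _ hyA2 hwA)
    refine ⟨h3.1, fun σ hσ => ?_⟩
    obtain ⟨h4, h5, h6⟩ := h3.2 σ hσ
    refine ⟨h4, fun hp => hσ ?_, h6⟩
    have h7 : w σ = 0 := by
      by_contra h8
      exact (hw.2 σ h8).2.1 fun v hv => hpU (hp v hv)
    rw [Pi.sub_apply, Pi.sub_apply, h7, sub_zero, hy2def, cut_apply, if_pos hp, sub_self]
  · rw [map_sub, map_sub, hwx, sub_self, sub_zero, hyx]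

end Pool.Agent.H75.TH
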