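import Pool.Agent.H75.TH.Wrong
import Pool.Agent.H47.ST.EqM

/-!
# Project TH: the restriction of a perturbation to the invariant sequences
-/

set_option autoImplicit false

open Module QuadraticForm Filter Topology
open Pool.Agent.H47.QG (Pt action flw oseq Gen ind hess Zn MeanIdx)
open Pool.Agent.H47.ST

namespace Pool.Agent.H75.TH

variable {n : ℕ}

theorem FoldW_fderiv {p N : ℕ} [NeZero N] {F : (Iz n (p * N) → ℝ) → ℝ}
    (hF : Differentiable ℝ F) (y : Iz n N → ℝ) :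
    fderiv ℝ (fun y : Iz n N → ℝ => F (y ∘ shs n p N) / p) y =
      (p : ℝ)⁻¹ • fderiv ℝ (fun y : Iz n N → ℝ => F (y ∘ shs n p N)) y := by
  have h1 : (fun y : Iz n N → ℝ => F (y ∘ shs n p N) / p) =
      fun y : Iz n N → ℝ => (p : ℝ)⁻¹ * F (y ∘ shs n p N) := by
    funext y
    rw [div_eq_inv_mul]
  have h2 : DifferentiableAt ℝ (fun y : Iz n N → ℝ => F (y ∘ shs n p N)) y :=
    (hF.comp (SymC_pull (shs n p N)).differentiable) y
  rw [h1]
  exact fderiv_const_mul h2 _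

/-- `f' (y ∘ shs) / p` is close to the action of period `N`. -/
theorem fold_near {S : ℕ → Pt n → ℝ} {f : ℕ → Pt n → Pt n} (hS : ∀ j, Gen (S j) (f j))
    {N p : ℕ} [NeZero N] [NeZero (p * N)] (hp : p.Prime) (hper : ∀ j, S (j + N) = S j)
    (hfper : ∀ j, f (j + N) = f j) (f' : (Iz n (p * N) → ℝ) → ℝ) (C ε : ℝ)
    (h1 : ContDiff ℝ 2 f') (h2 : PerL (Lc n (p * N)) f') (hT : ∀ y, f' (y ∘ shp n p N) = f' y)
    (h3 : ∀ y b, |fderiv ℝ f' y (Pi.single b 1) -
      fderiv ℝ (fS S (p * N)) y (Pi.single b 1)| ≤ C)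
    (h4 : ∀ y, |f' y - fS S (p * N) y| ≤ p * ε)
    (h5 : ∀ y, fderiv ℝ f' y = 0 ↔ fderiv ℝ (fS S (p * N)) y = 0)
    (h6 : ∀ y, fderiv ℝ (fS S (p * N)) y = 0 → ∃ c : ℝ, ∀ᶠ x in 𝓝 y, f' x = fS S (p * N) x + c) :
    Near S N C ε (fun y => f' (y ∘ shs n p N) / p) := by
  have hp0 : (0 : ℝ) < p := by exact_mod_cast hp.pos
  have hFd : Differentiable ℝ f' := h1.differentiable (by norm_num)
  have hAd : Differentiable ℝ (fS S (p * N)) := (fS_smooth hS (p * N)).differentiable (by norm_num)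
  have hA : fS S N = fun y : Iz n N → ℝ => fS S (p * N) (y ∘ shs n p N) / p := by
    funext y
    rw [fS_fold p N hper, mul_div_cancel_left₀ _ hp0.ne']
  have hcrit : ∀ G : (Iz n (p * N) → ℝ) → ℝ, Differentiable ℝ G →
      (∀ y, G (y ∘ shp n p N) = G y) → ∀ y : Iz n N → ℝ,
      fderiv ℝ (fun y : Iz n N → ℝ => G (y ∘ shs n p N) / p) y = 0 ↔
        fderiv ℝ G (y ∘ shs n p N) = 0 := by
    intro G hG hGT y
    rw [FoldW_fderiv hG, smul_eq_zero_iff_right (inv_ne_zero hp0.ne')]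
    exact crit_of_fold (shp n p N) hp.pos (shp_pow n p N) (shs n p N) (fun v => shp_fix v) G hG
      hGT y
  have hcA : ∀ y : Iz n N → ℝ, fderiv ℝ (fS S N) y = 0 ↔
      fderiv ℝ (fS S (p * N)) (y ∘ shs n p N) = 0 := by
    intro y
    rw [hA]
    exact hcrit _ hAd (fun y => fS_shift p N hper y) y
  refine ⟨?_, ?_, ?_, ?_, ?_, ?_⟩
  · exact (fold_smooth (shs n p N) 2 f' h1).div_const _
  · intro l hl y
    exact congrArg (fun t : ℝ => t / p) (EqM_per h2 l hl y)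
  · intro y b
    rw [hA, FoldW_fderiv hFd, FoldW_fderiv hAd, smul_apply,
      smul_apply, fold_partial _ _ hFd, fold_partial _ _ hAd, ← smul_sub,
      ← Finset.sum_sub_distrib, smul_eq_mul, abs_mul, abs_of_pos (inv_pos.2 hp0)]
    have h7 : |∑ a ∈ Finset.univ.filter (fun a : Iz n (p * N) => shs n p N a = b),
        (fderiv ℝ f' (y ∘ shs n p N) (Pi.single a 1) -
          fderiv ℝ (fS S (p * N)) (y ∘ shs n p N) (Pi.single a 1))| ≤ p * C := by
      refine (Finset.abs_sum_le_sum_abs _ _).trans ?_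
      refine (Finset.sum_le_sum fun a _ => h3 _ _).trans ?_
      rw [Finset.sum_const, card_fiber, nsmul_eq_mul]
    rw [inv_mul_le_iff₀ hp0]
    exact h7
  · intro y
    rw [hA]
    change |f' (y ∘ shs n p N) / p - fS S (p * N) (y ∘ shs n p N) / p| ≤ ε
    rw [← sub_div, abs_div, abs_of_pos hp0, div_le_iff₀' hp0]
    exact h4 _
  · intro y
    rw [hcA, hcrit f' hFd hT, h5]
  · intro y hy
    obtain ⟨c, hc⟩ := h6 (y ∘ shs n p N) ((hcA y).1 hy)
    refine ⟨c / p, ?_⟩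
    have h7 : Tendsto (fun x : Iz n N → ℝ => x ∘ shs n p N) (𝓝 y) (𝓝 (y ∘ shs n p N)) :=
      (SymC_pull (shs n p N)).continuous.continuousAt
    filter_upwards [h7.eventually hc] with x hx
    rw [hx, hA]
    ring

/-- The levels of the folded function. -/
theorem FoldW_Lv {p N : ℕ} [NeZero N] (hp : p.Prime) (F : (Iz n (p * N) → ℝ) → ℝ)
    (R a b : ℝ) (m : ℕ) :
    Lv (fun t => p * qK n N t) (fun t => p * QK n N t)
      (fun y : Iz n N → ℝ => F (y ∘ shs n p N)) R a b m =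
    Lv (qK n N) (QK n N) (fun y => F (y ∘ shs n p N) / p) (R / p) (a / p) (b / p) m := by
  have hp0 : (0 : ℝ) < p := by exact_mod_cast hp.pos
  ext v
  simp only [Lv, Set.mem_ofPred_eq]
  rw [le_div_iff₀' hp0, ← neg_div, le_div_iff₀' hp0, div_le_div_iff_of_pos_right hp0]

/-- The scaled form of `Alive`. -/
theorem fold_alive {S : ℕ → Pt n → ℝ} {f : ℕ → Pt n → Pt n} (hS : ∀ j, Gen (S j) (f j))
    {N p : ℕ} [NeZero N] [NeZero (p * N)] [Fact p.Prime] (hper : ∀ j, S (j + N) = S j)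
    (hfper : ∀ j, f (j + N) = f j) (f' : (Iz n (p * N) → ℝ) → ℝ)
    (h5 : ∀ y, fderiv ℝ f' y = 0 ↔ fderiv ℝ (fS S (p * N)) y = 0) (R v : ℝ)
    (hv : Alive f N (fun y => f' (y ∘ shs n p N) / p) p (R / p) v) :
    ∀ b₁ b₂ : ℝ, b₁ < p * v → p * v < b₂ →
      (∀ y : Iz n N → ℝ, fderiv ℝ f' (y ∘ shs n p N) = 0 → b₁ ≤ f' (y ∘ shs n p N) →
        f' (y ∘ shs n p N) ≤ b₂ → f' (y ∘ shs n p N) = p * v) →
      ∃ j, ∃ᶠ M : ℕ in atTop, ¬ HR (ZMod p) (lam (Lc n N) (2 ^ M))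
        (Lv (fun t => p * qK n N t) (fun t => p * QK n N t)
          (fun y : Iz n N → ℝ => f' (y ∘ shs n p N)) R R b₂ (2 ^ M))
        (Lv (fun t => p * qK n N t) (fun t => p * QK n N t)
          (fun y : Iz n N → ℝ => f' (y ∘ shs n p N)) R R b₁ (2 ^ M)) j 0 := by
  intro b₁ b₂ hb1 hb2 hband
  have hp : p.Prime := Fact.out
  have hp0 : (0 : ℝ) < p := by exact_mod_cast hp.pos
  obtain ⟨j, hj⟩ := hv (b₁ / p) (b₂ / p)
    ((div_lt_iff₀' hp0).2 hb1) ((lt_div_iff₀' hp0).2 hb2) (by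
      intro w hw h6 h7
      have h8 : zw f (p * N) w = zw f N w ∘ shs n p N := zw_fold p N hfper w hw
      have h9 : flw f (p * N) w = w := by
        rw [Pool.Agent.H47.QG.flw_mul hfper, Function.iterate_fixed hw]
      have h10 : fderiv ℝ f' (zw f N w ∘ shs n p N) = 0 := by
        rw [h5, ← h8]
        refine (fS_crit hS (p * N) _).2 ?_
        rw [ActZ_zw, ActZ_oseq_zero]
        exact ⟨h9, rfl⟩
      have h11 := hband (zw f N w) h10 ((div_le_div_iff_of_pos_right hp0).1 h6)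
        ((div_le_div_iff_of_pos_right hp0).1 h7)
      change f' (zw f N w ∘ shs n p N) / p = v
      rw [h11, mul_div_cancel_left₀ _ hp0.ne'])
  refine ⟨j, ?_⟩
  simp only [FoldW_Lv hp]
  exact hj

end Pool.Agent.H75.TH
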