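import Mathlib
import Pool.Agent.H60.PO.Primes

/-!
# Good primes, separated subsets

The elementary arithmetic behind the growth exponent `3/2`.
-/

set_option autoImplicit false

open Filter Topology

namespace Pool.Agent.H75.TH

open scoped Classical in
/-- the elements `m ≤ p` of `S` with `p - ρ < m` -/
noncomputable def below (S : Set ℕ) (p : ℕ) (ρ : ℝ) : Finset ℕ :=
  (Finset.range (p + 1)).filter (fun m => m ∈ S ∧ (p : ℝ) - ρ < m)

/-- `p` is bad: some interval `(p - ρ, p]` contains fewer than `δ ρ` elements of `S` -/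
def Bad (S : Set ℕ) (δ : ℝ) (p : ℕ) : Prop :=
  ∃ ρ : ℝ, 0 < ρ ∧ ρ ≤ p ∧ ((below S p ρ).card : ℝ) < δ * ρ

open scoped Classical in
/-- **There are few bad elements.** -/
theorem bad_card (S : Set ℕ) (δ : ℝ) (hδ : 0 ≤ δ) (N : ℕ) :
    (((Finset.range (N + 1)).filter (fun p => p ∈ S ∧ Bad S δ p)).card : ℝ) ≤ δ * N := by
  induction N using Nat.strong_induction_on with
  | _ N ih =>
    set B := (Finset.range (N + 1)).filter (fun p => p ∈ S ∧ Bad S δ p) with hB
    rcases B.eq_empty_or_nonempty with he | hne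
    · rw [he, Finset.card_empty, Nat.cast_zero]; positivity
    · obtain ⟨p, hp, hmax⟩ := B.exists_max_image id hne
      have hp' := hp
      rw [hB, Finset.mem_filter, Finset.mem_range] at hp'
      obtain ⟨hpN, hpS, ρ, hρ, hρp, hcard⟩ := hp'
      have hpρ : 0 ≤ (p : ℝ) - ρ := by linarith
      have hN' : ⌊(p : ℝ) - ρ⌋₊ < N := by
        rw [Nat.floor_lt hpρ]
        have : (p : ℝ) ≤ N := by exact_mod_cast Nat.lt_succ_iff.1 hpN
        linarith
      have h1 := ih _ hN'
      have hsub : B ⊆ below S p ρ ∪ (Finset.range (⌊(p : ℝ) - ρ⌋₊ + 1)).filter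
          (fun p => p ∈ S ∧ Bad S δ p) := by
        intro b hb
        have hbp : b ≤ p := hmax b hb
        rw [hB, Finset.mem_filter] at hb
        rw [Finset.mem_union]
        by_cases hbρ : (p : ℝ) - ρ < b
        · left
          unfold below
          rw [Finset.mem_filter, Finset.mem_range]
          exact ⟨by omega, hb.2.1, hbρ⟩
        · right
          rw [Finset.mem_filter, Finset.mem_range]
          refine ⟨Nat.lt_succ_of_le (Nat.le_floor (not_lt.1 hbρ)), hb.2⟩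
      have h2 : (B.card : ℝ) ≤ (below S p ρ).card +
          ((Finset.range (⌊(p : ℝ) - ρ⌋₊ + 1)).filter (fun p => p ∈ S ∧ Bad S δ p)).card := by
        exact_mod_cast (Finset.card_le_card hsub).trans (Finset.card_union_le _ _)
      have h3 : δ * (⌊(p : ℝ) - ρ⌋₊ : ℝ) ≤ δ * (p - ρ) :=
        mul_le_mul_of_nonneg_left (Nat.floor_le hpρ) hδ
      have h4 : δ * (p : ℝ) ≤ δ * N :=
        mul_le_mul_of_nonneg_left (by exact_mod_cast Nat.lt_succ_iff.1 hpN) hδ
      nlinarith

open scoped Classical in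
/-- a subset of pairwise distances at least `s` of proportion `1 / s` -/
theorem exists_separated (A : Finset ℕ) (s : ℕ) (hs : 0 < s) :
    ∃ B ⊆ A, A.card ≤ s * B.card ∧ ∀ a ∈ B, ∀ b ∈ B, a < b → a + s ≤ b := by
  have h1 : ∃ c ∈ Finset.range s, A.card ≤ s * (A.filter (fun a => a % s = c)).card := by
    by_contra hcon
    push Not at hcon
    have h2 : A.card = ∑ c ∈ Finset.range s, (A.filter (fun a => a % s = c)).card :=
      Finset.card_eq_sum_card_fiberwise (fun a _ => by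
        simp only [Finset.coe_range, Set.mem_Iio]
        exact Nat.mod_lt _ hs)
    have h3 : ∑ c ∈ Finset.range s, s * (A.filter (fun a => a % s = c)).card <
        ∑ _c ∈ Finset.range s, A.card :=
      Finset.sum_lt_sum_of_nonempty (Finset.nonempty_range_iff.2 hs.ne') hcon
    rw [← Finset.mul_sum, ← h2, Finset.sum_const, Finset.card_range, smul_eq_mul] at h3
    exact lt_irrefl _ h3
  obtain ⟨c, _, hc⟩ := h1
  refine ⟨_, Finset.filter_subset _ _, hc, ?_⟩
  intro a ha b hb hab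
  rw [Finset.mem_filter] at ha hb
  have h4 : a % s = b % s := by rw [ha.2, hb.2]
  have h5 : s ∣ b - a := (Nat.modEq_iff_dvd' hab.le).1 h4
  have h6 := Nat.le_of_dvd (by omega) h5
  omega

/-- many primes between `x / 4` and `x` -/
theorem many_primes : ∀ᶠ x : ℕ in atTop,
    (x : ℝ) / (4 * Real.log x) ≤
      (((Finset.range (x + 1)).filter (fun p : ℕ => p.Prime ∧ (x : ℝ) / 4 < p)).card : ℝ) := by
  have h0 : Tendsto (fun x : ℕ => (x : ℝ)) atTop atTop := tendsto_natCast_atTop_atTop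
  filter_upwards [h0.eventually H60.PO.theta_diff, eventually_ge_atTop 3] with x h1 h3
  have hx3 : (3 : ℝ) ≤ x := by exact_mod_cast h3
  have hlog : 0 < Real.log x := Real.log_pos (by linarith)
  have hset : (Finset.range (x + 1)).filter (fun p : ℕ => p.Prime ∧ (x : ℝ) / 4 < p) =
      (Finset.Ioc ⌊(x : ℝ) / 4⌋₊ ⌊(x : ℝ)⌋₊).filter Nat.Prime := by
    ext p
    rw [Finset.mem_filter, Finset.mem_filter, Finset.mem_range, Finset.mem_Ioc,
      Nat.floor_lt (by positivity), Nat.floor_natCast]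
    constructor
    · rintro ⟨a, b, c⟩
      exact ⟨⟨c, by omega⟩, b⟩
    · rintro ⟨⟨a, b⟩, c⟩
      exact ⟨by omega, c, a⟩
  rw [hset]
  have h4 : Chebyshev.theta x - Chebyshev.theta ((x : ℝ) / 4) =
      ∑ p ∈ (Finset.Ioc ⌊(x : ℝ) / 4⌋₊ ⌊(x : ℝ)⌋₊).filter Nat.Prime, Real.log p := by
    unfold Chebyshev.theta
    have hle : ⌊(x : ℝ) / 4⌋₊ ≤ ⌊(x : ℝ)⌋₊ := Nat.floor_le_floor (by linarith)
    have hdis : Disjoint ((Finset.Ioc 0 ⌊(x : ℝ) / 4⌋₊).filter Nat.Prime)
        ((Finset.Ioc ⌊(x : ℝ) / 4⌋₊ ⌊(x : ℝ)⌋₊).filter Nat.Prime) := by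
      rw [Finset.disjoint_left]
      intro p hp hp'
      rw [Finset.mem_filter, Finset.mem_Ioc] at hp hp'
      omega
    have hun : (Finset.Ioc 0 ⌊(x : ℝ)⌋₊).filter Nat.Prime =
        (Finset.Ioc 0 ⌊(x : ℝ) / 4⌋₊).filter Nat.Prime ∪
        (Finset.Ioc ⌊(x : ℝ) / 4⌋₊ ⌊(x : ℝ)⌋₊).filter Nat.Prime := by
      rw [← Finset.filter_union, Finset.Ioc_union_Ioc_eq_Ioc (Nat.zero_le _) hle]
    rw [hun, Finset.sum_union hdis]
    ring
  have h5 : (x : ℝ) / 4 ≤
      ((Finset.Ioc ⌊(x : ℝ) / 4⌋₊ ⌊(x : ℝ)⌋₊).filter Nat.Prime).card * Real.log x := by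
    refine h1.trans ?_
    rw [h4, ← nsmul_eq_mul, ← Finset.sum_const]
    refine Finset.sum_le_sum fun p hp => ?_
    rw [Finset.mem_filter, Finset.mem_Ioc] at hp
    have a2 : (p : ℝ) ≤ x := (Nat.le_floor_iff (by positivity)).1 hp.1.2
    exact Real.log_le_log (by exact_mod_cast hp.2.pos) a2
  rw [div_le_iff₀ (by positivity)]
  nlinarith

end Pool.Agent.H75.TH
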