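import Pool.Agent.H47.ST.GrowB

/-!
# Project TH: mean indices and action gaps of a finite level
-/

set_option autoImplicit false

open Module QuadraticForm Filter Topology
open Pool.Agent.H47.QG (Pt action flw oseq Gen ind hess Zn MeanIdx)
open Pool.Agent.H47.ST

namespace Pool.Agent.H75.TH

variable {n : ℕ}

/-- a finite set of real numbers has a gap -/
theorem LevA_gap (V : Finset ℝ) : ∀ᶠ e : ℝ in 𝓝[>] 0, ∀ a ∈ V, ∀ b ∈ V, a ≠ b → e ≤ |a - b| := by
  rw [Filter.eventually_all_finset]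
  intro a _
  rw [Filter.eventually_all_finset]
  intro b _
  by_cases h : a = b
  · exact Eventually.of_forall fun e hne => absurd h hne
  · filter_upwards [mem_nhdsWithin_of_mem_nhds (Iic_mem_nhds (abs_pos.2 (sub_ne_zero.2 h)))]
      with e he _ using he

/-- a finite set of real numbers has a gap -/
theorem LevA_gap' (V : Finset ℝ) : ∃ e > 0, ∀ a ∈ V, ∀ b ∈ V, a ≠ b → e ≤ |a - b| := by
  obtain ⟨e, he, h0⟩ := ((LevA_gap V).and self_mem_nhdsWithin).exists
  exact ⟨e, h0, he⟩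

/-- **Data of the level `K`.** -/
theorem lev_data {S : ℕ → Pt n → ℝ} {f : ℕ → Pt n → Pt n} (hS : ∀ j, Gen (S j) (f j)) {K : ℕ}
    [NeZero K] (hper : ∀ j, S (j + K) = S j) (hfper : ∀ j, f (j + K) = f j) (W₁ : Finset (Pt n))
    (hW₁ : ∀ w, flw f K w = w ↔ ∃ w' ∈ W₁, w - w' ∈ Zn n) :
    ∃ (T : Pt n → ℝ) (e κ₀ : ℝ), 0 < e ∧ 0 < κ₀ ∧
      (∀ w, flw f K w = w → MeanIdx S f K w (T w) ∧ 0 ≤ T w + n * K ∧
        ∀ p : ℕ, 0 < p → |(ind S f (p * K) w : ℝ) - p * (T w + n * K)| ≤ 2 * n) ∧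
      (∀ w w', flw f K w = w → flw f K w' = w' → T w' = T w ∨ e ≤ |T w' - T w|) ∧
      (∀ w, flw f K w = w → T w = 0 ∨ e ≤ |T w|) ∧
      (∀ w, flw f K w = w → ∃ w' ∈ W₁, T w' = T w) ∧
      ∀ w w', flw f K w = w → flw f K w' = w' → fS S K (zw f K w) ≠ fS S K (zw f K w') →
        κ₀ ≤ |fS S K (zw f K w) - fS S K (zw f K w')| := by
  classical
  have hK : 0 < K := Nat.pos_of_ne_zero (NeZero.ne K)
  have hlim : ∀ w : Pt n, flw f K w = w → ∃ L : ℝ,
      (∀ p : ℕ, 0 < p → |(ind S f (p * K) w : ℝ) - p * L| ≤ 2 * n) ∧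
      Tendsto (fun p : ℕ => (ind S f (p * K) w : ℝ) / p) atTop (𝓝 L) := by
    intro w hw
    exact Pool.Agent.H47.QG.almost_additive (fun p => (ind S f (p * K) w : ℝ)) (2 * n)
      (fun p q hp hq => Pool.Agent.H47.QG.ind_add S f hS K hK hper hfper w hw p q hp hq)
  have hlim' : ∀ w : Pt n, ∃ L : ℝ, flw f K w = w →
      (∀ p : ℕ, 0 < p → |(ind S f (p * K) w : ℝ) - p * L| ≤ 2 * n) ∧
      Tendsto (fun p : ℕ => (ind S f (p * K) w : ℝ) / p) atTop (𝓝 L) := by
    intro w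
    by_cases hw : flw f K w = w
    · obtain ⟨L, hL⟩ := hlim w hw
      exact ⟨L, fun _ => hL⟩
    · exact ⟨0, fun h => absurd h hw⟩
  choose Lf hLf using hlim'
  have hWf : ∀ w ∈ W₁, flw f K w = w := fun w hw =>
    (hW₁ w).2 ⟨w, hw, by rw [sub_self]; exact (Zn n).zero_mem⟩
  -- the mean index depends only on the class
  have hcl : ∀ w w', flw f K w = w → flw f K w' = w' → w - w' ∈ Zn n → Lf w = Lf w' := by
    intro w w' hw hw' he
    have h1 := (hLf w hw).2
    have h2 := (hLf w' hw').2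
    have h3 : ∀ p : ℕ, ind S f (p * K) w = ind S f (p * K) w' := by
      intro p
      obtain ⟨a, b, hab⟩ := he
      have h4 : w = w' + ((fun i => (a i : ℝ)), (fun i => (b i : ℝ))) := by
        rw [← hab, add_sub_cancel]
      rw [h4]
      exact Pool.Agent.H47.QG.ind_translate S f hS _ w' a b
    simp only [h3] at h1
    exact tendsto_nhds_unique h1 h2
  have hval : ∀ w w', w - w' ∈ Zn n → fS S K (zw f K w) = fS S K (zw f K w') := by
    intro w w' he
    obtain ⟨l, hl, h1⟩ := (zw_add hS K w w').2 he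
    rw [h1]
    exact fS_per hS K l hl _
  obtain ⟨e, he0, he⟩ := LevA_gap' (insert 0 (W₁.image fun w => Lf w - n * K))
  obtain ⟨κ₀, hκ0, hκ⟩ := LevA_gap' (W₁.image fun w => fS S K (zw f K w))
  have hrep : ∀ w, flw f K w = w → ∃ w' ∈ W₁, Lf w = Lf w' ∧
      fS S K (zw f K w) = fS S K (zw f K w') := by
    intro w hw
    obtain ⟨w', hw', h⟩ := (hW₁ w).1 hw
    exact ⟨w', hw', hcl w w' hw (hWf w' hw') h, hval w w' h⟩
  have hmem : ∀ w, flw f K w = w → Lf w - n * K ∈ insert 0 (W₁.image fun w => Lf w - n * K) := by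
    intro w hw
    obtain ⟨w', hw', h, -⟩ := hrep w hw
    rw [h]
    exact Finset.mem_insert_of_mem (Finset.mem_image_of_mem (fun w => Lf w - n * K) hw')
  refine ⟨fun w => Lf w - n * K, e, κ₀, he0, hκ0, fun w hw => ⟨?_, ?_, fun p hp => ?_⟩,
    fun w w' hw hw' => ?_, fun w hw => ?_, fun w hw => ?_, fun w w' hw hw' hne => ?_⟩
  · have h1 := (hLf w hw).2
    unfold MeanIdx
    rw [sub_add_cancel]
    exact h1
  · rw [sub_add_cancel]
    refine ge_of_tendsto' (hLf w hw).2 fun p => ?_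
    positivity
  · rw [sub_add_cancel]
    exact (hLf w hw).1 p hp
  · by_cases h : Lf w' - n * K = Lf w - n * K
    · exact Or.inl h
    · exact Or.inr (he _ (hmem w' hw') _ (hmem w hw) h)
  · by_cases h : Lf w - n * K = 0
    · exact Or.inl h
    · have := he _ (hmem w hw) 0 (Finset.mem_insert_self _ _) h
      rw [sub_zero] at this
      exact Or.inr this
  · obtain ⟨w', hw', h, -⟩ := hrep w hw
    refine ⟨w', hw', ?_⟩
    change Lf w' - n * K = Lf w - n * K
    rw [h]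
  · obtain ⟨a, ha, -, h1⟩ := hrep w hw
    obtain ⟨b, hb, -, h2⟩ := hrep w' hw'
    rw [h1, h2] at hne ⊢
    exact hκ _ (Finset.mem_image_of_mem (fun w => fS S K (zw f K w)) ha) _
      (Finset.mem_image_of_mem (fun w => fS S K (zw f K w)) hb) hne

end Pool.Agent.H75.TH
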