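import Pool.Agent.H45.AC.Adm
import Pool.Agent.H47.ST.GrowB

/-!
# Project TH: the thresholds
-/

set_option autoImplicit false

open Module QuadraticForm Filter Topology
open Pool.Agent.H47.QG (Pt action flw oseq Gen ind hess Zn MeanIdx)
open Pool.Agent.H47.ST
open Pool.Agent.H45.AC (Adm ClI SepI shG)

namespace Pool.Agent.H75.TH

variable {n : ℕ}

/-- The action of period `p N` is admissible. `T w` is the mean index of `w`. -/
theorem adm_fS {S : ℕ → Pt n → ℝ} {f : ℕ → Pt n → Pt n} (hS : ∀ j, Gen (S j) (f j))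
    {N p : ℕ} [NeZero N] [NeZero (p * N)] (hp : p.Prime) (hper : ∀ j, S (j + N) = S j)
    (hfper : ∀ j, f (j + N) = f j) (W : Finset (Pt n))
    (hW : ∀ w, flw f (p * N) w = w ↔ ∃ w' ∈ W, w - w' ∈ Zn n)
    (hWd : ∀ w ∈ W, ∀ w' ∈ W, w - w' ∈ Zn n → w = w') (t e w₀ : ℝ)
    (hidx : ∀ w, flw f N w = w → ∃ t', MeanIdx S f N w t' ∧
      |(ind S f (p * N) w : ℝ) - p * (t' + n * N)| ≤ 2 * n ∧ (t' = t ∨ e ≤ |t' - t|))
    (G₁ G₂ : ℕ) (h1 : G₁ = 0 ∨ (G₁ : ℝ) ≤ p * (t + n * N) - 2 * n) (h2 : p * (t + n * N) - w₀ ≤ G₁)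
    (h3 : p * (t + n * N) + 4 * n + 1 < G₂) (h4 : (G₂ : ℝ) ≤ p * (t + n * N) + w₀)
    (hpe : w₀ + 4 * n + 1 < p * e)
    (hA : ∀ w, flw f (p * N) w = w → flw f N w ≠ w → ∀ G, (G = G₁ ∨ G = G₂) →
      ¬ (ind S f (p * N) w < G ∧ G ≤ ind S f (p * N) w + 2 * n + 1)) :
    ∃ (C : ℝ) (Z : Finset (Iz n (p * N) → ℝ)), (∀ z, z ∈ Z ↔ ∃ w ∈ W, zw f (p * N) w = z) ∧
      Adm n (p * N) (shp n p N) C G₁ G₂ (fS S (p * N)) Z ∧
      (∀ w ∈ W, sigNeg (hess (fS S (p * N)) (zw f (p * N) w)) = ind S f (p * N) w) ∧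
      ∀ w, flw f N w = w → (ClI G₁ G₂ (fS S (p * N)) (zw f (p * N) w) ↔ MeanIdx S f N w t) := by
  classical
  obtain ⟨C, hC⟩ := fS_grad hS (p * N)
  have hZ : ∀ z, z ∈ W.image (zw f (p * N)) ↔ ∃ w ∈ W, zw f (p * N) w = z := fun z =>
    Finset.mem_image
  have hn : (0 : ℝ) ≤ n := Nat.cast_nonneg n
  obtain ⟨x, hx⟩ : ∃ x : ℝ, x = p * (t + n * N) := ⟨_, rfl⟩
  rw [← hx] at h1 h2 h3 h4
  -- positions of the fixed windows
  have hpos : ∀ w, flw f N w = w → ∃ t', MeanIdx S f N w t' ∧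
      ((t' = t ∧ |(ind S f (p * N) w : ℝ) - x| ≤ 2 * n) ∨
      (t' ≠ t ∧ w₀ + 2 * n + 1 < |(ind S f (p * N) w : ℝ) - x|)) := by
    intro w hw
    obtain ⟨t', hm, hd, ht⟩ := hidx w hw
    refine ⟨t', hm, ?_⟩
    by_cases h : t' = t
    · left
      refine ⟨h, ?_⟩
      rw [hx, ← h]
      exact hd
    · right
      refine ⟨h, ?_⟩
      have he := ht.resolve_left h
      have e1 : (p : ℝ) * (t' - t) = p * (t' + n * N) - x := by
        rw [hx]
        ring
      have e2 : (p : ℝ) * |t' - t| = |(p : ℝ) * (t' + n * N) - x| := by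
        rw [← e1, abs_mul, abs_of_nonneg (Nat.cast_nonneg p : (0 : ℝ) ≤ p)]
      have e3 : (p : ℝ) * e ≤ p * |t' - t| := mul_le_mul_of_nonneg_left he (Nat.cast_nonneg p)
      have e4 := abs_sub_le ((p : ℝ) * (t' + n * N)) (ind S f (p * N) w) x
      rw [abs_sub_comm ((p : ℝ) * (t' + n * N)) (ind S f (p * N) w)] at e4
      linarith
  have hsig : ∀ w, sigNeg (hess (fS S (p * N)) (zw f (p * N) w)) = ind S f (p * N) w :=
    fun w => fS_sigNeg hS (p * N) w
  refine ⟨C, W.image (zw f (p * N)), hZ, ⟨fS_smooth hS _, fS_per hS _, fS_shift p N hper, hC,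
    GrowA_crit hS (p * N) W hW _ hZ, ?_, ?_⟩, fun w _ => hsig w, ?_⟩
  · intro z hz z' hz' l hl he
    obtain ⟨w, hw, rfl⟩ := Finset.mem_image.1 hz
    obtain ⟨w', hw', rfl⟩ := Finset.mem_image.1 hz'
    rw [hWd w' hw' w hw ((zw_add hS _ w' w).1 ⟨l, hl, he⟩)]
  · intro z hz G hG
    obtain ⟨w, hw, rfl⟩ := Finset.mem_image.1 hz
    rintro ⟨g1, g2⟩
    rw [hsig] at g1
    have h1 : G = G₁ → (G₁ : ℝ) ≤ x - 2 * n := by
      intro hGG
      rcases h1 with h | h
      · omega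
      · exact h
    have g3 := fS_null hS (p * N) w
    have g4 : G ≤ ind S f (p * N) w + 2 * n + 1 := by omega
    have hpw : flw f (p * N) w = w := (hW w).2 ⟨w, hw, by
      rw [sub_self]
      exact (Zn n).zero_mem⟩
    by_cases hfw : flw f N w = w
    · have g1' : (ind S f (p * N) w : ℝ) + 1 ≤ G := by exact_mod_cast g1
      have g4' : (G : ℝ) ≤ ind S f (p * N) w + 2 * n + 1 := by exact_mod_cast g4
      obtain ⟨t', -, ht | ht⟩ := hpos w hfw
      · obtain ⟨b1, b2⟩ := abs_le.1 ht.2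
        rcases hG with rfl | rfl
        · have := h1 rfl
          linarith
        · linarith
      · have b := ht.2
        rw [lt_abs] at b
        rcases hG with rfl | rfl
        · have := h1 rfl
          rcases b with b | b
          · linarith
          · linarith
        · rcases b with b | b
          · linarith
          · linarith
    · exact hA w hpw hfw G hG ⟨g1, g4⟩
  · intro w hw
    unfold ClI
    rw [hsig]
    obtain ⟨t', hm, ht | ht⟩ := hpos w hw
    · obtain ⟨b1, b2⟩ := abs_le.1 ht.2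
      rw [ht.1] at hm
      refine ⟨fun _ => hm, fun _ => ⟨?_, ?_⟩⟩
      · rcases h1 with h1 | h1
        · rw [h1]
          exact Nat.zero_le _
        · have : (G₁ : ℝ) ≤ (ind S f (p * N) w : ℕ) := by linarith
          exact_mod_cast this
      · have : ((ind S f (p * N) w : ℕ) : ℝ) + 1 < G₂ := by linarith
        exact_mod_cast this
    · constructor
      · rintro ⟨c1, c2⟩
        exfalso
        have c1' : (G₁ : ℝ) ≤ (ind S f (p * N) w : ℕ) := by exact_mod_cast c1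
        have c2' : ((ind S f (p * N) w : ℕ) : ℝ) + 1 < G₂ := by exact_mod_cast c2
        have b := ht.2
        rw [lt_abs] at b
        rcases b with b | b
        · linarith
        · linarith
      · intro hm'
        exfalso
        apply ht.1
        have := tendsto_nhds_unique hm hm'
        linarith

end Pool.Agent.H75.TH
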