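import Pool.Agent.H75.TH.Msep
import Pool.Agent.H75.TH.WinP

/-!
# Project TH: the perturbation of the action of a prime level
-/

set_option autoImplicit false

open Module QuadraticForm Filter Topology
open Pool.Agent.H47.QG (Pt action flw oseq Gen ind hess Zn MeanIdx)
open Pool.Agent.H47.ST
open Pool.Agent.H45.AC (Adm ClI SepI shG)

namespace Pool.Agent.H75.TH

variable {n : ℕ}

/-- the action is invariant under the shift by a period -/
theorem LevB_shift {S : ℕ → Pt n → ℝ} {N M r : ℕ} (hM : M = r * N) [NeZero M]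
    (hper : ∀ j, S (j + N) = S j) (y : Iz n M → ℝ) :
    fS S M (y ∘ shG n M N) = fS S M y := by
  subst hM
  exact fS_shift r N hper y

/-- invariance under the powers of a permutation -/
theorem LevB_pow {ι : Type*} {g : (ι → ℝ) → ℝ} {π : Equiv.Perm ι} (h : ∀ y, g (y ∘ π) = g y)
    (k : ℕ) (y : ι → ℝ) : g (y ∘ ((π ^ k : Equiv.Perm ι) : ι → ι)) = g y := by
  induction k generalizing y with
  | zero => rfl
  | succ k ih =>
    have h1 : y ∘ ((π ^ (k + 1) : Equiv.Perm ι) : ι → ι) =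
        (y ∘ ((π ^ k : Equiv.Perm ι) : ι → ι)) ∘ (π : ι → ι) := by
      rw [pow_succ, Equiv.Perm.coe_mul]
      rfl
    rw [h1, h, ih]

/-- a period is a period -/
theorem LevB_mul {α : Type*} {g : ℕ → α} {N : ℕ} (h : ∀ j, g (j + N) = g j) (q j : ℕ) :
    g (j + q * N) = g j := by
  induction q generalizing j with
  | zero => rw [zero_mul, add_zero]
  | succ q ih => rw [Nat.succ_mul, ← add_assoc, h, ih]

/-- **The perturbation of the action of the level `p`** which separates the classes `t ∈ tt`. -/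
theorem lev_pert {S : ℕ → Pt n → ℝ} {f : ℕ → Pt n → Pt n} (hS : ∀ j, Gen (S j) (f j))
    {N K p q : ℕ} (hK : K = q * N) [NeZero N] [NeZero K] [NeZero (p * K)] (hp : p.Prime)
    (hper : ∀ j, S (j + N) = S j) (hfper : ∀ j, f (j + N) = f j) (W : Finset (Pt n))
    (hW : ∀ w, flw f (p * K) w = w ↔ ∃ w' ∈ W, w - w' ∈ Zn n)
    (hWd : ∀ w ∈ W, ∀ w' ∈ W, w - w' ∈ Zn n → w = w') (T : Pt n → ℝ) (e : ℝ)
    (hT : ∀ w, flw f K w = w → MeanIdx S f K w (T w) ∧
      |(ind S f (p * K) w : ℝ) - p * (T w + n * K)| ≤ 2 * n)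
    (hTe : ∀ w w', flw f K w = w → flw f K w' = w' → T w' = T w ∨ e ≤ |T w' - T w|)
    (tt : Finset ℝ) (htt : ∀ t ∈ tt, ∃ w, flw f K w = w ∧ T w = t) (w₀ : ℝ)
    (hpe : 2 * w₀ + 4 * n + 1 < p * e) (G₁ G₂ : ℝ → ℕ)
    (hG : ∀ t ∈ tt, (G₁ t = 0 ∨ (G₁ t : ℝ) ≤ p * (t + n * K) - 2 * n) ∧
      p * (t + n * K) - w₀ ≤ G₁ t ∧ p * (t + n * K) + 4 * n + 1 < G₂ t ∧
      (G₂ t : ℝ) ≤ p * (t + n * K) + w₀)
    (hA : ∀ w, flw f (p * K) w = w → flw f K w ≠ w → ∀ t ∈ tt, ∀ G, (G = G₁ t ∨ G = G₂ t) →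
      ¬ (ind S f (p * K) w < G ∧ G ≤ ind S f (p * K) w + 2 * n + 1))
    (ε₀ : ℝ) (hε₀ : 0 < ε₀) :
    ∃ (C : ℝ) (f' : (Iz n (p * K) → ℝ) → ℝ) (ε : ℝ → ℝ) (Z : Finset (Iz n (p * K) → ℝ)),
      (∀ z, z ∈ Z ↔ ∃ w ∈ W, zw f (p * K) w = z) ∧
      ContDiff ℝ 2 f' ∧ PerL (Lc n (p * K)) f' ∧
      (∀ y, f' (y ∘ shG n (p * K) N) = f' y) ∧
      (∀ y, f' (y ∘ shp n p K) = f' y) ∧
      (∀ y, |f' y - fS S (p * K) y| ≤ ε₀) ∧
      (∀ y, fderiv ℝ f' y = 0 ↔ fderiv ℝ (fS S (p * K)) y = 0) ∧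
      (∀ y, fderiv ℝ (fS S (p * K)) y = 0 →
        ∃ c : ℝ, ∀ᶠ x in 𝓝 y, f' x = fS S (p * K) x + c) ∧
      (∀ y b, |fderiv ℝ f' y (Pi.single b 1) -
        fderiv ℝ (fS S (p * K)) y (Pi.single b 1)| ≤ tt.card) ∧
      (∀ t ∈ tt, Adm n (p * K) (shp n p K) C (G₁ t) (G₂ t) f' Z ∧
        SepI (G₁ t) (G₂ t) f' Z) ∧
      (∀ w, flw f (p * K) w = w →
        sigNeg (hess f' (zw f (p * K) w)) = ind S f (p * K) w) ∧
      (∀ t ∈ tt, ∀ w, flw f K w = w → (ClI (G₁ t) (G₂ t) f' (zw f (p * K) w) ↔ T w = t)) ∧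
      (∀ t ∈ tt, ∀ w, flw f K w = w → T w = t →
        f' (zw f (p * K) w) = fS S (p * K) (zw f (p * K) w) + ε t) ∧
      ∀ w w', flw f K w = w → flw f K w' = w' → T w ∈ tt → T w' ≠ T w →
        f' (zw f (p * K) w) ≠ f' (zw f (p * K) w') := by
  classical
  have hperK : ∀ j, S (j + K) = S j := fun j => by rw [hK]; exact LevB_mul hper q j
  have hfperK : ∀ j, f (j + K) = f j := fun j => by rw [hK]; exact LevB_mul hfper q j
  have hpK : p * K = (p * q) * N := by rw [hK, mul_assoc]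
  have hnr : (0 : ℝ) ≤ n := Nat.cast_nonneg n
  have hpr : (0 : ℝ) ≤ p := Nat.cast_nonneg p
  -- fixed points of the level `K`
  have hfix : ∀ w, flw f K w = w → flw f (p * K) w = w := by
    intro w hw
    rw [Pool.Agent.H47.QG.flw_mul hfperK]
    exact Function.iterate_fixed hw p
  -- critical points
  have hcr : ∀ w, flw f (p * K) w = w → fderiv ℝ (fS S (p * K)) (zw f (p * K) w) = 0 := by
    intro w hw
    rw [fS_crit hS, GrowA_eK_zw0, GrowA_eK_zw]
    exact ⟨hw, rfl⟩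
  have hT' : ∀ w, flw f K w = w → ∀ t, MeanIdx S f K w t ↔ T w = t := by
    intro w hw t
    constructor
    · intro h
      have := tendsto_nhds_unique (hT w hw).1 h
      linarith
    · rintro rfl
      exact (hT w hw).1
  have hZ : ∀ z, z ∈ W.image (zw f (p * K)) ↔ ∃ w ∈ W, zw f (p * K) w = z := fun z =>
    Finset.mem_image
  have hcrit := GrowA_crit hS (p * K) W hW _ hZ
  -- the data of each class
  have hadm : ∀ t ∈ tt, ∃ C : ℝ, Adm n (p * K) (shp n p K) C (G₁ t) (G₂ t) (fS S (p * K))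
      (W.image (zw f (p * K))) ∧
      ∀ w, flw f K w = w → (ClI (G₁ t) (G₂ t) (fS S (p * K)) (zw f (p * K) w) ↔ T w = t) := by
    intro t ht
    obtain ⟨g1, g2, g3, g4⟩ := hG t ht
    obtain ⟨w₁, hw₁, hw₁t⟩ := htt t ht
    obtain ⟨C, Z', hZ', hA', -, hcl⟩ := adm_fS hS (N := K) (p := p) hp hperK hfperK W hW hWd t e w₀
      (fun w hw => ⟨T w, (hT w hw).1, (hT w hw).2, by
        rw [← hw₁t]
        exact hTe w₁ w hw₁ hw⟩) (G₁ t) (G₂ t) g1 g2 g3 g4 (by linarith)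
      (fun w hw hw' G hG' => hA w hw hw' t ht G hG')
    have hZZ : Z' = W.image (zw f (p * K)) := by
      ext z
      rw [hZ', hZ]
    rw [hZZ] at hA'
    exact ⟨C, hA', fun w hw => (hcl w hw).trans (hT' w hw t)⟩
  obtain ⟨C₀, hC₀⟩ := fS_grad hS (p * K)
  obtain ⟨f', ε, h1, h2, h3, h4, h5, h6, h7, h8, h9⟩ := multi_sep tt (Lc n (p * K))
    (shG n (p * K) N)
    (by
      rintro l ⟨c, hc⟩
      funext a
      obtain ⟨j, b⟩ := a
      change l (shG n (p * K) N (j, b)) = l (j, b)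
      rw [Pool.Agent.H45.AC.Adm_apply, hc, hc])
    (fS S (p * K)) (fS_smooth hS _) (fS_per hS _) (LevB_shift hpK hper)
    (W.image (zw f (p * K))) hcrit (fun t y => ClI (G₁ t) (G₂ t) (fS S (p * K)) y)
    (by
      intro t _ y _ l hl
      unfold ClI
      rw [(sig_per _ (fS_per hS (p * K)) y hl).1])
    (by
      intro t _ y _
      unfold ClI
      rw [(sig_perm (shG n (p * K) N) _ (fS_smooth hS _) (LevB_shift hpK hper) y).1])
    (by
      intro t ht t' ht' hne y _ hy hy'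
      obtain ⟨w, hw, hwt⟩ := htt t ht
      obtain ⟨w', hw', hwt'⟩ := htt t' ht'
      obtain ⟨_, g2, _, g4⟩ := hG t ht
      obtain ⟨_, k2, _, k4⟩ := hG t' ht'
      have he : e ≤ |t' - t| := by
        rw [← hwt, ← hwt']
        refine (hTe w w' hw hw').resolve_left ?_
        rw [hwt, hwt']
        exact hne.symm
      obtain ⟨y1, y2⟩ := hy
      obtain ⟨y1', y2'⟩ := hy'
      have e1 : (G₁ t : ℝ) ≤ (sigNeg (hess (fS S (p * K)) y) : ℕ) := by exact_mod_cast y1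
      have e2 : ((sigNeg (hess (fS S (p * K)) y) : ℕ) : ℝ) + 1 < G₂ t := by exact_mod_cast y2
      have e1' : (G₁ t' : ℝ) ≤ (sigNeg (hess (fS S (p * K)) y) : ℕ) := by exact_mod_cast y1'
      have e2' : ((sigNeg (hess (fS S (p * K)) y) : ℕ) : ℝ) + 1 < G₂ t' := by exact_mod_cast y2'
      have e3 : (p : ℝ) * |t' - t| = |(p : ℝ) * (t' + n * K) - p * (t + n * K)| := by
        rw [← abs_of_nonneg hpr, ← abs_mul, abs_of_nonneg hpr]
        congr 1
        ring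
      have e4 : |(p : ℝ) * (t' + n * K) - p * (t + n * K)| ≤ 2 * w₀ := by
        rw [abs_le]
        constructor <;> linarith
      have e5 : (p : ℝ) * e ≤ p * |t' - t| := mul_le_mul_of_nonneg_left he hpr
      linarith)
    ε₀ hε₀
  -- the Hessians
  have hhess : ∀ y, fderiv ℝ (fS S (p * K)) y = 0 → hess f' y = hess (fS S (p * K)) y := by
    intro y hy
    obtain ⟨c, hc⟩ := h7 y hy
    exact (SymC_congr hc).2
  have hZc : ∀ z ∈ W.image (zw f (p * K)), fderiv ℝ (fS S (p * K)) z = 0 := by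
    intro z hz
    refine (hcrit z).2 ⟨z, hz, 0, (Lc n (p * K)).zero_mem, ?_⟩
    funext i
    simp [rl]
  have hCl : ∀ t, ∀ y, fderiv ℝ (fS S (p * K)) y = 0 →
      (ClI (G₁ t) (G₂ t) f' y ↔ ClI (G₁ t) (G₂ t) (fS S (p * K)) y) := by
    intro t y hy
    unfold ClI
    rw [hhess y hy]
  refine ⟨C₀ + tt.card, f', ε, W.image (zw f (p * K)), hZ, h1, h2, h3, ?_, h5, h6, h7, h4, ?_, ?_,
    ?_, ?_, ?_⟩
  · intro y
    have e1 : shp n p K = shG n (p * K) N ^ q := by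
      rw [← Pool.Agent.H45.AC.shG_pow, ← hK, Pool.Agent.H45.AC.shG_eq]
    rw [e1]
    exact LevB_pow h3 q y
  · intro t ht
    obtain ⟨C, hA', hcl⟩ := hadm t ht
    refine ⟨⟨h1, h2, ?_, ?_, fun y => (h6 y).trans (hcrit y), hA'.inj, ?_⟩, ?_⟩
    · intro y
      have e1 : shp n p K = shG n (p * K) N ^ q := by
        rw [← Pool.Agent.H45.AC.shG_pow, ← hK, Pool.Agent.H45.AC.shG_eq]
      rw [e1]
      exact LevB_pow h3 q y
    · intro y b
      have a1 := abs_le.1 (hC₀ y b)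
      have a2 := abs_le.1 (h4 y b)
      rw [abs_le]
      constructor <;> linarith [a1.1, a1.2, a2.1, a2.2]
    · intro z hz G hGG
      rw [hhess z (hZc z hz)]
      exact hA'.win z hz G hGG
    · intro z hz z' hz' hI hO
      exact h9 t ht z z' (hZc z hz) (hZc z' hz') ((hCl t z (hZc z hz)).1 hI)
        (fun h => hO ((hCl t z' (hZc z' hz')).2 h))
  · intro w hw
    rw [hhess _ (hcr w hw), fS_sigNeg hS]
  · intro t ht w hw
    obtain ⟨C, _, hcl⟩ := hadm t ht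
    exact (hCl t _ (hcr w (hfix w hw))).trans (hcl w hw)
  · intro t ht w hw hwt
    obtain ⟨C, _, hcl⟩ := hadm t ht
    exact h8 t ht _ (hcr w (hfix w hw)) ((hcl w hw).2 hwt)
  · intro w w' hw hw' hwt hne
    obtain ⟨C, _, hcl⟩ := hadm (T w) hwt
    exact h9 (T w) hwt _ _ (hcr w (hfix w hw)) (hcr w' (hfix w' hw')) ((hcl w hw).2 rfl)
      (fun h => hne ((hcl w' hw').1 h))

end Pool.Agent.H75.TH
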