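import Pool.Agent.H45.AC.PadA
import Pool.Agent.H45.AC.PadI

/-!
# Project TH: the comparison functions
-/

set_option autoImplicit false

open Module QuadraticForm Filter Topology
open Pool.Agent.H47.QG (Pt action flw oseq Gen ind hess Zn MeanIdx)
open Pool.Agent.H47.ST
open Pool.Agent.H45.AC (av padS padf)

namespace Pool.Agent.H75.TH

variable {n : ℕ}

/-- the sup norm distance, without the factor `1` -/
theorem PadB_sup {S : ℕ → Pt n → ℝ} {B : ℝ} (hB : ∀ j z, |S j z| ≤ B) {N p m : ℕ}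
    (hmp : m ≤ p) : ∀ K : ℕ, K = 1 * (p * N) → ∀ [NeZero K] (y : Iz n K → ℝ),
    |fS (padS S (p * N) (m * N)) K y - fS S K y| ≤ ((p : ℝ) - m) * N * B := by
  intro K hK _ y
  subst hK
  have h := Pool.Agent.H45.AC.pad_sup hB hmp (m := 1) (N := N) y
  refine h.trans (le_of_eq ?_)
  rw [Nat.cast_sub hmp, Nat.cast_one]
  ring

/-- **The comparison function of the level `m ≤ p`**: `g = fS (padS S (p * N) (m * N)) (p * N)`. -/
theorem pad_adm {S : ℕ → Pt n → ℝ} {f : ℕ → Pt n → Pt n} (hS : ∀ j, Gen (S j) (f j)) {N : ℕ}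
    [NeZero N] (hper : ∀ j, S (j + N) = S j) (hfper : ∀ j, f (j + N) = f j) {B : ℝ}
    (hB : ∀ j z, |S j z| ≤ B) {p m : ℕ} [NeZero (p * N)] (hm0 : 0 < m) (hmp : m ≤ p)
    (W : Finset (Pt n)) (hW : ∀ w, flw f (m * N) w = w ↔ ∃ w' ∈ W, w - w' ∈ Zn n)
    (hWd : ∀ w ∈ W, ∀ w' ∈ W, w - w' ∈ Zn n → w = w') :
    ∃ (g : (Iz n (p * N) → ℝ) → ℝ) (Z : Finset (Iz n (p * N) → ℝ)) (C : ℝ), ContDiff ℝ 2 g ∧
      PerL (Lc n (p * N)) g ∧
      (∀ y b, |fderiv ℝ g y (Pi.single b 1) - DK n (p * N) y b| ≤ C) ∧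
      (∀ y, fderiv ℝ g y = 0 ↔ ∃ z ∈ Z, ∃ l ∈ Lc n (p * N), y = z + rl l) ∧
      (∀ z ∈ Z, ∀ z' ∈ Z, ∀ l ∈ Lc n (p * N), z' = z + rl l → z' = z) ∧
      (∀ y, |g y - fS S (p * N) y| ≤ ((p : ℝ) - m) * N * B) ∧
      ∀ z ∈ Z, ∃ w, flw f (m * N) w = w ∧ g z = av S f (m * N) w ∧
        sigNeg (hess g z) = ind S f (m * N) w + n * ((p - m) * N) ∧
        Fintype.card (Iz n (p * N)) ≤ sigNeg (hess g z) + sigPos (hess g z) + 2 * n := by
  have hN : 0 < N := Nat.pos_of_ne_zero (NeZero.ne N)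
  have hS' := Pool.Agent.H45.AC.pad_gen hS (p * N) (m * N)
  have hflw : ∀ w, flw (padf f (p * N) (m * N)) (p * N) w = flw f (m * N) w := by
    intro w
    have h := Pool.Agent.H45.AC.pad_flw hfper hmp 1 w
    rw [one_mul, one_mul] at h
    exact h
  have hW' : ∀ w, flw (padf f (p * N) (m * N)) (p * N) w = w ↔ ∃ w' ∈ W, w - w' ∈ Zn n := by
    intro w
    rw [hflw, hW]
  obtain ⟨C, hC⟩ := fS_grad hS' (p * N)
  have hZ : ∀ z, z ∈ W.image (zw (padf f (p * N) (m * N)) (p * N)) ↔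
      ∃ w ∈ W, zw (padf f (p * N) (m * N)) (p * N) w = z := fun z => Finset.mem_image
  refine ⟨fS (padS S (p * N) (m * N)) (p * N), W.image (zw (padf f (p * N) (m * N)) (p * N)), C,
    fS_smooth hS' _, fS_per hS' _, hC, GrowA_crit hS' (p * N) W hW' _ hZ, ?_,
    fun y => PadB_sup hB hmp (p * N) (one_mul _).symm y, ?_⟩
  · intro z hz z' hz' l hl he
    obtain ⟨w, hw, rfl⟩ := Finset.mem_image.1 hz
    obtain ⟨w', hw', rfl⟩ := Finset.mem_image.1 hz'
    rw [hWd w' hw' w hw ((zw_add hS' _ w' w).1 ⟨l, hl, he⟩)]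
  · intro z hz
    obtain ⟨w, hw, rfl⟩ := Finset.mem_image.1 hz
    have hwf : flw f (m * N) w = w :=
      (hW w).2 ⟨w, hw, by rw [sub_self]; exact (Zn n).zero_mem⟩
    have hwf1 : flw f (1 * (m * N)) w = w := by rw [one_mul]; exact hwf
    have hind : ind (padS S (p * N) (m * N)) (padf f (p * N) (m * N)) (p * N) w =
        ind S f (m * N) w + n * ((p - m) * N) := by
      have h := Pool.Agent.H45.AC.pad_ind hS hN hper hfper hm0 hmp one_pos hwf1
      rw [one_mul, one_mul, one_mul] at h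
      exact h
    have hav : av (padS S (p * N) (m * N)) (padf f (p * N) (m * N)) (p * N) w =
        av S f (m * N) w := by
      have h := Pool.Agent.H45.AC.pad_av hS hN hper hfper hm0 hmp one_pos hwf1
      rw [one_mul, one_mul] at h
      exact h
    have hsig := fS_sigNeg hS' (p * N) w
    refine ⟨w, hwf, ?_, ?_, ?_⟩
    · rw [← hav, Pool.Agent.H45.AC.av_eq]
      unfold fS
      rw [GrowA_eK_zw]
    · rw [hsig, hind]
    · rw [hsig]
      exact fS_null hS' (p * N) w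

end Pool.Agent.H75.TH
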