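import Mathlib

/-!
# Project TH: choice of the thresholds
-/

set_option autoImplicit false

namespace Pool.Agent.H75.TH

/-- an integer which is not blocked -/
theorem Thr_free (n V : ℕ) (A : Finset ℕ) (hA : A.card ≤ V) (lo : ℕ) :
    ∃ G, lo ≤ G ∧ G ≤ lo + (2 * n + 1) * V ∧ ∀ a ∈ A, ¬ (a < G ∧ G ≤ a + 2 * n + 1) := by
  classical
  have h1 : (A.biUnion fun a => Finset.Icc (a + 1) (a + 2 * n + 1)).card ≤ (2 * n + 1) * V := by
    refine Finset.card_biUnion_le.trans ?_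
    have h2 : ∀ a ∈ A, (Finset.Icc (a + 1) (a + 2 * n + 1)).card ≤ 2 * n + 1 := by
      intro a _
      rw [Nat.card_Icc]
      omega
    refine (Finset.sum_le_card_nsmul _ _ _ h2).trans ?_
    rw [smul_eq_mul, mul_comm]
    exact Nat.mul_le_mul_left _ hA
  have h2 : (A.biUnion fun a => Finset.Icc (a + 1) (a + 2 * n + 1)).card <
      (Finset.Icc lo (lo + (2 * n + 1) * V)).card := by
    rw [Nat.card_Icc]
    omega
  obtain ⟨G, hG, hG'⟩ := Finset.exists_mem_notMem_of_card_lt_card h2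
  rw [Finset.mem_Icc] at hG
  refine ⟨G, hG.1, hG.2, fun a ha h3 => hG' ?_⟩
  rw [Finset.mem_biUnion]
  exact ⟨a, ha, Finset.mem_Icc.2 ⟨h3.1, h3.2⟩⟩

/-- Two thresholds around `x` which are not blocked by the windows `[a, a + 2 n]`, `a ∈ A`. -/
theorem exists_thr (n V : ℕ) (A : Finset ℕ) (hA : A.card ≤ V) (x : ℝ) (hx : 0 ≤ x) :
    ∃ G₁ G₂ : ℕ, (G₁ = 0 ∨ (G₁ : ℝ) ≤ x - 2 * n) ∧ x - 2 * n - (2 * n + 1) * (V + 2) ≤ G₁ ∧
      x + 4 * n + 1 < G₂ ∧ (G₂ : ℝ) ≤ x + 4 * n + 2 + (2 * n + 1) * (V + 2) ∧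
      ∀ a ∈ A, ∀ G, (G = G₁ ∨ G = G₂) → ¬ (a < G ∧ G ≤ a + 2 * n + 1) := by
  have hn : (0 : ℝ) ≤ n := Nat.cast_nonneg n
  have hV : (0 : ℝ) ≤ V := Nat.cast_nonneg V
  have hz : 0 ≤ x + 4 * n + 1 := by linarith
  obtain ⟨G₂, h4, h5, h6⟩ := Thr_free n V A hA (⌊x + 4 * n + 1⌋₊ + 1)
  have e3 := Nat.lt_floor_add_one (x + 4 * n + 1)
  have e4 := Nat.floor_le hz
  have f4 : ((⌊x + 4 * n + 1⌋₊ : ℕ) : ℝ) + 1 ≤ G₂ := by exact_mod_cast h4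
  have f5 : (G₂ : ℝ) ≤ (⌊x + 4 * n + 1⌋₊ : ℕ) + 1 + (2 * n + 1) * V := by exact_mod_cast h5
  have hr : (2 * (n : ℝ) + 1) * (V + 2) = (2 * n + 1) * V + 4 * n + 2 := by ring
  rcases lt_or_ge (x - 2 * n - (2 * n + 1) * (V + 2)) 0 with hy | hy
  · refine ⟨0, G₂, Or.inl rfl, ?_, ?_, ?_, ?_⟩
    · rw [Nat.cast_zero]
      exact hy.le
    · linarith
    · linarith
    · rintro a ha G (rfl | rfl)
      · omega
      · exact h6 a ha
  · obtain ⟨G₁, h1, h2, h3⟩ := Thr_free n V A hA ⌈x - 2 * n - (2 * n + 1) * (V + 2)⌉₊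
    have e1 := Nat.le_ceil (x - 2 * n - (2 * n + 1) * (V + 2))
    have e2 := Nat.ceil_lt_add_one hy
    have f1 : ((⌈x - 2 * n - (2 * n + 1) * (V + 2)⌉₊ : ℕ) : ℝ) ≤ G₁ := by exact_mod_cast h1
    have f2 : (G₁ : ℝ) ≤ (⌈x - 2 * n - (2 * n + 1) * (V + 2)⌉₊ : ℕ) + (2 * n + 1) * V := by
      exact_mod_cast h2
    refine ⟨G₁, G₂, Or.inr ?_, ?_, ?_, ?_, ?_⟩
    · linarith
    · linarith
    · linarith
    · linarith
    · rintro a ha G (rfl | rfl)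
      · exact h3 a ha
      · exact h6 a ha

end Pool.Agent.H75.TH
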