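import Pool.Agent.H75.TH.Core
import Pool.Agent.H75.TH.LevA
import Pool.Agent.H75.TH.LevB
import Pool.Agent.H75.TH.PadB
import Pool.Agent.H75.TH.FoldW
import Pool.Agent.H75.TH.Thr

/-!
# Project TH: the key property of a prime level
-/

set_option autoImplicit false

open Module QuadraticForm Filter Topology
open Pool.Agent.H47.QG (Pt action flw oseq Gen ind hess Zn MeanIdx)
open Pool.Agent.H47.ST
open Pool.Agent.H45.AC (Adm ClI SepI shG av)

namespace Pool.Agent.H75.TH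

variable {n : ℕ}

theorem LevP_unique {S : ℕ → Pt n → ℝ} {f : ℕ → Pt n → Pt n} {K : ℕ} {w : Pt n} {t t' : ℝ}
    (h : MeanIdx S f K w t) (h' : MeanIdx S f K w t') : t = t' := by
  have := tendsto_nhds_unique h h'
  linarith

theorem LevP_fix_tr {S : ℕ → Pt n → ℝ} {f : ℕ → Pt n → Pt n} (hS : ∀ j, Gen (S j) (f j)) (K : ℕ)
    {w w' : Pt n} (hw : flw f K w = w) (h : w - w' ∈ Zn n) : flw f K w' = w' := by
  have h3 := Pool.Agent.H47.QG.flw_add_int hS K w (w' - w)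
    (by rw [← neg_sub]; exact (Zn n).neg_mem h)
  rw [add_sub_cancel, hw, add_sub_cancel] at h3
  exact h3

/-- the value of a periodic function at corresponding points -/
theorem LevP_val {S : ℕ → Pt n → ℝ} {f : ℕ → Pt n → Pt n} (hS : ∀ j, Gen (S j) (f j)) (K : ℕ)
    [NeZero K] {g : (Iz n K → ℝ) → ℝ} (hg : PerL (Lc n K) g) {w w' : Pt n} (h : w - w' ∈ Zn n) :
    g (zw f K w) = g (zw f K w') ∧ hess g (zw f K w) = hess g (zw f K w') := by
  obtain ⟨l, hl, hl'⟩ := (zw_add hS K w w').2 h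
  rw [hl', hg l hl, (sig_per g hg _ hl).1]
  exact ⟨rfl, rfl⟩

/-- the action is invariant along the orbit -/
theorem LevP_av_map {S : ℕ → Pt n → ℝ} {f : ℕ → Pt n → Pt n} (hS : ∀ j, Gen (S j) (f j)) {N : ℕ}
    (hN : 0 < N) (hper : ∀ j, S (j + N) = S j) (hfper : ∀ j, f (j + N) = f j) (w : Pt n) (m : ℕ)
    (hw : flw f (m * N) w = w) : av S f (m * N) (flw f N w) = av S f (m * N) w := by
  unfold av
  by_cases h : m * N = 0
  · rw [dif_pos h, dif_pos h]
  rw [dif_neg h, dif_neg h]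
  have : NeZero (m * N) := ⟨h⟩
  have hp : 0 < m := Nat.pos_of_ne_zero fun h0 => h (by rw [h0, Nat.zero_mul])
  have hNK : N ≤ m * N := Nat.le_mul_of_pos_left N hp
  have hz : oseq f (m * N) (flw f N w) = Pool.Agent.H47.QG.shiftN n (m * N) N (oseq f (m * N) w) := by
    funext j
    show flw f j (flw f N w) = flw f ((j + Fin.ofNat (m * N) N : Fin (m * N)) : ℕ) w
    rw [← Pool.Agent.H47.QG.IterT_flw_add f N hfper, Fin.val_add]
    have e : ((Fin.ofNat (m * N) N : Fin (m * N)) : ℕ) = N % (m * N) := rfl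
    rw [e, Nat.add_mod_mod]
    by_cases hj : (j : ℕ) + N < m * N
    · rw [Nat.mod_eq_of_lt hj]
    · have hj' : m * N ≤ (j : ℕ) + N := not_lt.1 hj
      have hlt : (j : ℕ) + N - m * N < m * N := by
        have := j.2
        omega
      have e2 : ((j : ℕ) + N) % (m * N) = (j : ℕ) + N - m * N := by
        rw [Nat.mod_eq_sub_mod hj', Nat.mod_eq_of_lt hlt]
      rw [e2]
      have e3 : (j : ℕ) + N = ((j : ℕ) + N - m * N) + m * N := by omega
      conv_lhs => rw [e3]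
      rw [Pool.Agent.H47.QG.IterT_flw_add f (m * N) (Pool.Agent.H47.QG.IterT_per f N m hfper), hw]
  rw [hz]
  exact Pool.Agent.H47.QG.action_shift S m N hper _

theorem LevP_av_translate {S : ℕ → Pt n → ℝ} {f : ℕ → Pt n → Pt n} (hS : ∀ j, Gen (S j) (f j))
    (K : ℕ) (w e : Pt n) (he : e ∈ Zn n) (hw : flw f K w = w) :
    av S f K (w + e) = av S f K w := by
  obtain ⟨a, b, rfl⟩ := he
  unfold av
  by_cases h : K = 0
  · rw [dif_pos h, dif_pos h]
  rw [dif_neg h, dif_neg h]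
  have : NeZero K := ⟨h⟩
  have hz : oseq f K (w + ((fun i => (a i : ℝ)), (fun i => (b i : ℝ)))) =
      oseq f K w + fun _ => ((fun i => (a i : ℝ)), (fun i => (b i : ℝ))) := by
    funext j
    exact Pool.Agent.H47.QG.IterT_flw S f hS a b w j
  rw [hz, Pool.Agent.H47.QG.IterT_action S f hS]

theorem LevP_per {S : ℕ → Pt n → ℝ} {N : ℕ} (h : ∀ j, S (j + N) = S j) (q j : ℕ) :
    S (j + q * N) = S j := by
  induction q with
  | zero => rw [zero_mul, add_zero]
  | succ m ih => rw [Nat.succ_mul, ← add_assoc, h, ih]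

/-- the orbit of the image of `w` -/
theorem LevP_map {f : ℕ → Pt n → Pt n} {N r L : ℕ} [NeZero L] (hL : L = r * N)
    (hfper : ∀ j, f (j + N) = f j) (w : Pt n) (hw : flw f L w = w) :
    zw f L (flw f N w) = zw f L w ∘ shG n L N := by
  subst hL
  have hp : 0 < r := Nat.pos_of_ne_zero fun h0 => (NeZero.ne (r * N)) (by rw [h0, Nat.zero_mul])
  have hNK : N ≤ r * N := Nat.le_mul_of_pos_left N hp
  have hz : oseq f (r * N) (flw f N w) =
      Pool.Agent.H47.QG.shiftN n (r * N) N (oseq f (r * N) w) := by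
    funext j
    show flw f j (flw f N w) = flw f ((j + Fin.ofNat (r * N) N : Fin (r * N)) : ℕ) w
    rw [← Pool.Agent.H47.QG.IterT_flw_add f N hfper, Fin.val_add]
    have e : ((Fin.ofNat (r * N) N : Fin (r * N)) : ℕ) = N % (r * N) := rfl
    rw [e, Nat.add_mod_mod]
    by_cases hj : (j : ℕ) + N < r * N
    · rw [Nat.mod_eq_of_lt hj]
    · have hj' : r * N ≤ (j : ℕ) + N := not_lt.1 hj
      have hlt : (j : ℕ) + N - r * N < r * N := by
        have := j.2
        omega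
      have e2 : ((j : ℕ) + N) % (r * N) = (j : ℕ) + N - r * N := by
        rw [Nat.mod_eq_sub_mod hj', Nat.mod_eq_of_lt hlt]
      rw [e2]
      have e3 : (j : ℕ) + N = ((j : ℕ) + N - r * N) + r * N := by omega
      conv_lhs => rw [e3]
      rw [Pool.Agent.H47.QG.IterT_flw_add f (r * N)
        (Pool.Agent.H47.QG.IterT_per f N r hfper), hw]
  apply (eK n (r * N)).injective
  rw [ActZ_zw, hz, ← ActZ_zw f (r * N) w]
  rfl

/-- the numerical part: the constants -/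
theorem LevP_const (n V p : ℕ) (e : ℝ) (he : 0 < e) (hp : (48 * n + 18 : ℝ) < p * e)
    (hV : (V : ℝ) < e / (4 * (2 * n + 1)) * p) :
    2 * (6 * n + 2 + (2 * n + 1) * (V + 2) : ℝ) + 4 * n + 1 < p * e := by
  have hn : (0 : ℝ) < 2 * n + 1 := by positivity
  have h1 : (2 * n + 1 : ℝ) * V < e * p / 4 := by
    calc (2 * n + 1 : ℝ) * V < (2 * n + 1) * (e / (4 * (2 * n + 1)) * p) :=
          mul_lt_mul_of_pos_left hV hn
      _ = e * p / 4 := by field_simp
  nlinarith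

/-- **The key property**, for `K = q N`. -/
theorem level_pK {S : ℕ → Pt n → ℝ} {f : ℕ → Pt n → Pt n} (hS : ∀ j, Gen (S j) (f j))
    (hn : 0 < n) {N q K : ℕ} (hK : K = q * N) [NeZero N] [NeZero K]
    (hper : ∀ j, S (j + N) = S j) (hfper : ∀ j, f (j + N) = f j) (hWr : Wrong S f K)
    (hfin : ∀ m : ℕ, 0 < m → ∃ W : Finset (Pt n),
      (∀ w, flw f (m * K) w = w ↔ ∃ w' ∈ W, w - w' ∈ Zn n) ∧
      ∀ w ∈ W, ∀ w' ∈ W, w - w' ∈ Zn n → w = w') :
    ∃ (tt : Finset ℝ) (κ C₀ C₁ c₁ : ℝ), (∀ t ∈ tt, t ≠ 0) ∧ 0 < κ ∧ 0 < C₀ ∧ 0 < C₁ ∧ 0 < c₁ ∧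
      ∀ᶠ p : ℕ in atTop, p.Prime → ∀ V : ℕ,
        (∀ A : Finset ℕ, (∀ a ∈ A, ∃ w, flw f (p * K) w = w ∧ flw f K w ≠ w ∧
          ind S f (p * K) w = a) → A.card ≤ V) →
        c₁ * p ≤ V ∨ ∃ t ∈ tt, ∃ (r : ℕ) (ℓ : Fin r → ℝ), (∀ i, 0 ≤ ℓ i) ∧
          κ * p ≤ ∑ i, ℓ i ∧ ∀ m : ℕ, m.Prime → m ≤ p → ∃ (a : Fin r → Pt n) (u : Pt n → ℝ),
            (∀ w, flw f (m * K) w = w → u (flw f N w) = u w) ∧
            (∀ w, ∀ e ∈ Zn n, flw f (m * K) w = w → u (w + e) = u w) ∧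
            (∀ i, C₀ * ((p : ℝ) - m) < ℓ i → flw f (m * K) (a i) = a i ∧
              |((ind S f (m * K) (a i) : ℝ) - n * (m * K)) - p * t| ≤ C₁ * (V + 1)) ∧
            ∀ i j, C₀ * ((p : ℝ) - m) < ℓ i → C₀ * ((p : ℝ) - m) < ℓ j → i ≠ j →
              u (a i) ≠ u (a j) := by
  classical
  have hKper : ∀ j, S (j + K) = S j := by
    intro j
    rw [hK]
    exact LevP_per hper q j
  have hKfper : ∀ j, f (j + K) = f j := by
    intro j
    rw [hK]
    exact Pool.Agent.H47.QG.IterT_per f N q hfper j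
  obtain ⟨B, hB0, hB⟩ := Pool.Agent.H45.AC.S_bdd hS (Nat.pos_of_ne_zero (NeZero.ne N)) hper
  obtain ⟨W₁, hW₁, hW₁d⟩ := hfin 1 one_pos
  have hW₁' : ∀ w, flw f K w = w ↔ ∃ w' ∈ W₁, w - w' ∈ Zn n := by
    intro w
    have := hW₁ w
    rwa [one_mul] at this
  obtain ⟨T, e, κ₀, he, hκ₀, hT, hTe, hT0, hTW, hgap⟩ := lev_data hS hKper hKfper W₁ hW₁'
  have hW₁f : ∀ w ∈ W₁, flw f K w = w := fun w hw =>
    (hW₁' w).2 ⟨w, hw, by rw [sub_self]; exact (Zn n).zero_mem⟩
  set tt : Finset ℝ := (W₁.image T).erase 0 with htt_def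
  have htt : ∀ t ∈ tt, ∃ w, flw f K w = w ∧ T w = t := by
    intro t ht
    obtain ⟨w, hw, rfl⟩ := Finset.mem_image.1 (Finset.mem_of_mem_erase ht)
    exact ⟨w, hW₁f w hw, rfl⟩
  have htt' : ∀ w, flw f K w = w → T w ≠ 0 → T w ∈ tt := by
    intro w hw h0
    obtain ⟨w', hw', he'⟩ := hTW w hw
    refine Finset.mem_erase.2 ⟨h0, ?_⟩
    rw [← he']
    exact Finset.mem_image_of_mem T hw'
  have htte : ∀ t ∈ tt, e ≤ |t| ∧ 0 ≤ t + n * K := by
    intro t ht
    obtain ⟨w, hw, rfl⟩ := htt t ht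
    exact ⟨(hT0 w hw).resolve_left (Finset.ne_of_mem_erase ht), (hT w hw).2.1⟩
  obtain ⟨ε, hε, R₀, q₀, hWr'⟩ := hWr tt.card
  have hnr : (0 : ℝ) ≤ n := Nat.cast_nonneg n
  have hKr : (0 : ℝ) ≤ K := Nat.cast_nonneg K
  have hD : (0 : ℝ) < 2 * n + 1 := by positivity
  refine ⟨tt, κ₀, 2 * K * B + 1, 12 * n + 5, e / (4 * (2 * n + 1)),
    fun t ht => Finset.ne_of_mem_erase ht, hκ₀, by positivity, by positivity, by positivity, ?_⟩
  have hev : ∀ᶠ p : ℕ in atTop, (48 * n + 18 : ℝ) < p * e := by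
    have h1 : Tendsto (fun p : ℕ => (p : ℝ) * e) atTop atTop :=
      Tendsto.atTop_mul_const he tendsto_natCast_atTop_atTop
    exact h1.eventually_gt_atTop _
  filter_upwards [hev, eventually_ge_atTop q₀] with p hpe hpq hpp V hV
  by_cases hc : e / (4 * (2 * n + 1)) * p ≤ V
  · exact Or.inl hc
  push Not at hc
  right
  have hconst := LevP_const n V p e he hpe hc
  set w₀ : ℝ := 6 * n + 2 + (2 * n + 1) * (V + 2) with hw₀
  have hVr : (0 : ℝ) ≤ V := Nat.cast_nonneg V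
  have hw₀0 : 0 ≤ w₀ := by positivity
  haveI : Fact p.Prime := ⟨hpp⟩
  haveI hne : NeZero (p * K) := ⟨Nat.mul_ne_zero hpp.ne_zero (NeZero.ne K)⟩
  have hpr : (0 : ℝ) < p := by exact_mod_cast hpp.pos
  have hp1 : (1 : ℝ) ≤ p := by exact_mod_cast hpp.one_le
  obtain ⟨W, hW, hWd⟩ := hfin p hpp.pos
  have hWf : ∀ w ∈ W, flw f (p * K) w = w := fun w hw =>
    (hW w).2 ⟨w, hw, by rw [sub_self]; exact (Zn n).zero_mem⟩
  have hfixp : ∀ w, flw f K w = w → flw f (p * K) w = w := by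
    intro w hw
    rw [Pool.Agent.H47.QG.flw_mul hKfper]
    exact Function.iterate_fixed hw p
  -- the thresholds
  set A : Finset ℕ := (W.filter (fun w => flw f K w ≠ w)).image (ind S f (p * K)) with hA
  have hAV : A.card ≤ V := hV A (by
    intro a ha
    obtain ⟨w, hw, rfl⟩ := Finset.mem_image.1 ha
    rw [Finset.mem_filter] at hw
    exact ⟨w, hWf w hw.1, hw.2, rfl⟩)
  have hindtr : ∀ w w' : Pt n, w - w' ∈ Zn n → ind S f (p * K) w = ind S f (p * K) w' := by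
    intro w w' h
    rw [← fS_sigNeg hS, ← fS_sigNeg hS, (LevP_val hS (p * K) (fS_per hS (p * K)) h).2]
  have hthr : ∀ t : ℝ, ∃ G : ℕ × ℕ, t ∈ tt → (G.1 = 0 ∨ (G.1 : ℝ) ≤ p * (t + n * K) - 2 * n) ∧
      p * (t + n * K) - w₀ ≤ G.1 ∧ p * (t + n * K) + 4 * n + 1 < G.2 ∧
      (G.2 : ℝ) ≤ p * (t + n * K) + w₀ ∧
      ∀ a ∈ A, ∀ G', (G' = G.1 ∨ G' = G.2) → ¬ (a < G' ∧ G' ≤ a + 2 * n + 1) := by
    intro t
    by_cases ht : t ∈ tt
    · obtain ⟨G₁, G₂, h1, h2, h3, h4, h5⟩ := exists_thr n V A hAV (p * (t + n * K))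
        (mul_nonneg hpr.le (htte t ht).2)
      refine ⟨(G₁, G₂), fun _ => ⟨h1, ?_, h3, ?_, h5⟩⟩
      · rw [hw₀]
        linarith
      · rw [hw₀]
        linarith
    · exact ⟨(0, 0), fun h => absurd h ht⟩
  choose G hG using hthr
  have hAw : ∀ w, flw f (p * K) w = w → flw f K w ≠ w → ∀ t ∈ tt, ∀ G',
      (G' = (G t).1 ∨ G' = (G t).2) →
      ¬ (ind S f (p * K) w < G' ∧ G' ≤ ind S f (p * K) w + 2 * n + 1) := by
    intro w hw hw' t ht G' hG'
    obtain ⟨w₁, hw₁, hww⟩ := (hW w).1 hw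
    refine (hG t ht).2.2.2.2 _ ?_ G' hG'
    rw [hindtr w w₁ hww]
    refine Finset.mem_image_of_mem _ (Finset.mem_filter.2 ⟨hw₁, fun h => hw' ?_⟩)
    exact LevP_fix_tr hS K h (by rw [← neg_sub]; exact (Zn n).neg_mem hww)
  have hε1 : 0 < min ε (1 / 8) := lt_min hε (by norm_num)
  obtain ⟨C, f', ε', Z, hZ, hsm, hpr', hγ, hshp, hsup, hcr, hloc, hgr, hAS, hsn, hcl, hval, hsepv⟩ :=
    lev_pert hS hK hpp hper hfper W hW hWd T e
      (fun w hw => ⟨(hT w hw).1, (hT w hw).2.2 p hpp.pos⟩) hTe tt htt w₀ hconst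
      (fun t => (G t).1) (fun t => (G t).2)
      (fun t ht => ⟨(hG t ht).1, (hG t ht).2.1, (hG t ht).2.2.1, (hG t ht).2.2.2.1⟩) hAw
      (min ε (1 / 8)) hε1
  have hfold : ∀ w, flw f K w = w → zw f (p * K) w = zw f K w ∘ shs n p K := fun w hw =>
    zw_fold p K hKfper w hw
  -- the restriction of `f'`
  have hnear : Near S K tt.card ε (fun y => f' (y ∘ shs n p K) / p) :=
    fold_near hS hpp hKper hKfper f' tt.card ε hsm hpr' hshp hgr
      (fun y => (hsup y).trans ((min_le_left _ _).trans (le_mul_of_one_le_left hε.le hp1)))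
      hcr hloc
  have hsepd : Sepd S f K (fun y => f' (y ∘ shs n p K) / p) := by
    intro w w' t t' hw hw' ht ht' hne
    have e1 : T w = t := LevP_unique (hT w hw).1 ht
    have e2 : T w' = t' := LevP_unique (hT w' hw').1 ht'
    have key : f' (zw f (p * K) w) ≠ f' (zw f (p * K) w') := by
      by_cases h0 : T w = 0
      · have h1 : T w' ≠ 0 := by
          rw [e2]
          rw [e1] at h0
          rw [← h0]
          exact Ne.symm hne
        exact Ne.symm (hsepv w' w hw' hw (htt' w' hw' h1) (by rw [e1, e2]; exact hne))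
      · exact hsepv w w' hw hw' (htt' w hw h0) (by rw [e1, e2]; exact Ne.symm hne)
    rw [hfold w hw, hfold w' hw'] at key
    intro h
    have h2 : f' (zw f K w ∘ shs n p K) / p = f' (zw f K w' ∘ shs n p K) / p := h
    rw [div_left_inj' hpr.ne'] at h2
    exact key h2
  -- the comparison functions
  have hcmp : ∀ m : ℕ, ∃ (g : (Iz n (p * K) → ℝ) → ℝ) (Zm : Finset (Iz n (p * K) → ℝ)) (Cm : ℝ),
      (0 < m ∧ m ≤ p) → (ContDiff ℝ 2 g ∧
      PerL (Lc n (p * K)) g ∧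
      (∀ y b, |fderiv ℝ g y (Pi.single b 1) - DK n (p * K) y b| ≤ Cm) ∧
      (∀ y, fderiv ℝ g y = 0 ↔ ∃ z ∈ Zm, ∃ l ∈ Lc n (p * K), y = z + rl l) ∧
      (∀ z ∈ Zm, ∀ z' ∈ Zm, ∀ l ∈ Lc n (p * K), z' = z + rl l → z' = z) ∧
      (∀ y, |g y - fS S (p * K) y| ≤ ((p : ℝ) - m) * K * B) ∧
      ∀ z ∈ Zm, ∃ w, flw f (m * K) w = w ∧ g z = av S f (m * K) w ∧
        sigNeg (hess g z) = ind S f (m * K) w + n * ((p - m) * K) ∧
        Fintype.card (Iz n (p * K)) ≤ sigNeg (hess g z) + sigPos (hess g z) + 2 * n) := by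
    intro m
    by_cases hm : 0 < m ∧ m ≤ p
    · obtain ⟨Wm, hWm, hWmd⟩ := hfin m hm.1
      obtain ⟨g, Zm, Cm, h⟩ := pad_adm hS hKper hKfper hB hm.1 hm.2 Wm hWm hWmd
      exact ⟨g, Zm, Cm, fun _ => h⟩
    · exact ⟨fun _ => 0, ∅, 0, fun h => absurd h hm⟩
  choose g Zm Cm hcmp using hcmp
  set I : Finset ℕ := (Finset.range p).filter Nat.Prime with hI
  have hIm : ∀ m ∈ I, 0 < m ∧ m ≤ p := by
    intro m hm
    rw [hI, Finset.mem_filter, Finset.mem_range] at hm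
    exact ⟨hm.2.pos, hm.1.le⟩
  obtain ⟨C', hC'⟩ := Finset.exists_le (insert C (I.image Cm))
  have hC1 : C ≤ C' := hC' C (Finset.mem_insert_self _ _)
  have hC2 : ∀ m ∈ I, Cm m ≤ C' := fun m hm =>
    hC' _ (Finset.mem_insert_of_mem (Finset.mem_image_of_mem Cm hm))
  set c : ℕ → ℝ := fun m => ((p : ℝ) - m) * K * B + 1 / 8 with hcdef
  have hcore : ∀ t : ℝ, ∃ R₁ : ℝ, t ∈ tt → ∀ R ≥ R₁, ∀ v κ : ℝ,
      (∃ z ∈ Z, z ∘ shp n p K = z ∧ ClI (G t).1 (G t).2 f' z ∧ f' z = v) →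
      (∀ z ∈ Z, z ∘ shp n p K = z → ClI (G t).1 (G t).2 f' z → f' z ≠ v → κ ≤ |f' z - v|) →
      (∀ b₁ b₂ : ℝ, b₁ < v → v < b₂ →
        (∀ y : Iz n K → ℝ, fderiv ℝ f' (y ∘ shs n p K) = 0 → b₁ ≤ f' (y ∘ shs n p K) →
          f' (y ∘ shs n p K) ≤ b₂ → f' (y ∘ shs n p K) = v) →
        ∃ j, ∃ᶠ M : ℕ in atTop, ¬ HR (ZMod p) (lam (Lc n K) (2 ^ M))
          (Lv (fun t => p * qK n K t) (fun t => p * QK n K t)
            (fun y : Iz n K → ℝ => f' (y ∘ shs n p K)) R R b₂ (2 ^ M))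
          (Lv (fun t => p * qK n K t) (fun t => p * QK n K t)
            (fun y : Iz n K → ℝ => f' (y ∘ shs n p K)) R R b₁ (2 ^ M)) j 0) →
      ∃ (r : ℕ) (d : ℕ → ℝ), (∀ k < r, d (k + 1) < d k) ∧ κ ≤ d 0 - d r ∧
        (∀ k < r, ∃ z ∈ Z, ClI (G t).1 (G t).2 f' z ∧ f' z = d (k + 1)) ∧
        ∀ i ∈ I, ∀ k < r, 2 * c i + 1 / 2 < d k - d (k + 1) →
          ∃ y ∈ Zm i, |g i y - d (k + 1)| ≤ c i + 1 / 4 ∧
            ∃ a, (G t).1 ≤ a + 1 ∧ a + 1 < (G t).2 ∧ sigNeg (hess (g i) y) ≤ a ∧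
              a + sigPos (hess (g i) y) ≤ Fintype.card (Iz n (p * K)) := by
    intro t
    by_cases ht : t ∈ tt
    · obtain ⟨hg1, hg2, hg3, hg4, -⟩ := hG t ht
      obtain ⟨ht1, ht2⟩ := htte t ht
      have hK1 : 1 ≤ p * K := Nat.one_le_iff_ne_zero.2 hne.ne
      have hb : ((n * (p * K - 1) : ℕ) : ℝ) = p * (n * K) - n := by
        rw [Nat.cast_mul, Nat.cast_sub hK1]
        push_cast
        ring
      have h12 : (G t).1 < (G t).2 := by
        have : ((G t).1 : ℝ) < (G t).2 := by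
          rcases hg1 with h | h
          · rw [h, Nat.cast_zero]
            have : 0 ≤ (p : ℝ) * (t + n * K) := mul_nonneg hpr.le ht2
            linarith
          · linarith
        exact_mod_cast this
      have hside : (G t).2 ≤ n * (p * K - 1) ∨ n * (p * K - 1) + 2 * n < (G t).1 := by
        rcases le_abs.1 ht1 with h | h
        · right
          have : ((n * (p * K - 1) + 2 * n : ℕ) : ℝ) < (G t).1 := by
            rw [Nat.cast_add, hb]
            push_cast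
            have h5 : (p : ℝ) * e ≤ p * t := mul_le_mul_of_nonneg_left h hpr.le
            have h6 : (p : ℝ) * (t + n * K) = p * t + p * (n * K) := by ring
            rw [h6] at hg2
            linarith
          exact_mod_cast this
        · left
          have : ((G t).2 : ℝ) ≤ ((n * (p * K - 1) : ℕ) : ℝ) := by
            rw [hb]
            have h5 : (p : ℝ) * e ≤ p * (-t) := mul_le_mul_of_nonneg_left h hpr.le
            have h6 : (p : ℝ) * (t + n * K) = p * t + p * (n * K) := by ring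
            rw [h6] at hg4
            rw [mul_neg] at h5
            linarith
          exact_mod_cast this
      obtain ⟨hAd, hSe⟩ := hAS t ht
      have hAd' : Adm n (p * K) (shp n p K) C' (G t).1 (G t).2 f' Z :=
        { hAd with grad := fun y b => (hAd.grad y b).trans hC1 }
      obtain ⟨R₁, hR₁⟩ := TH_core h12 hside hAd' hSe I g Zm c
        (fun i hi => (hcmp i (hIm i hi)).1) (fun i hi => (hcmp i (hIm i hi)).2.1)
        (fun i hi y b => ((hcmp i (hIm i hi)).2.2.1 y b).trans (hC2 i hi))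
        (fun i hi => (hcmp i (hIm i hi)).2.2.2.1) (fun i hi => (hcmp i (hIm i hi)).2.2.2.2.1)
        (fun i hi y => by
          have h7 := (hcmp i (hIm i hi)).2.2.2.2.2.1 y
          have h8 := (hsup y).trans (min_le_right _ _)
          have h9 : g i y - f' y = (g i y - fS S (p * K) y) + -(f' y - fS S (p * K) y) := by ring
          rw [h9]
          refine (abs_add_le _ _).trans ?_
          rw [abs_neg]
          exact add_le_add h7 h8)
      exact ⟨R₁, fun _ => hR₁⟩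
    · exact ⟨0, fun h => absurd h ht⟩
  choose R₁ hR₁ using hcore
  obtain ⟨R, hR⟩ := Finset.exists_le (insert ((p : ℝ) * R₀) (tt.image R₁))
  have hRp : (p : ℝ) * R₀ ≤ R := hR _ (Finset.mem_insert_self _ _)
  obtain ⟨w, t, hw, ht, ht0, hal⟩ := hWr' p hpq _ hnear hsepd (R / p) (by
    rw [ge_iff_le, le_div_iff₀ hpr, mul_comm]
    exact hRp)
  have hTw : T w = t := LevP_unique (hT w hw).1 ht
  have htT : t ∈ tt := by
    rw [← hTw]
    exact htt' w hw (by rw [hTw]; exact ht0)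
  have hRt : R₁ t ≤ R := hR _ (Finset.mem_insert_of_mem (Finset.mem_image_of_mem R₁ htT))
  have hvw : (p : ℝ) * (f' (zw f K w ∘ shs n p K) / p) = f' (zw f (p * K) w) := by
    rw [hfold w hw]
    field_simp
  have hrep : ∀ w₁, flw f K w₁ = w₁ → ∃ w' ∈ W, w₁ - w' ∈ Zn n ∧ flw f K w' = w' := by
    intro w₁ hw₁
    obtain ⟨w', hw', hww⟩ := (hW w₁).1 (hfixp w₁ hw₁)
    exact ⟨w', hw', hww, LevP_fix_tr hS K hw₁ hww⟩
  obtain ⟨r, d, hd1, hd2, hd3, hd4⟩ := hR₁ t htT R hRt (f' (zw f (p * K) w)) (p * κ₀) (by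
      obtain ⟨w', hw', hww, hfw'⟩ := hrep w hw
      obtain ⟨h1, h2⟩ := LevP_val hS (p * K) hpr' hww
      refine ⟨zw f (p * K) w', (hZ _).2 ⟨w', hw', rfl⟩, ?_, ?_, h1.symm⟩
      · rw [hfold w' hfw']
        exact (shp_fix _).2 ⟨_, rfl⟩
      · have h3 := (hcl t htT w hw).2 hTw
        unfold ClI at h3 ⊢
        rwa [h2] at h3)
    (by
      intro z hz hzs hzI hzv
      obtain ⟨y, rfl⟩ := (shp_fix z).1 hzs
      have hcy : fderiv ℝ (fS S (p * K)) (y ∘ shs n p K) = 0 := by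
        rw [← hcr]
        obtain ⟨hAd, -⟩ := hAS t htT
        exact (hAd.crit _).2 ⟨_, hz, 0, (Lc n (p * K)).zero_mem, by rw [Win_rl_zero, add_zero]⟩
      obtain ⟨w₂, hw₂, hw₂p, -, hyw⟩ := GrowA_fold hS hpp.two_le hKfper y hcy
      rw [hyw] at hzI hzv ⊢
      have hT2 : T w₂ = t := (hcl t htT w₂ hw₂).1 hzI
      rw [hval t htT w₂ hw₂ hT2, hval t htT w hw hTw, hfold w₂ hw₂, hfold w hw,
        fS_fold p K hKper, fS_fold p K hKper] at hzv ⊢
      have h3 : (p : ℝ) * fS S K (zw f K w₂) + ε' t - (p * fS S K (zw f K w) + ε' t) =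
          p * (fS S K (zw f K w₂) - fS S K (zw f K w)) := by ring
      rw [h3, abs_mul, abs_of_pos hpr]
      refine mul_le_mul_of_nonneg_left (hgap w₂ w hw₂ hw fun h => hzv (by rw [h])) hpr.le)
    (by
      have h := fold_alive hS hKper hKfper f' hcr R _ hal
      rw [hvw] at h
      exact h)
  have hdmono : ∀ j ≤ r, ∀ i ≤ j, d j ≤ d i := by
    intro j
    induction j with
    | zero =>
      intro _ i hi
      obtain rfl : i = 0 := by omega
      exact le_rfl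
    | succ j ih =>
      intro hj i hi
      rcases Nat.lt_or_ge i (j + 1) with h1 | h1
      · exact (hd1 j (by omega)).le.trans (ih (by omega) i (by omega))
      · obtain rfl : i = j + 1 := by omega
        exact le_rfl
  refine ⟨t, htT, r, fun i => d i - d (i + 1), fun i => ?_, ?_, fun m hm hmp => ?_⟩
  · have := hd1 i i.2
    linarith
  · rw [Fin.sum_univ_eq_sum_range (fun i => d i - d (i + 1)) r, Finset.sum_range_sub']
    linarith
  -- the index
  have hidx : ∀ (s : ℕ) (x : ℝ), (s : ℝ) ≤ p * (t + n * K) + w₀ + 2 * n + 1 →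
      p * (t + n * K) - w₀ - 2 * n - 1 ≤ (s : ℝ) → x = (s : ℝ) - p * (t + n * K) →
      |x| ≤ (12 * n + 5) * (V + 1) := by
    intro s x h1 h2 h3
    have h4 : w₀ + 2 * n + 1 ≤ (12 * n + 5) * (V + 1) := by
      rw [hw₀]
      nlinarith
    rw [h3, abs_le]
    constructor <;> linarith
  obtain ⟨hg1, hg2, hg3, hg4, -⟩ := hG t htT
  rcases hmp.lt_or_eq with hlt | rfl
  · -- the levels `m < p`
    have hmI : m ∈ I := by
      rw [hI, Finset.mem_filter, Finset.mem_range]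
      exact ⟨hlt, hm⟩
    have hmp1 : (1 : ℝ) ≤ (p : ℝ) - m := by
      have : (m : ℝ) + 1 ≤ p := by exact_mod_cast hlt
      linarith
    have hex : ∀ i : Fin r, ∃ a : Pt n, (2 * K * B + 1) * ((p : ℝ) - m) < d i - d (i + 1) →
        (flw f (m * K) a = a ∧
          |((ind S f (m * K) a : ℝ) - n * (m * K)) - p * t| ≤ (12 * n + 5) * (V + 1)) ∧
        2 * c m + 1 / 2 < d i - d (i + 1) ∧ |av S f (m * K) a - d (i + 1)| ≤ c m + 1 / 4 := by
      intro i
      by_cases hi : (2 * K * B + 1) * ((p : ℝ) - m) < d i - d (i + 1)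
      · have hci : 2 * c m + 1 / 2 < d i - d (i + 1) := by
          refine lt_of_le_of_lt ?_ hi
          rw [hcdef]
          have : (2 * K * B + 1) * ((p : ℝ) - m) = 2 * (((p : ℝ) - m) * K * B) + (p - m) := by
            ring
          rw [this]
          linarith
        obtain ⟨y, hy, hyv, a, ha1, ha2, ha3, ha4⟩ := hd4 m hmI i i.2 hci
        obtain ⟨w₁, hw₁, hgw, hsg, hnl⟩ := (hcmp m (hIm m hmI)).2.2.2.2.2.2 y hy
        refine ⟨w₁, fun _ => ⟨⟨hw₁, ?_⟩, hci, by rw [← hgw]; exact hyv⟩⟩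
        have e1 : ((sigNeg (hess (g m) y) : ℕ) : ℝ) ≤ a := by exact_mod_cast ha3
        have e2 : (a : ℝ) ≤ (sigNeg (hess (g m) y) : ℕ) + 2 * n := by
          have : a ≤ sigNeg (hess (g m) y) + 2 * n := by omega
          exact_mod_cast this
        have e3 : ((G t).1 : ℝ) ≤ a + 1 := by exact_mod_cast ha1
        have e4 : (a : ℝ) + 1 < (G t).2 := by exact_mod_cast ha2
        refine hidx (sigNeg (hess (g m) y)) _ (by linarith) (by linarith) ?_
        rw [hsg]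
        push_cast [Nat.cast_sub hmp]
        ring
      · exact ⟨0, fun h => absurd h hi⟩
    choose a ha using hex
    refine ⟨a, av S f (m * K), ?_, ?_, fun i hi => (ha i hi).1, ?_⟩
    · intro w₁ hw₁
      have e1 : m * K = (m * q) * N := by rw [hK]; ring
      rw [e1] at hw₁ ⊢
      exact LevP_av_map hS (Nat.pos_of_ne_zero (NeZero.ne N)) hper hfper w₁ (m * q)
        hw₁
    · intro w₁ e' he' hw₁
      exact LevP_av_translate hS (m * K) w₁ e' he' hw₁
    · have hlt' : ∀ i j : Fin r, (2 * K * B + 1) * ((p : ℝ) - m) < d i - d (i + 1) →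
          (2 * K * B + 1) * ((p : ℝ) - m) < d j - d (j + 1) → i < j →
          av S f (m * K) (a i) ≠ av S f (m * K) (a j) := by
        intro i j hi hj hij h
        obtain ⟨-, -, h1⟩ := ha i hi
        obtain ⟨-, h2, h3⟩ := ha j hj
        rw [h] at h1
        have h4 : d j ≤ d (i + 1) := hdmono j j.2.le _ (by
          have : (i : ℕ) < j := hij
          omega)
        rw [abs_le] at h1 h3
        linarith [h1.1, h3.2]
      intro i j hi hj hij
      rcases lt_or_gt_of_ne hij with h | h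
      · exact hlt' i j hi hj h
      · exact (hlt' j i hj hi h).symm
  · -- the level `p`
    have hex : ∀ i : Fin r, ∃ a : Pt n, flw f (m * K) a = a ∧
        ClI (G t).1 (G t).2 f' (zw f (m * K) a) ∧ f' (zw f (m * K) a) = d (i + 1) := by
      intro i
      obtain ⟨z, hz, hzI, hzv⟩ := hd3 i i.2
      obtain ⟨w₁, hw₁, rfl⟩ := (hZ z).1 hz
      exact ⟨w₁, hWf w₁ hw₁, hzI, hzv⟩
    choose a ha using hex
    refine ⟨a, fun w₁ => f' (zw f (m * K) w₁), ?_, ?_, fun i _ => ⟨(ha i).1, ?_⟩, ?_⟩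
    · intro w₁ hw₁
      have e1 : m * K = (m * q) * N := by rw [hK]; ring
      show f' (zw f (m * K) (flw f N w₁)) = f' (zw f (m * K) w₁)
      rw [LevP_map e1 hfper w₁ hw₁, hγ]
    · intro w₁ e' he' _
      exact (LevP_val hS (m * K) hpr' (w := w₁ + e') (w' := w₁)
        (by rw [add_sub_cancel_left]; exact he')).1
    · have h1 := (ha i).2.1
      unfold ClI at h1
      rw [hsn (a i) (ha i).1] at h1
      have e1 : ((G t).1 : ℝ) ≤ ind S f (m * K) (a i) := by exact_mod_cast h1.1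
      have e2 : (ind S f (m * K) (a i) : ℝ) + 1 < (G t).2 := by exact_mod_cast h1.2
      refine hidx (ind S f (m * K) (a i)) _ (by linarith) (by linarith) ?_
      ring
    · intro i j _ _ hij h
      have h1 : f' (zw f (m * K) (a i)) = f' (zw f (m * K) (a j)) := h
      rw [(ha i).2.2, (ha j).2.2] at h1
      rcases lt_or_gt_of_ne hij with h2 | h2
      · have h3 : d (j : ℕ) ≤ d (i + 1) := hdmono j j.2.le _ (by
          have : (i : ℕ) < j := h2
          omega)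
        have h4 := hd1 j j.2
        linarith
      · have h3 : d (i : ℕ) ≤ d (j + 1) := hdmono i i.2.le _ (by
          have : (j : ℕ) < i := h2
          omega)
        have h4 := hd1 i i.2
        linarith

/-- **The key property.** -/
theorem level_p {S : ℕ → Pt n → ℝ} {f : ℕ → Pt n → Pt n} (hS : ∀ j, Gen (S j) (f j))
    (hn : 0 < n) {N q : ℕ} [NeZero N] [NeZero (q * N)] (hper : ∀ j, S (j + N) = S j)
    (hfper : ∀ j, f (j + N) = f j) (hWr : Wrong S f (q * N))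
    (hfin : ∀ m : ℕ, 0 < m → ∃ W : Finset (Pt n),
      (∀ w, flw f (m * (q * N)) w = w ↔ ∃ w' ∈ W, w - w' ∈ Zn n) ∧
      ∀ w ∈ W, ∀ w' ∈ W, w - w' ∈ Zn n → w = w') :
    ∃ (tt : Finset ℝ) (κ C₀ C₁ c₁ : ℝ), (∀ t ∈ tt, t ≠ 0) ∧ 0 < κ ∧ 0 < C₀ ∧ 0 < C₁ ∧ 0 < c₁ ∧
      ∀ᶠ p : ℕ in atTop, p.Prime → ∀ V : ℕ,
        (∀ A : Finset ℕ, (∀ a ∈ A, ∃ w, flw f (p * (q * N)) w = w ∧ flw f (q * N) w ≠ w ∧
          ind S f (p * (q * N)) w = a) → A.card ≤ V) →
        c₁ * p ≤ V ∨ ∃ t ∈ tt, ∃ (r : ℕ) (ℓ : Fin r → ℝ), (∀ i, 0 ≤ ℓ i) ∧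
          κ * p ≤ ∑ i, ℓ i ∧ ∀ m : ℕ, m.Prime → m ≤ p → ∃ (a : Fin r → Pt n) (u : Pt n → ℝ),
            (∀ w, flw f (m * (q * N)) w = w → u (flw f N w) = u w) ∧
            (∀ w, ∀ e ∈ Zn n, flw f (m * (q * N)) w = w → u (w + e) = u w) ∧
            (∀ i, C₀ * ((p : ℝ) - m) < ℓ i → flw f (m * (q * N)) (a i) = a i ∧
              |((ind S f (m * (q * N)) (a i) : ℝ) - n * (m * (q * N))) - p * t| ≤
                C₁ * (V + 1)) ∧
            ∀ i j, C₀ * ((p : ℝ) - m) < ℓ i → C₀ * ((p : ℝ) - m) < ℓ j → i ≠ j →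
              u (a i) ≠ u (a j) := by
  have h := level_pK hS hn (K := q * N) rfl hper hfper hWr hfin
  simpa only [Nat.cast_mul] using h

end Pool.Agent.H75.TH
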