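import Pool.Agent.H47.QG.LocN

/-!
# The local index depends only on the function near the point, up to a constant
-/

set_option autoImplicit false

namespace Pool.Agent.H75.TH

open Filter Topology QuadraticForm
open Pool.Agent.H47.QG (hess LocIdx LocN_c1)

variable {E : Type*} [NormedAddCommGroup E] [NormedSpace ℝ E] [FiniteDimensional ℝ E]

theorem LocIdx_congr {A B : E → ℝ} (hA : ContDiff ℝ 2 A) {z : E} {s : ℤ} (hs : LocIdx A z s)
    {c : ℝ} (h : ∀ᶠ x in 𝓝 z, B x = A x + c) : LocIdx B z s := by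
  obtain ⟨r, hr, hcrit, δ, hδ, hX⟩ := hs
  obtain ⟨ρ, hρ, hρ'⟩ := Metric.eventually_nhds_iff_ball.1 h
  have hGc : Continuous (fderiv ℝ A) := (LocN_c1 A hA).continuous
  -- the derivatives near `z`
  have h1 : ∀ y ∈ Metric.ball z ρ, fderiv ℝ B y = fderiv ℝ A y := by
    intro y hy
    have h2 : B =ᶠ[𝓝 y] fun x => A x + c := by
      filter_upwards [Metric.isOpen_ball.mem_nhds hy] with x hx
      exact hρ' x hx
    rw [h2.fderiv_eq, fderiv_add_const]
  have h2 : ∀ y ∈ Metric.ball z ρ, fderiv ℝ (fderiv ℝ B) y = fderiv ℝ (fderiv ℝ A) y := by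
    intro y hy
    have h3 : fderiv ℝ B =ᶠ[𝓝 y] fderiv ℝ A := by
      filter_upwards [Metric.isOpen_ball.mem_nhds hy] with x hx
      exact h1 x hx
    exact h3.fderiv_eq
  have h3 : ∀ y ∈ Metric.ball z ρ, hess B y = hess A y := by
    intro y hy
    ext v
    rw [Pool.Agent.H47.QG.hess_apply, Pool.Agent.H47.QG.hess_apply, h2 y hy]
  set r' : ℝ := min r (ρ / 2) with hr'def
  have hr' : 0 < r' := lt_min hr (half_pos hρ)
  have hr'r : r' ≤ r := min_le_left _ _
  have hr'ρ : r' < ρ := (min_le_right _ _).trans_lt (by linarith)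
  have hsub : Metric.closedBall z r' ⊆ Metric.ball z ρ := Metric.closedBall_subset_ball hr'ρ
  -- a lower bound for the derivative away from `z`
  obtain ⟨m, hm0, hm1⟩ : ∃ m > 0, ∀ x ∈ Metric.ball z r, ‖fderiv ℝ A x‖ < m →
      x ∈ Metric.ball z r' := by
    have hK : IsCompact (Metric.closedBall z r \ Metric.ball z r') :=
      (isCompact_closedBall z r).diff Metric.isOpen_ball
    rcases (Metric.closedBall z r \ Metric.ball z r').eq_empty_or_nonempty with hem | hne
    · refine ⟨1, one_pos, fun x hx _ => ?_⟩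
      by_contra hcon
      have : x ∈ Metric.closedBall z r \ Metric.ball z r' :=
        ⟨Metric.ball_subset_closedBall hx, hcon⟩
      rw [hem] at this
      exact this
    · obtain ⟨x0, hx0, hmin⟩ := hK.exists_isMinOn hne (f := fun x => ‖fderiv ℝ A x‖)
        hGc.norm.continuousOn
      have hpos : 0 < ‖fderiv ℝ A x0‖ := by
        rw [norm_pos_iff]
        intro h0
        apply hx0.2
        rw [hcrit x0 hx0.1 h0]
        exact Metric.mem_ball_self hr'
      refine ⟨‖fderiv ℝ A x0‖, hpos, fun x hx hlt => ?_⟩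
      by_contra hcon
      exact absurd hlt (not_lt.2 (hmin ⟨Metric.ball_subset_closedBall hx, hcon⟩))
  refine ⟨r', hr', fun y hy hy0 => ?_, min δ m, lt_min hδ hm0, fun a ha hreg => ?_⟩
  · rw [h1 y (hsub hy)] at hy0
    exact hcrit y (Metric.closedBall_subset_closedBall hr'r hy) hy0
  · have hball : ∀ y, y ∈ Metric.ball z r' → y ∈ Metric.ball z ρ := fun y hy =>
      hsub (Metric.ball_subset_closedBall hy)
    have hin : ∀ y ∈ Metric.ball z r, fderiv ℝ A y = a → y ∈ Metric.ball z r' := by
      intro y hy hya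
      apply hm1 y hy
      rw [hya]
      exact ha.trans_le (min_le_right _ _)
    obtain ⟨X, hX1, hX2⟩ := hX a (ha.trans_le (min_le_left _ _)) (by
      intro y hy hya v hv
      have hy' := hin y hy hya
      refine hreg y hy' ?_ v ?_
      · rw [h1 y (hball y hy'), hya]
      · rw [h2 y (hball y hy'), hv])
    refine ⟨X, fun y => ?_, ?_⟩
    · rw [hX1]
      constructor
      · rintro ⟨hy, hya⟩
        have hy' := hin y hy hya
        exact ⟨hy', by rw [h1 y (hball y hy'), hya]⟩
      · rintro ⟨hy, hya⟩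
        refine ⟨Metric.ball_subset_ball hr'r hy, ?_⟩
        rw [← h1 y (hball y hy), hya]
    · rw [← hX2]
      refine Finset.sum_congr rfl fun y hy => ?_
      obtain ⟨hy1, hy2⟩ := (hX1 y).1 hy
      rw [h3 y (hball y (hin y hy1 hy2))]

omit [FiniteDimensional ℝ E] in
/-- the local index of a function which is invariant under a translation -/
theorem LocIdx_shift {A : E → ℝ} {v z : E} (hp : ∀ y, A (y + v) = A y) {s : ℤ}
    (h : LocIdx A (z + v) s) : LocIdx A z s := by
  classical
  obtain ⟨r, hr, hcrit, δ, hδ, hX⟩ := h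
  have h1 : ∀ y, fderiv ℝ A (y + v) = fderiv ℝ A y := by
    intro y
    have h := fderiv_comp_add_right (𝕜 := ℝ) (f := A) (x := y) v
    rw [← h]
    congr 1
    funext x
    exact hp x
  have h2 : ∀ y, fderiv ℝ (fderiv ℝ A) (y + v) = fderiv ℝ (fderiv ℝ A) y := by
    intro y
    have h := fderiv_comp_add_right (𝕜 := ℝ) (f := fderiv ℝ A) (x := y) v
    rw [← h]
    congr 1
    funext x
    exact h1 x
  have h3 : ∀ y, hess A (y + v) = hess A y := by
    intro y
    ext u
    rw [Pool.Agent.H47.QG.hess_apply, Pool.Agent.H47.QG.hess_apply, h2 y]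
  have hd : ∀ y, dist (y + v) (z + v) = dist y z := fun y => dist_add_right y z v
  have hd' : ∀ y, dist (y - v) z = dist y (z + v) := by
    intro y
    rw [← hd (y - v), sub_add_cancel]
  refine ⟨r, hr, fun y hy hy0 => ?_, δ, hδ, fun a ha hreg => ?_⟩
  · have h4 := hcrit (y + v) (by rw [Metric.mem_closedBall, hd]; exact hy) (by rw [h1, hy0])
    exact add_right_cancel h4
  · obtain ⟨X, hX1, hX2⟩ := hX a ha (by
      intro y hy hya u hu
      refine hreg (y - v) ?_ ?_ u ?_
      · rw [Metric.mem_ball, hd']; exact hy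
      · rw [← h1 (y - v), sub_add_cancel, hya]
      · rw [← h2 (y - v), sub_add_cancel, hu])
    refine ⟨X.image fun y => y - v, fun y => ?_, ?_⟩
    · rw [Finset.mem_image]
      constructor
      · rintro ⟨x, hx, rfl⟩
        obtain ⟨hx1, hx2⟩ := (hX1 x).1 hx
        refine ⟨by rw [Metric.mem_ball, hd']; exact hx1, ?_⟩
        rw [← h1 (x - v), sub_add_cancel, hx2]
      · rintro ⟨hy, hya⟩
        refine ⟨y + v, (hX1 _).2 ⟨by rw [Metric.mem_ball, hd]; exact hy, by rw [h1, hya]⟩, ?_⟩
        rw [add_sub_cancel_right]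
    · rw [← hX2, Finset.sum_image fun x _ y _ hxy => sub_left_injective hxy]
      refine Finset.sum_congr rfl fun y _ => ?_
      rw [← h3 (y - v), sub_add_cancel]

end Pool.Agent.H75.TH
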