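import Pool.Agent.H75.TH.LevP
import Pool.Agent.H75.TH.Brid

/-!
# Project TH: growth of the number of periodic orbits with exponent `3/2`
-/

set_option autoImplicit false

open Module QuadraticForm Filter Topology Function
open Pool.Agent.H47.QG (Pt action flw oseq Gen ind hess Zn MeanIdx Sys orbs flw_mul flw_add_int
  ind_map ind_translate exists_reps)
open Pool.Agent.H47.ST

namespace Pool.Agent.H75.TH

variable {n : ℕ}

/-- **Growth theorem.** -/
theorem growth_TH {S : ℕ → Pt n → ℝ} {f : ℕ → Pt n → Pt n} (hS : ∀ j, Gen (S j) (f j))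
    (hn : 0 < n) {N : ℕ} (hN : 0 < N) (hper : ∀ j, S (j + N) = S j)
    (hfper : ∀ j, f (j + N) = f j) {X : Type*} {φ : X → X} {π : Pt n → X}
    (hsys : Sys (flw f N) φ π (Zn n)) (q : ℕ) [hqN : NeZero (q * N)]
    (hWr : Wrong S f (q * N)) :
    ∃ A > 0, ∀ᶠ T : ℝ in atTop,
      ENNReal.ofReal (A * T ^ (3 / 2 : ℝ) / (Real.log T) ^ (3 / 2 : ℝ)) ≤
        ((orbs φ T).encard : ENNReal) := by
  classical
  haveI : NeZero N := ⟨hN.ne'⟩
  have hq : 0 < q := Nat.pos_of_ne_zero (fun h0 => hqN.out (by rw [h0, zero_mul]))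
  have hit : ∀ (m : ℕ) (w : Pt n), flw f (m * (q * N)) w = (flw f N)^[q * m] w := by
    intro m w
    have e1 : m * (q * N) = (q * m) * N := by ring
    rw [e1, flw_mul hfper]
  have hit1 : ∀ w : Pt n, flw f (q * N) w = (flw f N)^[q] w := fun w => flw_mul hfper q w
  have hiso : ∀ (m : ℕ) (w e : Pt n), e ∈ Zn n → (flw f N)^[m] (w + e) = (flw f N)^[m] w + e := by
    intro m w e he
    rw [← flw_mul hfper, ← flw_mul hfper, flw_add_int hS _ _ _ he]
  have hfixA : ∀ m : ℕ, ∀ w ∈ {w : Pt n | (flw f N)^[m] w = w}, ∀ e ∈ Zn n,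
      w + e ∈ {w : Pt n | (flw f N)^[m] w = w} := by
    intro m w hw e he
    change (flw f N)^[m] (w + e) = w + e
    rw [hiso m w e he]
    rw [show (flw f N)^[m] w = w from hw]
  have hvmap : ∀ m w, (flw f N)^[q * m] w = w →
      ind S f (m * (q * N)) (flw f N w) = ind S f (m * (q * N)) w := by
    intro m w hw
    have e1 : m * (q * N) = (m * q) * N := by ring
    rw [e1]
    refine ind_map S f hS N hN hper hfper w (m * q) ?_
    rw [← e1, hit]; exact hw
  have hvtr : ∀ m w, ∀ e ∈ Zn n, ind S f (m * (q * N)) (w + e) = ind S f (m * (q * N)) w := by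
    rintro m w _ ⟨a, b, rfl⟩
    exact ind_translate S f hS _ w a b
  let idx : ℕ → Pt n → ℝ := fun m w => (ind S f (m * (q * N)) w : ℝ) - n * (m * (q * N))
  have hi : ∀ m w, (flw f N)^[q * m] w = w → idx m (flw f N w) = idx m w := by
    intro m w hw
    simp only [idx, hvmap m w hw]
  have hiΛ : ∀ m w, ∀ e ∈ Zn n, (flw f N)^[q * m] w = w → idx m (w + e) = idx m w := by
    intro m w e he _
    simp only [idx, hvtr m w e he]
  by_cases hfin : ∀ m, 0 < m → (π '' {w | (flw f N)^[q * m] w = w}).Finite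
  swap
  · exact bridge hsys q hq idx hi hiΛ ∅ (fun t ht => absurd ht (Finset.notMem_empty t)) 1 1 1 1
      one_pos one_pos one_pos one_pos (fun h => absurd h hfin)
  obtain ⟨tt, κ, C₀, C₁, c₁, htt, hκ, hC₀, hC₁, hc₁, hlev⟩ := level_p hS hn hper hfper hWr
    (fun m hm => by
      obtain ⟨W, -, hW, hWd⟩ := exists_reps hsys.ker {w | (flw f N)^[q * m] w = w}
        (hfixA (q * m)) (hfin m hm) ∅ (fun c hc => absurd hc (Finset.notMem_empty c))
        (fun c hc => absurd hc (Finset.notMem_empty c))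
      exact ⟨W, fun w => by rw [hit]; exact hW w, hWd⟩)
  refine bridge hsys q hq idx hi hiΛ tt htt κ C₀ C₁ c₁ hκ hC₀ hC₁ hc₁ (fun _ => ?_)
  filter_upwards [hlev] with p hp hpp
  have hV : ∀ A : Finset ℕ, (∀ a ∈ A, ∃ w, flw f (p * (q * N)) w = w ∧ flw f (q * N) w ≠ w ∧
      ind S f (p * (q * N)) w = a) → A.card ≤ (prim (flw f N) φ π q p).ncard := by
    intro A hA
    refine prim_values hsys q p (fun w => ind S f (p * (q * N)) w) (hvmap p)
      (fun w e he _ => hvtr p w e he) hq hpp.pos (hfin p hpp.pos) A (fun a ha => ?_)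
    obtain ⟨w, h1, h2, h3⟩ := hA a ha
    exact ⟨w, by rw [← hit]; exact h1, by rw [← hit1]; exact h2, h3⟩
  rcases hp hpp _ hV with h1 | ⟨t, ht, r, ℓ, h1, h2, h3⟩
  · exact Or.inl h1
  · refine Or.inr ⟨t, ht, r, ℓ, h1, h2, fun m hm hmp => ?_⟩
    obtain ⟨a, u, h4, h5, h6, h7⟩ := h3 m hm hmp
    refine ⟨a, u, fun w hw => h4 w (by rw [hit]; exact hw),
      fun w e he hw => h5 w e he (by rw [hit]; exact hw), fun i hi => ?_, h7⟩
    obtain ⟨h8, h9⟩ := h6 i hi
    exact ⟨by rw [← hit]; exact h8, h9⟩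

end Pool.Agent.H75.TH
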