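import Pool.Agent.H45.AC.Sep2

/-!
# Project TH: separation of several classes of critical points
-/

set_option autoImplicit false

namespace Pool.Agent.H75.TH

open Filter Topology
open Pool.Agent.H47.ST

/-- a positive lower bound of the nonzero elements of a finite set -/
theorem Msep_gap (S : Finset ℝ) : ∃ δ : ℝ, 0 < δ ∧ ∀ x ∈ S, x ≠ 0 → δ ≤ |x| := by
  classical
  induction S using Finset.induction_on with
  | empty => exact ⟨1, one_pos, fun x hx => absurd hx (Finset.notMem_empty x)⟩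
  | insert a S _ ih =>
    obtain ⟨δ, h1, h2⟩ := ih
    by_cases ha : a = 0
    · refine ⟨δ, h1, fun x hx hx0 => ?_⟩
      rcases Finset.mem_insert.1 hx with h | h
      · exact absurd (h.trans ha) hx0
      · exact h2 x h hx0
    · refine ⟨min δ |a|, lt_min h1 (abs_pos.2 ha), fun x hx hx0 => ?_⟩
      rcases Finset.mem_insert.1 hx with h | h
      · rw [h]; exact min_le_right _ _
      · exact (min_le_left _ _).trans (h2 x h hx0)

/-- a positive lower bound of the nonzero differences of finitely many values -/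
theorem Msep_gap2 {α : Type*} (Z : Finset α) (g : α → ℝ) :
    ∃ δ : ℝ, 0 < δ ∧ ∀ z ∈ Z, ∀ z' ∈ Z, g z ≠ g z' → δ ≤ |g z - g z'| := by
  classical
  obtain ⟨δ, h1, h2⟩ := Msep_gap ((Z ×ˢ Z).image fun p => g p.1 - g p.2)
  refine ⟨δ, h1, fun z hz z' hz' hne => h2 _ ?_ (sub_ne_zero.2 hne)⟩
  exact Finset.mem_image.2 ⟨(z, z'), Finset.mem_product.2 ⟨hz, hz'⟩, rfl⟩

/-- `multi_sep` with one more property: the critical points outside all classes keep their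
values. -/
theorem Msep_aux {ι β : Type*} [Fintype ι] [DecidableEq ι] [DecidableEq β] (tt : Finset β)
    (L : AddSubgroup (ι → ℤ)) (π : Equiv.Perm ι)
    (hLpi : ∀ l ∈ L, l ∘ π = l) (f : (ι → ℝ) → ℝ) (hf : ContDiff ℝ 2 f)
    (hfp : PerL L f) (hfT : ∀ y, f (y ∘ π) = f y) (Z : Finset (ι → ℝ))
    (hZ : ∀ y, fderiv ℝ f y = 0 ↔ ∃ z ∈ Z, ∃ l ∈ L, y = z + rl l)
    (P : β → (ι → ℝ) → Prop)
    (hP1 : ∀ t ∈ tt, ∀ y, fderiv ℝ f y = 0 → ∀ l ∈ L, P t (y + rl l) ↔ P t y)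
    (hP2 : ∀ t ∈ tt, ∀ y, fderiv ℝ f y = 0 → (P t (y ∘ π) ↔ P t y))
    (hP3 : ∀ t ∈ tt, ∀ t' ∈ tt, t ≠ t' → ∀ y, fderiv ℝ f y = 0 → P t y → ¬ P t' y)
    (ε₀ : ℝ) (hε₀ : 0 < ε₀) :
    ∃ (f' : (ι → ℝ) → ℝ) (ε : β → ℝ), ContDiff ℝ 2 f' ∧ PerL L f' ∧ (∀ y, f' (y ∘ π) = f' y) ∧
      (∀ y i, |fderiv ℝ f' y (Pi.single i 1) - fderiv ℝ f y (Pi.single i 1)| ≤ tt.card) ∧
      (∀ y, |f' y - f y| ≤ ε₀) ∧
      (∀ y, fderiv ℝ f' y = 0 ↔ fderiv ℝ f y = 0) ∧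
      (∀ y, fderiv ℝ f y = 0 → ∃ c : ℝ, ∀ᶠ x in 𝓝 y, f' x = f x + c) ∧
      (∀ t ∈ tt, ∀ y, fderiv ℝ f y = 0 → P t y → f' y = f y + ε t) ∧
      (∀ y, fderiv ℝ f y = 0 → (∀ t ∈ tt, ¬ P t y) → f' y = f y) ∧
      ∀ t ∈ tt, ∀ y y', fderiv ℝ f y = 0 → fderiv ℝ f y' = 0 → P t y → ¬ P t y' →
        f' y ≠ f' y' := by
  induction tt using Finset.induction_on generalizing ε₀ with
  | empty =>
    refine ⟨f, fun _ => 0, hf, hfp, hfT, fun y i => ?_, fun y => ?_, fun y => Iff.rfl,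
      fun y _ => ⟨0, Eventually.of_forall fun x => (add_zero _).symm⟩,
      fun t ht => absurd ht (Finset.notMem_empty t), fun y _ _ => rfl,
      fun t ht => absurd ht (Finset.notMem_empty t)⟩
    · simp
    · rw [sub_self, abs_zero]; exact hε₀.le
  | insert t₀ tt ht₀ ih =>
    obtain ⟨f', ε, h1, h2, h3, h4, h5, h6, h7, h8, h9, h10⟩ := ih
      (fun t ht => hP1 t (Finset.mem_insert_of_mem ht))
      (fun t ht => hP2 t (Finset.mem_insert_of_mem ht))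
      (fun t ht t' ht' => hP3 t (Finset.mem_insert_of_mem ht) t' (Finset.mem_insert_of_mem ht'))
      (ε₀ / 2) (half_pos hε₀)
    obtain ⟨δ, hδ, hδ'⟩ := Msep_gap2 Z f'
    have hm0 := Finset.mem_insert_self t₀ tt
    -- the differences of the critical values of `f'`
    have hgap : ∀ y y', fderiv ℝ f y = 0 → fderiv ℝ f y' = 0 → f' y ≠ f' y' →
        δ ≤ |f' y - f' y'| := by
      intro y y' hy hy' hne
      obtain ⟨z, hz, l, hl, rfl⟩ := (hZ y).1 hy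
      obtain ⟨z', hz', l', hl', rfl⟩ := (hZ y').1 hy'
      rw [h2 l hl z, h2 l' hl' z'] at hne ⊢
      exact hδ' z hz z' hz' hne
    obtain ⟨f'', ε', k1, k2, k3, k4, k5, k6, k7, k8, k9, k10⟩ :=
      Pool.Agent.H45.AC.separation2 L π hLpi f' h1 h2 h3 Z (fun y => (h6 y).trans (hZ y)) (P t₀)
        (fun y hy => hP1 t₀ hm0 y ((h6 y).1 hy)) (fun y hy => hP2 t₀ hm0 y ((h6 y).1 hy))
        (min (ε₀ / 2) (δ / 3)) (lt_min (half_pos hε₀) (by linarith))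
    refine ⟨f'', Function.update ε t₀ ε', k1, k2, k3, fun y i => ?_, fun y => ?_,
      fun y => (k6 y).trans (h6 y), fun y hy => ?_, fun t ht y hy hPy => ?_, fun y hy hPy => ?_,
      fun t ht y y' hy hy' hPy hPy' => ?_⟩
    · have e1 := abs_le.1 (k4 y i)
      have e2 := abs_le.1 (h4 y i)
      rw [Finset.card_insert_of_notMem ht₀]
      push_cast
      rw [abs_le]
      constructor <;> linarith [e1.1, e1.2, e2.1, e2.2]
    · have e1 := abs_le.1 ((k5 y).trans (min_le_left _ _))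
      have e2 := abs_le.1 (h5 y)
      rw [abs_le]
      constructor <;> linarith [e1.1, e1.2, e2.1, e2.2]
    · obtain ⟨c, hc⟩ := h7 y hy
      obtain ⟨c', hc'⟩ := k7 y ((h6 y).2 hy)
      refine ⟨c + c', ?_⟩
      filter_upwards [hc, hc'] with x hx hx'
      rw [hx', hx, add_assoc]
    · rcases Finset.mem_insert.1 ht with rfl | ht'
      · have e1 : f' y = f y := h9 y hy fun t' ht' =>
          hP3 t hm0 t' (Finset.mem_insert_of_mem ht') (fun h => ht₀ (h ▸ ht')) y hy hPy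
        rw [k8 y ((h6 y).2 hy) hPy, e1, Function.update_self]
      · have hne : t ≠ t₀ := fun h => ht₀ (h ▸ ht')
        have e1 : ¬ P t₀ y := hP3 t ht t₀ hm0 hne y hy hPy
        rw [k9 y ((h6 y).2 hy) e1, h8 t ht' y hy hPy, Function.update_of_ne hne]
    · rw [k9 y ((h6 y).2 hy) (hPy t₀ hm0), h9 y hy fun t ht =>
        hPy t (Finset.mem_insert_of_mem ht)]
    · rcases Finset.mem_insert.1 ht with rfl | ht'
      · exact k10 y y' ((h6 y).2 hy) ((h6 y').2 hy') hPy hPy'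
      · intro heq
        have e1 := hgap y y' hy hy' (h10 t ht' y y' hy hy' hPy hPy')
        have e2 := abs_le.1 ((k5 y).trans (min_le_right _ _))
        have e3 := abs_le.1 ((k5 y').trans (min_le_right _ _))
        have e4 : |f' y - f' y'| ≤ 2 * (δ / 3) := by
          rw [abs_le]
          constructor <;> linarith [e2.1, e2.2, e3.1, e3.2]
        linarith

/-- **Separation of several classes.** Iterate `separation2`. -/
theorem multi_sep {ι β : Type*} [Fintype ι] [DecidableEq ι] (tt : Finset β)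
    (L : AddSubgroup (ι → ℤ)) (π : Equiv.Perm ι)
    (hLpi : ∀ l ∈ L, l ∘ π = l) (f : (ι → ℝ) → ℝ) (hf : ContDiff ℝ 2 f)
    (hfp : PerL L f) (hfT : ∀ y, f (y ∘ π) = f y) (Z : Finset (ι → ℝ))
    (hZ : ∀ y, fderiv ℝ f y = 0 ↔ ∃ z ∈ Z, ∃ l ∈ L, y = z + rl l)
    (P : β → (ι → ℝ) → Prop)
    (hP1 : ∀ t ∈ tt, ∀ y, fderiv ℝ f y = 0 → ∀ l ∈ L, P t (y + rl l) ↔ P t y)
    (hP2 : ∀ t ∈ tt, ∀ y, fderiv ℝ f y = 0 → (P t (y ∘ π) ↔ P t y))
    (hP3 : ∀ t ∈ tt, ∀ t' ∈ tt, t ≠ t' → ∀ y, fderiv ℝ f y = 0 → P t y → ¬ P t' y)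
    (ε₀ : ℝ) (hε₀ : 0 < ε₀) :
    ∃ (f' : (ι → ℝ) → ℝ) (ε : β → ℝ), ContDiff ℝ 2 f' ∧ PerL L f' ∧ (∀ y, f' (y ∘ π) = f' y) ∧
      (∀ y i, |fderiv ℝ f' y (Pi.single i 1) - fderiv ℝ f y (Pi.single i 1)| ≤ tt.card) ∧
      (∀ y, |f' y - f y| ≤ ε₀) ∧
      (∀ y, fderiv ℝ f' y = 0 ↔ fderiv ℝ f y = 0) ∧
      (∀ y, fderiv ℝ f y = 0 → ∃ c : ℝ, ∀ᶠ x in 𝓝 y, f' x = f x + c) ∧
      (∀ t ∈ tt, ∀ y, fderiv ℝ f y = 0 → P t y → f' y = f y + ε t) ∧
      ∀ t ∈ tt, ∀ y y', fderiv ℝ f y = 0 → fderiv ℝ f y' = 0 → P t y → ¬ P t y' →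
        f' y ≠ f' y' := by
  classical
  obtain ⟨f', ε, h1, h2, h3, h4, h5, h6, h7, h8, _, h10⟩ :=
    Msep_aux tt L π hLpi f hf hfp hfT Z hZ P hP1 hP2 hP3 ε₀ hε₀
  exact ⟨f', ε, h1, h2, h3, h4, h5, h6, h7, h8, h10⟩

end Pool.Agent.H75.TH
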