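import Pool.Agent.H47.ST.Win
import Pool.Agent.H47.ST.Sep
import Pool.Agent.H75.TH.Exc
import Pool.Agent.H75.TH.EchZ
import Pool.Agent.H75.TH.LocC
import Pool.Agent.H45.AC.WinE

/-!
# No cancellation between critical points with the same value
-/

set_option autoImplicit false

namespace Pool.Agent.H75.TH

open Filter Topology QuadraticForm
open Pool.Agent.H47.ST Pool.Agent.H45.AC
open Pool.Agent.H47.QG (hess LD LocIdx)

variable {ι : Type*} [Fintype ι] [DecidableEq ι]

/-- an `L`-periodic bump function at the orbit of `z` -/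
theorem NoCan_bump (L : AddSubgroup (ι → ℤ)) (z : ι → ℝ) (r : ℝ) (hr : 0 < r)
    (hd : Disj L {z} r) :
    ∃ χ : (ι → ℝ) → ℝ, ContDiff ℝ 2 χ ∧ PerL L χ ∧ (∀ y, 0 ≤ χ y ∧ χ y ≤ 1) ∧
      (∀ l ∈ L, ∀ y ∈ Metric.ball (z + rl l) (r / 4), χ y = 1) ∧
      ∀ y, (∀ l ∈ L, y ∉ Metric.closedBall (z + rl l) (r / 2)) → ∀ᶠ x in 𝓝 y, χ x = 0 := by
  let β : ℝ → ℝ := fun t => Real.smoothTransition (2 - 16 / r ^ 2 * t ^ 2)
  have hβ : ContDiff ℝ 2 β := Real.smoothTransition.contDiff.comp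
    (contDiff_const.sub (contDiff_const.mul (contDiff_id.pow 2)))
  have hβ1 : ∀ t, |t| ≤ r / 4 → β t = 1 := by
    intro t ht
    apply Real.smoothTransition.one_of_one_le
    have h1 : t ^ 2 ≤ (r / 4) ^ 2 := by
      rw [← sq_abs t]
      exact pow_le_pow_left₀ (abs_nonneg t) ht 2
    have h2 : 16 / r ^ 2 * t ^ 2 ≤ 16 / r ^ 2 * (r / 4) ^ 2 := by gcongr
    have h3 : 16 / r ^ 2 * (r / 4) ^ 2 = 1 := by field_simp; norm_num
    linarith
  have hβ0 : ∀ t, r / 2 < |t| → β t = 0 := by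
    intro t ht
    apply Real.smoothTransition.zero_of_nonpos
    have h1 : (r / 2) ^ 2 ≤ t ^ 2 := by
      rw [← sq_abs t]
      exact pow_le_pow_left₀ (by positivity) ht.le 2
    have h2 : 16 / r ^ 2 * (r / 2) ^ 2 ≤ 16 / r ^ 2 * t ^ 2 := by gcongr
    have h3 : 16 / r ^ 2 * (r / 2) ^ 2 = 4 := by field_simp; norm_num
    linarith
  let k : (ι → ℝ) → (ι → ℝ) → ℝ := fun _ y => ∏ i, β (y i - z i)
  have hk : ∀ w ∈ ({z} : Finset (ι → ℝ)), ContDiff ℝ 2 (k w) := fun _ _ =>
    contDiff_prod fun i _ => hβ.comp ((contDiff_apply ℝ ℝ i).sub contDiff_const)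
  have hk2 : ∀ w ∈ ({z} : Finset (ι → ℝ)), ∀ y, y ∉ Metric.closedBall w (r / 2) →
      k w y = (fun _ => (0 : ℝ)) y := by
    intro w hw y hy
    rw [Finset.mem_singleton] at hw
    subst hw
    rw [Metric.mem_closedBall, dist_pi_le_iff (by positivity)] at hy
    push Not at hy
    obtain ⟨i, hi⟩ := hy
    apply Finset.prod_eq_zero (Finset.mem_univ i)
    apply hβ0
    rwa [Real.dist_eq] at hi
  have hk01 : ∀ w y, 0 ≤ k w y ∧ k w y ≤ 1 := fun w y =>
    ⟨Finset.prod_nonneg fun i _ => Real.smoothTransition.nonneg _,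
      Finset.prod_le_one (fun i _ => Real.smoothTransition.nonneg _)
        fun i _ => Real.smoothTransition.le_one _⟩
  obtain ⟨χ, h1, h2, h3, h4⟩ := glue L 2 (fun _ => (0 : ℝ)) contDiff_const (fun _ _ _ => rfl) {z} r
    hr hd k hk hk2
  refine ⟨χ, h1, h2, fun y => ?_, fun l hl y hy => ?_, fun y hy => h3 y fun w hw l hl => ?_⟩
  · by_cases h : ∃ l ∈ L, y ∈ Metric.closedBall (z + rl l) (r / 2)
    · obtain ⟨l, hl, hy⟩ := h
      rw [h4 z (Finset.mem_singleton_self z) l hl y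
        (Metric.closedBall_subset_ball (by linarith) hy)]
      exact hk01 z (y - rl l)
    · push Not at h
      have h5 := (h3 y fun w hw l hl => by
        rw [Finset.mem_singleton.1 hw]
        exact h l hl).self_of_nhds
      rw [h5]
      exact ⟨le_rfl, zero_le_one⟩
  · rw [h4 z (Finset.mem_singleton_self z) l hl y (Metric.ball_subset_ball (by linarith) hy)]
    apply Finset.prod_eq_one
    intro i _
    apply hβ1
    have h5 := (dist_le_pi_dist y (z + rl l) i).trans hy.le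
    rw [Real.dist_eq] at h5
    have : (y - rl l) i - z i = y i - (z + rl l) i := by
      simp only [Pi.add_apply, Pi.sub_apply]; ring
    rwa [this]
  · rw [Finset.mem_singleton.1 hw]
    exact hy l hl

omit [DecidableEq ι] in
/-- small periodic modifications, constant near the critical point, do not change the critical
points -/
theorem NoCan_pert {L : AddSubgroup (ι → ℤ)} {f : (ι → ℝ) → ℝ} (hf : ContDiff ℝ 2 f)
    (hfp : PerL L f) {z : ι → ℝ} {r ρ : ℝ}
    (hiso : ∀ y ∈ Metric.closedBall z r, fderiv ℝ f y = 0 → y = z) (hρ : 0 < ρ)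
    {χ : (ι → ℝ) → ℝ} (hχ : ContDiff ℝ 2 χ) (hχp : PerL L χ)
    (h0 : ∀ y, (∀ l ∈ L, y ∉ Metric.closedBall (z + rl l) r) → ∀ᶠ x in 𝓝 y, χ x = 0)
    (h1 : ∀ y ∈ Metric.ball z ρ, ∀ᶠ x in 𝓝 y, χ x = χ y) :
    ∀ᶠ ε in 𝓝[>] (0 : ℝ), ∀ y, fderiv ℝ (fun x => f x + ε * χ x) y = 0 ↔ fderiv ℝ f y = 0 := by
  have hfd : Differentiable ℝ f := hf.differentiable (by norm_num)
  have hχd : Differentiable ℝ χ := hχ.differentiable (by norm_num)
  have hcf : Continuous (fderiv ℝ f) := hf.continuous_fderiv (by norm_num)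
  have hcχ : Continuous (fderiv ℝ χ) := hχ.continuous_fderiv (by norm_num)
  obtain ⟨C, hC⟩ := (isCompact_closedBall z r).exists_bound_of_continuousOn hcχ.continuousOn
  obtain ⟨c, hc, hcb⟩ : ∃ c > 0, ∀ y ∈ Metric.closedBall z r, y ∉ Metric.ball z ρ →
      c ≤ ‖fderiv ℝ f y‖ := by
    rcases (Metric.closedBall z r \ Metric.ball z ρ).eq_empty_or_nonempty with he | hne
    · refine ⟨1, one_pos, fun y hy hy' => ?_⟩
      have : y ∈ Metric.closedBall z r \ Metric.ball z ρ := ⟨hy, hy'⟩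
      rw [he] at this
      exact absurd this (Set.notMem_empty _)
    · obtain ⟨y0, hy0, hmin⟩ := ((isCompact_closedBall z r).diff
        Metric.isOpen_ball).exists_isMinOn hne hcf.norm.continuousOn
      refine ⟨‖fderiv ℝ f y0‖, ?_, fun y hy hy' => hmin ⟨hy, hy'⟩⟩
      rw [gt_iff_lt, norm_pos_iff]
      intro h
      apply hy0.2
      rw [hiso y0 hy0.1 h]
      exact Metric.mem_ball_self hρ
  have hev : ∀ᶠ ε in 𝓝[>] (0 : ℝ), ε * C < c := by
    have h2 : Filter.Tendsto (fun ε : ℝ => ε * C) (𝓝 0) (𝓝 0) := by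
      have : Continuous fun ε : ℝ => ε * C := by fun_prop
      simpa using this.tendsto 0
    exact nhdsWithin_le_nhds (h2.eventually (gt_mem_nhds hc))
  have hder : ∀ ε y, fderiv ℝ (fun x => f x + ε * χ x) y = fderiv ℝ f y + ε • fderiv ℝ χ y := by
    intro ε y
    exact ((hfd y).hasFDerivAt.add ((hχd y).hasFDerivAt.const_mul ε)).fderiv
  filter_upwards [hev, self_mem_nhdsWithin] with ε hε hε0 y
  rw [hder]
  have hε0 : 0 < ε := hε0
  by_cases hin : ∃ l ∈ L, y ∈ Metric.closedBall (z + rl l) r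
  · obtain ⟨l, hl, hy⟩ := hin
    have h2 : y - rl l ∈ Metric.closedBall z r := by
      rw [Metric.mem_closedBall, dist_eq_norm] at hy ⊢
      have : y - rl l - z = y - (z + rl l) := by abel
      rwa [this]
    have h3 := Sep_fderiv_per L f hfp l hl (y - rl l)
    have h4 := Sep_fderiv_per L χ hχp l hl (y - rl l)
    rw [sub_add_cancel] at h3 h4
    rw [h3, h4]
    by_cases h5 : y - rl l ∈ Metric.ball z ρ
    · have h6 : χ =ᶠ[𝓝 (y - rl l)] fun _ => χ (y - rl l) := h1 _ h5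
      rw [h6.fderiv_eq]
      simp
    · have h6 := hcb _ h2 h5
      constructor
      · intro h
        exfalso
        have h7 : fderiv ℝ f (y - rl l) = -(ε • fderiv ℝ χ (y - rl l)) :=
          eq_neg_of_add_eq_zero_left h
        rw [h7, norm_neg, norm_smul, Real.norm_eq_abs, abs_of_pos hε0] at h6
        have h8 := mul_le_mul_of_nonneg_left (hC _ h2) hε0.le
        linarith
      · intro h
        rw [h, norm_zero] at h6
        linarith
  · push Not at hin
    have h6 : χ =ᶠ[𝓝 y] fun _ => (0 : ℝ) := h0 y hin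
    rw [h6.fderiv_eq]
    simp

/-- the boundary condition depends only on the function near the boundary -/
theorem NoCan_bd {L : AddSubgroup (ι → ℤ)} {q Q f g : (ι → ℝ) → ℝ} {R a : ℝ}
    (hqp : PerL L q) (hQp : PerL L Q) (hB : Bd q Q R a f) {z : ι → ℝ} {r : ℝ}
    (hin : ∀ y ∈ Metric.closedBall z r, q y < R ∧ -a < Q y)
    (hg : ∀ y, (∀ l ∈ L, y ∉ Metric.closedBall (z + rl l) r) → ∀ᶠ x in 𝓝 y, g x = f x) :
    Bd q Q R a g := by
  intro y hq hQ hy
  have h1 : ∀ l ∈ L, y ∉ Metric.closedBall (z + rl l) r := by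
    intro l hl hyl
    have h2 := hin (y - rl l) (Win_sub_mem hyl)
    rw [Win_shift hqp hl, Win_shift hQp hl] at h2
    rcases hy with hy | hy
    · exact absurd h2.1 (by rw [hy]; exact lt_irrefl _)
    · exact absurd h2.2 (by rw [hy]; exact lt_irrefl _)
  obtain ⟨i, s, h3, h4, h5⟩ := hB y hq hQ hy
  have h6 : g =ᶠ[𝓝 y] f := hg y h1
  exact ⟨i, s, by rw [h6.fderiv_eq]; exact h3, h4, h5⟩

omit [DecidableEq ι] in
theorem NoCan_adj {m : ℕ} (hm : 0 < m) {v w : ι → ℤ} (h : Adj v w) :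
    dist (ps m v) (ps m w) ≤ 1 / m := by
  have hm' : (0 : ℝ) < m := by exact_mod_cast hm
  rw [dist_pi_le_iff (by positivity)]
  intro i
  rw [Real.dist_eq, ps, ps, ← sub_div, abs_div, Nat.abs_cast]
  apply div_le_div_of_nonneg_right _ hm'.le
  have h1 : |v i - w i| ≤ 1 := by
    rw [abs_le]
    rcases h with ⟨h1, h2⟩ | ⟨h1, h2⟩
    · have h3 : v i ≤ w i := h1 i
      have h4 : w i ≤ v i + 1 := h2 i
      constructor <;> linarith
    · have h3 : w i ≤ v i := h1 i
      have h4 : v i ≤ w i + 1 := h2 i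
      constructor <;> linarith
  exact_mod_cast h1

/-- **No cancellation, general form.** All critical points in the band have the same value `v`. If
the band is acyclic then it remains acyclic after raising the value of one critical point `z₀` (and
then the upper part of the band, which contains `z₀` only, is acyclic). -/
theorem nocan_core (F : Type*) [Field F] {L : AddSubgroup (ι → ℤ)} {q Q f : (ι → ℝ) → ℝ}
    {R a α β : ℝ} {Z : Finset (ι → ℝ)} (h : Band L q Q f R a α β Z) {v : ℝ}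
    (hv : ∀ z ∈ Z, f z = v) {z₀ : ι → ℝ} (hz₀ : z₀ ∈ Z) :
    ∃ χ : (ι → ℝ) → ℝ, ContDiff ℝ 2 χ ∧ PerL L χ ∧ (∀ᶠ x in 𝓝 z₀, χ x = 1) ∧
      ∀ᶠ ε in 𝓝[>] (0 : ℝ), Band L q Q (fun x => f x + ε * (2 * χ x)) R a (v + ε) β {z₀} ∧
        (∀ m, Lv q Q (fun x => f x + ε * (2 * χ x)) R a β m = Lv q Q f R a β m) ∧
        ∀ᶠ M : ℕ in atTop,
          (∀ j, HR F (lam L (2 ^ M)) (Lv q Q f R a β (2 ^ M)) (Lv q Q f R a α (2 ^ M)) j 0) →
          ∀ j, HR F (lam L (2 ^ M)) (Lv q Q (fun x => f x + ε * (2 * χ x)) R a β (2 ^ M))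
            (Lv q Q (fun x => f x + ε * (2 * χ x)) R a (v + ε) (2 ^ M)) j 0 := by
  obtain ⟨r, hr, hd, hin⟩ := Win_rad h
  have hiso := Win_unique h hr hd hin z₀ hz₀
  have hin0 := hin z₀ hz₀
  have hd0 : ∀ r' ≤ r, Disj L {z₀} r' := by
    intro r' hr' z hz z' hz' l hl y hy hy'
    rw [Finset.mem_singleton] at hz hz'
    rw [hz] at hy ⊢
    rw [hz'] at hy' ⊢
    exact hd z₀ hz₀ z₀ hz₀ l hl y (Metric.closedBall_subset_closedBall hr' hy)
      (Metric.closedBall_subset_closedBall hr' hy')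
  have hfc : Continuous f := h.smooth.continuous
  -- room for the modification
  obtain ⟨δ, hδ, hδf⟩ : ∃ δ > 0, ∀ y ∈ Metric.closedBall z₀ r, α + δ ≤ f y ∧ f y ≤ β - δ := by
    have hne : (Metric.closedBall z₀ r).Nonempty := ⟨z₀, Metric.mem_closedBall_self hr.le⟩
    obtain ⟨y1, hy1, h1⟩ := (isCompact_closedBall z₀ r).exists_isMinOn hne hfc.continuousOn
    obtain ⟨y2, hy2, h2⟩ := (isCompact_closedBall z₀ r).exists_isMaxOn hne hfc.continuousOn
    have h3 := (hin0 y1 hy1).2.2.1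
    have h4 := (hin0 y2 hy2).2.2.2
    refine ⟨min (f y1 - α) (β - f y2), lt_min (by linarith) (by linarith), fun y hy => ?_⟩
    have h5 : f y1 ≤ f y := h1 hy
    have h6 : f y ≤ f y2 := h2 hy
    have h7 := min_le_left (f y1 - α) (β - f y2)
    have h8 := min_le_right (f y1 - α) (β - f y2)
    constructor <;> linarith
  have hv0 : f z₀ = v := hv z₀ hz₀
  have hδ0 := hδf z₀ (Metric.mem_closedBall_self hr.le)
  rw [hv0] at hδ0
  obtain ⟨χp, hp1, hp2, hp3, hp4, hp5⟩ := NoCan_bump L z₀ r hr (hd0 r le_rfl)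
  obtain ⟨χm, hm1, hm2, hm3, hm4, hm5⟩ := NoCan_bump L z₀ (r / 3) (by positivity)
    (hd0 _ (by linarith))
  have hp0 : ∀ y, (∀ l ∈ L, y ∉ Metric.closedBall (z₀ + rl l) r) → ∀ᶠ x in 𝓝 y, χp x = 0 :=
    fun y hy => hp5 y fun l hl hyl => hy l hl
      (Metric.closedBall_subset_closedBall (by linarith) hyl)
  have hm0 : ∀ y, (∀ l ∈ L, y ∉ Metric.closedBall (z₀ + rl l) r) → ∀ᶠ x in 𝓝 y, χm x = 0 :=
    fun y hy => hm5 y fun l hl hyl => hy l hl
      (Metric.closedBall_subset_closedBall (by linarith) hyl)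
  have hmp : ∀ y, χm y ≠ 0 → χp y = 1 := by
    intro y hy
    by_contra hne
    apply hy
    refine (hm5 y fun l hl hyl => hne (hp4 l hl y ?_)).self_of_nhds
    exact Metric.closedBall_subset_ball (by linarith) hyl
  have hloc : ∀ (χ : (ι → ℝ) → ℝ) (ρ : ℝ), (∀ l ∈ L, ∀ y ∈ Metric.ball (z₀ + rl l) ρ, χ y = 1) →
      ∀ y ∈ Metric.ball z₀ ρ, ∀ᶠ x in 𝓝 y, χ x = 1 := by
    intro χ ρ h1 y hy
    filter_upwards [Metric.isOpen_ball.mem_nhds hy] with x hx
    exact h1 0 L.zero_mem x (by rw [Win_rl_zero, add_zero]; exact hx)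
  have hp6 := hloc χp _ hp4
  have hm6 := hloc χm _ hm4
  have hχp0 : χp z₀ = 1 := (hp6 z₀ (Metric.mem_ball_self (by linarith))).self_of_nhds
  have hχm0 : χm z₀ = 1 := (hm6 z₀ (Metric.mem_ball_self (by linarith))).self_of_nhds
  refine ⟨χp, hp1, hp2, hp6 z₀ (Metric.mem_ball_self (by linarith)), ?_⟩
  have hev1 := NoCan_pert h.smooth h.per hiso (ρ := r / 4) (by positivity)
    (χ := fun x => 2 * χp x) (contDiff_const.mul hp1)
    (fun l hl y => by beta_reduce; rw [hp2 l hl])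
    (fun y hy => by filter_upwards [hp0 y hy] with x hx; rw [hx, mul_zero])
    (fun y hy => by
      filter_upwards [hp6 y hy] with x hx
      rw [hx, (hp6 y hy).self_of_nhds])
  have hev2 := NoCan_pert h.smooth h.per hiso (ρ := r / 12) (by positivity)
    (χ := fun x => 2 * (χp x - χm x)) (contDiff_const.mul (hp1.sub hm1))
    (fun l hl y => by beta_reduce; rw [hp2 l hl, hm2 l hl])
    (fun y hy => by
      filter_upwards [hp0 y hy, hm0 y hy] with x hx hx'
      rw [hx, hx', sub_zero, mul_zero])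
    (fun y hy => by
      have hy1 : y ∈ Metric.ball z₀ (r / 4) := Metric.ball_subset_ball (by linarith) hy
      have hy2 : y ∈ Metric.ball z₀ (r / 3 / 4) := by
        rwa [show r / 3 / 4 = r / 12 by ring]
      filter_upwards [hp6 y hy1, hm6 y hy2] with x hx hx'
      rw [hx, hx', (hp6 y hy1).self_of_nhds, (hm6 y hy2).self_of_nhds])
  have hev3 : ∀ᶠ ε in 𝓝[>] (0 : ℝ), 2 * ε < δ := by
    have h2 : Filter.Tendsto (fun ε : ℝ => 2 * ε) (𝓝 0) (𝓝 0) := by
      have : Continuous fun ε : ℝ => 2 * ε := by fun_prop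
      simpa using this.tendsto 0
    exact nhdsWithin_le_nhds (h2.eventually (gt_mem_nhds hδ))
  filter_upwards [hev1, hev2, hev3, self_mem_nhdsWithin] with ε hε1 hε2 hε3 hε0
  have hε0 : 0 < ε := hε0
  have hlocf : ∀ y, fderiv ℝ f y = 0 → (∃ l ∈ L, y ∈ Metric.closedBall (z₀ + rl l) r) →
      ∃ l ∈ L, y = z₀ + rl l := by
    rintro y hy ⟨l, hl, hyl⟩
    refine ⟨l, hl, ?_⟩
    have h1 := hiso (y - rl l) (Win_sub_mem hyl) (by
      have h3 := Sep_fderiv_per L f h.per l hl (y - rl l)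
      rw [sub_add_cancel] at h3
      rw [← h3, hy])
    rw [← h1, sub_add_cancel]
  have hother : ∀ y, q y ≤ R → -a ≤ Q y → α ≤ f y → f y ≤ β → fderiv ℝ f y = 0 → f y = v := by
    intro y h1 h2 h3 h4 h5
    obtain ⟨z, hz, l, hl, rfl⟩ := h.crit y h1 h2 h3 h4 h5
    rw [h.per l hl, hv z hz]
  -- the three bands
  have hBp : Band L q Q (fun x => f x + ε * (2 * χp x)) R a (v + ε) β {z₀} := by
    refine ⟨h.dm, h.smooth.add (contDiff_const.mul (contDiff_const.mul hp1)),
      fun l hl y => by beta_reduce; rw [h.per l hl, hp2 l hl], ?_, by linarith, ?_, ?_, ?_⟩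
    · refine NoCan_bd h.dm.qp h.dm.Qp h.bd (z := z₀) (r := r)
        (fun y hy => ⟨(hin0 y hy).1, (hin0 y hy).2.1⟩) fun y hy => ?_
      filter_upwards [hp0 y hy] with x hx
      rw [hx, mul_zero, mul_zero, add_zero]
    · intro z hz
      rw [Finset.mem_singleton] at hz
      subst hz
      obtain ⟨h1, h2, h3, -, -⟩ := h.mem z hz₀
      refine ⟨(hε1 z).2 h1, h2, h3, ?_, ?_⟩
      · rw [hχp0, hv0]; linarith
      · rw [hχp0, hv0]; linarith
    · intro z hz z' hz' _ _ _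
      rw [Finset.mem_singleton.1 hz, Finset.mem_singleton.1 hz']
    · intro y h1 h2 h3 h4 h5
      have h6 := (hε1 y).1 h5
      by_cases h7 : ∃ l ∈ L, y ∈ Metric.closedBall (z₀ + rl l) r
      · exact ⟨z₀, Finset.mem_singleton_self _, hlocf y h6 h7⟩
      · exfalso
        push Not at h7
        rw [(hp0 y h7).self_of_nhds, mul_zero, mul_zero, add_zero] at h3 h4
        have h8 := hother y h1 h2 (by linarith) h4 h6
        linarith
  have hBh : Band L q Q (fun x => f x + ε * (2 * (χp x - χm x))) R a (v + ε) β ∅ := by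
    refine ⟨h.dm, h.smooth.add (contDiff_const.mul (contDiff_const.mul (hp1.sub hm1))),
      fun l hl y => by rw [h.per l hl, hp2 l hl, hm2 l hl], ?_, by linarith,
      fun z hz => absurd hz (Finset.notMem_empty z), fun z hz => absurd hz (Finset.notMem_empty z),
      ?_⟩
    · refine NoCan_bd h.dm.qp h.dm.Qp h.bd (z := z₀) (r := r)
        (fun y hy => ⟨(hin0 y hy).1, (hin0 y hy).2.1⟩) fun y hy => ?_
      filter_upwards [hp0 y hy, hm0 y hy] with x hx hx'
      rw [hx, hx', sub_zero, mul_zero, mul_zero, add_zero]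
    · intro y h1 h2 h3 h4 h5
      exfalso
      have h6 := (hε2 y).1 h5
      by_cases h7 : ∃ l ∈ L, y ∈ Metric.closedBall (z₀ + rl l) r
      · obtain ⟨l, hl, rfl⟩ := hlocf y h6 h7
        rw [h.per l hl, hp2 l hl, hm2 l hl, hχp0, hχm0, hv0] at h3
        linarith
      · push Not at h7
        rw [(hp0 y h7).self_of_nhds, (hm0 y h7).self_of_nhds, sub_zero, mul_zero, mul_zero,
          add_zero] at h3 h4
        have h8 := hother y h1 h2 (by linarith) h4 h6
        linarith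
  have hBf : Band L q Q f R a α (v - ε) ∅ := by
    refine ⟨h.dm, h.smooth, h.per, h.bd, by linarith,
      fun z hz => absurd hz (Finset.notMem_empty z), fun z hz => absurd hz (Finset.notMem_empty z),
      ?_⟩
    intro y h1 h2 h3 h4 h5
    exfalso
    have h8 := hother y h1 h2 h3 (by linarith) h5
    linarith
  -- the level `β`
  have hlev : ∀ c : (ι → ℝ) → ℝ, (∀ y, |c y| ≤ 1) →
      (∀ y, (∀ l ∈ L, y ∉ Metric.closedBall (z₀ + rl l) r) → c y = 0) →
      ∀ m, Lv q Q (fun x => f x + ε * (2 * c x)) R a β m = Lv q Q f R a β m := by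
    intro c hc1 hc0 m
    have h1 : ∀ y, f y + ε * (2 * c y) ≤ β ↔ f y ≤ β := by
      intro y
      by_cases h7 : ∃ l ∈ L, y ∈ Metric.closedBall (z₀ + rl l) r
      · obtain ⟨l, hl, hyl⟩ := h7
        have h8 := (hδf (y - rl l) (Win_sub_mem hyl)).2
        rw [Win_shift h.per hl] at h8
        have h9 : ε * (2 * c y) ≤ 2 * ε := by
          have := (abs_le.1 (hc1 y)).2
          nlinarith
        constructor
        · intro _; linarith
        · intro _; linarith
      · push Not at h7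
        rw [hc0 y h7, mul_zero, mul_zero, add_zero]
    ext w
    simp only [Lv, Set.mem_ofPred_eq, h1]
  have hlevp := hlev χp (fun y => by
    rw [abs_le]; exact ⟨by linarith [(hp3 y).1], (hp3 y).2⟩)
    (fun y hy => (hp0 y hy).self_of_nhds)
  have hlevh := hlev (fun y => χp y - χm y) (fun y => by
    rw [abs_le]
    constructor
    · linarith [(hp3 y).1, (hm3 y).2]
    · linarith [(hp3 y).2, (hm3 y).1])
    (fun y hy => by
      beta_reduce
      rw [(hp0 y hy).self_of_nhds, (hm0 y hy).self_of_nhds, sub_zero])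
  refine ⟨hBp, hlevp, ?_⟩
  have hmesh : ∀ᶠ M : ℕ in atTop, 1 / ((2 ^ M : ℕ) : ℝ) < r / 12 := by
    have h1 : Filter.Tendsto (fun M : ℕ => (1 / 2 : ℝ) ^ M) atTop (𝓝 0) :=
      tendsto_pow_atTop_nhds_zero_of_lt_one (by norm_num) (by norm_num)
    filter_upwards [h1.eventually (gt_mem_nhds (show (0 : ℝ) < r / 12 by positivity))] with M hM
    push_cast
    rw [one_div_pow] at hM
    exact hM
  filter_upwards [window_out F hBh, window_out F hBf, hmesh] with M hM1 hM2 hM3 hM4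
  have h0M : 0 < 2 ^ M := by positivity
  have hU : ∀ j, HR F (lam L (2 ^ M)) (Lv q Q f R a β (2 ^ M))
      (Lv q Q (fun x => f x + ε * (2 * (χp x - χm x))) R a (v + ε) (2 ^ M)) j 0 := by
    intro j
    rw [← hlevh (2 ^ M)]
    exact hM1 j fun z hz => absurd hz (Finset.notMem_empty z)
  have hA : ∀ j, HR F (lam L (2 ^ M)) (Lv q Q f R a (v - ε) (2 ^ M))
      (Lv q Q f R a α (2 ^ M)) j 0 := fun j => hM2 j fun z hz => absurd hz (Finset.notMem_empty z)
  have hBinv := Lv_inv h.dm.qp h.dm.Qp h.per R a β h0M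
  have hA'inv := Lv_inv h.dm.qp h.dm.Qp h.per R a (v - ε) h0M
  have hpinv := Lv_inv h.dm.qp h.dm.Qp hBp.per R a (v + ε) h0M
  have hBA' := HR_upper hA'inv hBinv (Lv_mono q Q f R a (by linarith) _)
    (Lv_mono q Q f R a (by linarith) _) hA hM4
  rw [hlevp (2 ^ M)]
  refine HR_split (Mm := Lv q Q (fun x => f x - ε * (2 * χm x)) R a (v - ε) (2 ^ M)) hpinv hBinv
    (fun w => ?_) (fun w => ?_) (fun w w' hww hw1 hw2 hw3 => ?_) hU hBA'
  · -- intersection
    have h1 : f (ps (2 ^ M) w) ≤ v - ε ↔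
        f (ps (2 ^ M) w) + ε * (2 * χp (ps (2 ^ M) w)) ≤ v + ε ∧
          f (ps (2 ^ M) w) - ε * (2 * χm (ps (2 ^ M) w)) ≤ v - ε := by
      have h2 := hp3 (ps (2 ^ M) w)
      have h3 := hm3 (ps (2 ^ M) w)
      constructor
      · intro h4
        constructor <;> nlinarith
      · rintro ⟨h4, h5⟩
        by_cases h6 : χm (ps (2 ^ M) w) = 0
        · rw [h6] at h5; linarith
        · rw [hmp _ h6] at h4; linarith
    simp only [Lv, Set.mem_ofPred_eq, h1]
    tauto
  · -- union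
    have h1 : f (ps (2 ^ M) w) + ε * (2 * (χp (ps (2 ^ M) w) - χm (ps (2 ^ M) w))) ≤ v + ε ↔
        f (ps (2 ^ M) w) + ε * (2 * χp (ps (2 ^ M) w)) ≤ v + ε ∨
          f (ps (2 ^ M) w) - ε * (2 * χm (ps (2 ^ M) w)) ≤ v - ε := by
      have h2 := hp3 (ps (2 ^ M) w)
      have h3 := hm3 (ps (2 ^ M) w)
      by_cases h6 : χm (ps (2 ^ M) w) = 0
      · rw [h6]
        constructor
        · intro h4
          left
          linarith
        · rintro (h4 | h4) <;> nlinarith
      · rw [hmp _ h6]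
        constructor
        · intro h4
          right
          linarith
        · rintro (h4 | h4) <;> nlinarith
    simp only [Lv, Set.mem_ofPred_eq, h1]
    tauto
  · -- separation
    by_contra hw4
    have hQ1 : ¬ Q (ps (2 ^ M) w) ≤ -a := fun h1 => hw2 ⟨hw1.1, Or.inl h1⟩
    have h1 : f (ps (2 ^ M) w) + ε * (2 * χp (ps (2 ^ M) w)) ≤ v + ε :=
      hw1.2.resolve_left hQ1
    have h2 : ¬ f (ps (2 ^ M) w) - ε * (2 * χm (ps (2 ^ M) w)) ≤ v - ε := fun h3 =>
      hw2 ⟨hw1.1, Or.inr h3⟩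
    have hQ2 : ¬ Q (ps (2 ^ M) w') ≤ -a := fun h1 => hw4 ⟨hw3.1, Or.inl h1⟩
    have h3 : f (ps (2 ^ M) w') - ε * (2 * χm (ps (2 ^ M) w')) ≤ v - ε :=
      hw3.2.resolve_left hQ2
    have h4 : ¬ f (ps (2 ^ M) w') + ε * (2 * χp (ps (2 ^ M) w')) ≤ v + ε := fun h5 =>
      hw4 ⟨hw3.1, Or.inr h5⟩
    rw [not_le] at h2 h4
    have h5 : χp (ps (2 ^ M) w) ≠ 1 := by
      intro h6
      rw [h6] at h1
      have := (hm3 (ps (2 ^ M) w)).1
      nlinarith
    have h6 : χm (ps (2 ^ M) w') ≠ 0 := by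
      intro h6
      rw [h6] at h3
      have := (hp3 (ps (2 ^ M) w')).2
      nlinarith
    apply h6
    refine (hm5 _ fun l hl hyl => h5 (hp4 l hl _ ?_)).self_of_nhds
    rw [Metric.mem_closedBall] at hyl
    rw [Metric.mem_ball]
    have h7 := NoCan_adj h0M hww
    have h8 := dist_triangle (ps (2 ^ M) w) (ps (2 ^ M) w') (z₀ + rl l)
    linarith

/-- **No cancellation.** A band whose critical points all have the same value is not acyclic if one
of the critical points has local index different from `0` (for instance if it is nondegenerate). -/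
theorem no_cancel (F : Type*) [Field F] {L : AddSubgroup (ι → ℤ)} {q Q f : (ι → ℝ) → ℝ}
    {R a α β : ℝ} {Z : Finset (ι → ℝ)} (h : Band L q Q f R a α β Z) {v : ℝ}
    (hv : ∀ z ∈ Z, f z = v) {z₀ : ι → ℝ} (hz₀ : z₀ ∈ Z) {s : ℤ} (hs : LocIdx f z₀ s)
    (hs0 : s ≠ 0) :
    ∀ᶠ M : ℕ in atTop, ¬ ∀ j,
      HR F (lam L (2 ^ M)) (Lv q Q f R a β (2 ^ M)) (Lv q Q f R a α (2 ^ M)) j 0 := by
  obtain ⟨χ, hχ, hχp, hχ1, hε⟩ := nocan_core F h hv hz₀
  obtain ⟨ε, hB, hlev, hM⟩ := hε.exists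
  have hs' : LocIdx (fun x => f x + ε * (2 * χ x)) z₀ s := by
    refine LocIdx_congr h.smooth hs (c := ε * (2 * 1)) ?_
    filter_upwards [hχ1] with x hx
    rw [hx]
  have hech := band_idx hB (fun _ => s) (fun z hz => by
    rw [Finset.mem_singleton.1 hz]
    exact hs')
  filter_upwards [hM, hech] with M hM1 hM2 hM3
  have h0M : 0 < 2 ^ M := by positivity
  rw [Finset.sum_singleton] at hM2
  apply hs0
  rw [← hM2]
  refine ech_of_HR F (Lv_inv h.dm.qp h.dm.Qp hB.per R a β h0M)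
    (Lv_inv h.dm.qp h.dm.Qp hB.per R a (v + ε) h0M) ?_ (hM1 hM3)
  obtain ⟨D, hD⟩ := h.dm.finMod h0M
  exact ⟨D, fun w hw hw' => hD w hw.1 fun h1 => hw' ⟨h1.1, Or.inl h1.2⟩⟩

end Pool.Agent.H75.TH
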