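import Pool.Agent.H75.TH.TorA

/-!
# Every Hamiltonian diffeomorphism of a torus has growth exponent at least 3/2

For every Hamiltonian diffeomorphism `φ` of `T^{2n}` (any `n ≥ 1`) the number `P(T)` of primitive
periodic orbits of period at most `T` is at least `A T^{3/2} / (log T)^{3/2}` for some `A > 0` and
all large `T`. No nondegeneracy assumption.
-/

set_option autoImplicit false

open Filter Topology Function
open Pool.Agent.H60.QG (PtE Torus IsHamiltonian IsTimeOne compose P)

namespace Pool.Agent.H75.TH.ThreeHalvesDraft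

/-- **Growth with exponent 3/2.** -/
theorem result {n : ℕ} (hn : 0 < n) {r : ℕ} (hr : 0 < r) (H : ℕ → ℝ → PtE n → ℝ)
    (f : ℕ → Torus n → Torus n)
    (hH : ∀ i < r, IsHamiltonian (H i)) (hf : ∀ i < r, IsTimeOne (H i) (f i)) :
    (∃ A : ℝ, 0 < A ∧ ∀ᶠ T : ℝ in atTop,
      ENNReal.ofReal (A * T ^ (3 / 2 : ℝ) / Real.log T ^ (3 / 2 : ℝ)) ≤
        (P (compose f r) T : ENNReal)) ∧
    ((3 / 2 : ℝ) : EReal) ≤ liminf (fun T : ℝ =>
      ENNReal.log (P (compose f r) T : ENNReal) / ((Real.log T : ℝ) : EReal)) atTop := by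
  obtain ⟨N, S, ψ, h⟩ := Pool.Agent.H47.QG.exists_decomp hr H f hH hf
  exact threeHalves_all hn h

end Pool.Agent.H75.TH.ThreeHalvesDraft
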