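import Pool.Agent.H75.TH.Tor

/-!
# One homologically visible periodic point of nonzero mean index forces exponent 3/2

For a Hamiltonian diffeomorphism `φ` of `T^{2n}` (any `n ≥ 1`): if some iterate `φ^k` has an isolated
contractible fixed point with local index different from `0` (for instance a nondegenerate one) and
mean index different from `0`, then `φ` has at least `A T^{3/2} / (log T)^{3/2}` primitive periodic
orbits of period at most `T`.
-/

set_option autoImplicit false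

open Filter Topology Function
open Pool.Agent.H60.QG (PtE Torus IsHamiltonian IsTimeOne compose P)
open Pool.Agent.H47.QG (Pt action flw oseq MeanIndex IsDecomp NondegAt IsLocIdx morse)

namespace Pool.Agent.H75.TH.OneOrbitDraft

/-- `P(T) ≥ A T^{3/2} / (log T)^{3/2}` for some `A > 0` and all large `T`, and
`liminf log P(T) / log T ≥ 3/2`. -/
def ThreeHalvesGrowth {n : ℕ} (φ : Torus n → Torus n) : Prop :=
  (∃ A : ℝ, 0 < A ∧ ∀ᶠ T : ℝ in atTop,
    ENNReal.ofReal (A * T ^ (3 / 2 : ℝ) / Real.log T ^ (3 / 2 : ℝ)) ≤ (P φ T : ENNReal)) ∧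
  ((3 / 2 : ℝ) : EReal) ≤ liminf (fun T : ℝ =>
    ENNReal.log (P φ T : ENNReal) / ((Real.log T : ℝ) : EReal)) atTop

/-- If for some `k` the map `φ^k` has a contractible fixed point `w` of mean index `t ≠ 0` and
local index `s ≠ 0`, then `φ` has growth of exponent `3/2`. -/
def OneOrbitGrowth {n : ℕ} (φ : Torus n → Torus n) (N : ℕ) (S : ℕ → Pt n → ℝ)
    (ψ : ℕ → Pt n → Pt n) : Prop :=
  ∀ (k : ℕ) [NeZero (k * N)] (w : Pt n) (t : ℝ) (s : ℤ), flw ψ (k * N) w = w →
    MeanIndex S ψ (k * N) w t → t ≠ 0 →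
    IsLocIdx (action S (k * N)) (oseq ψ (k * N) w) s → s ≠ 0 → ThreeHalvesGrowth φ

/-- Nondegenerate periodic points have local index `1` or `-1`. -/
def NondegIdx {n : ℕ} (S : ℕ → Pt n → ℝ) (ψ : ℕ → Pt n → Pt n) : Prop :=
  ∀ (K : ℕ) [NeZero K] (w : Pt n), flw ψ K w = w → NondegAt (action S K) (oseq ψ K w) →
    IsLocIdx (action S K) (oseq ψ K w) ((-1) ^ morse (action S K) (oseq ψ K w))

/-- **Growth with exponent 3/2.** -/
theorem result {n : ℕ} (hn : 0 < n) {r : ℕ} (hr : 0 < r) (H : ℕ → ℝ → PtE n → ℝ)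
    (f : ℕ → Torus n → Torus n)
    (hH : ∀ i < r, IsHamiltonian (H i)) (hf : ∀ i < r, IsTimeOne (H i) (f i)) :
    -- every composition of Hamiltonian time-one maps is a composition of maps with generating
    -- functions
    (∃ N S ψ, IsDecomp (compose f r) N S ψ) ∧
    -- and for each such decomposition:
    ∀ (N : ℕ) (S : ℕ → Pt n → ℝ) (ψ : ℕ → Pt n → Pt n), IsDecomp (compose f r) N S ψ →
      OneOrbitGrowth (compose f r) N S ψ ∧ NondegIdx S ψ := by
  refine ⟨?_, fun N S ψ hD => ?_⟩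
  · obtain ⟨N, S, ψ, h⟩ := H47.QG.exists_decomp hr H f hH hf
    exact ⟨N, S, ψ, H47.QG.isDecomp_iff.2 h⟩
  have h := H47.QG.isDecomp_iff.1 hD
  have hsm : ∀ (K : ℕ) [NeZero K], ContDiff ℝ 2 (action S K) := fun K _ =>
    H47.QG.action_smooth S (fun j => (h.gen j).smooth) K
  refine ⟨?_, ?_⟩
  · intro k hk w t s hw ht ht0 hs hs0
    exact threeHalves_locIdx hn h k w hw t ht0 ((H47.QG.meanIndex_iff h.gen _ _ _).1 ht) s hs0
      ((H47.QG.isLocIdx_iff (hsm _) _ _).1 hs)
  · intro K hK w hw hnd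
    have hos0 : oseq ψ K w 0 = w := by
      have h0 : ((0 : Fin K) : ℕ) = 0 := Fin.val_zero _
      change flw ψ ((0 : Fin K) : ℕ) w = w
      rw [h0]; rfl
    rw [H47.QG.isLocIdx_iff (hsm K), H47.QG.morse_eq (hsm K)]
    refine H47.QG.locIdx_nondeg (action S K) (hsm K) _ ?_ ?_
    · rw [H47.QG.crit_iff S ψ h.gen, hos0]
      exact ⟨hw, rfl⟩
    · exact (H47.QG.nondegAt_iff (hsm K) _).1 hnd

end Pool.Agent.H75.TH.OneOrbitDraft
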