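import Pool.Agent.H4.TU.Main

/-!
# Project TU: the interface used by project TH
-/

set_option autoImplicit false

open Module QuadraticForm Filter Topology
open Pool.Agent.H47.QG (Pt action flw oseq Gen ind hess Zn MeanIdx)
open Pool.Agent.H47.ST

namespace Pool.Agent.H75.TH

variable {n : ℕ}

/-- **Theorem U** (project TU). If the fixed points of all powers are finite in number modulo
`ℤ^{2n}` then some power has cohomology in a wrong degree. -/
theorem exists_wrong {S : ℕ → Pt n → ℝ} {f : ℕ → Pt n → Pt n} (hS : ∀ j, Gen (S j) (f j))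
    (hn : 0 < n) {N : ℕ} [NeZero N] (hper : ∀ j, S (j + N) = S j) (hfper : ∀ j, f (j + N) = f j)
    (hfin : ∀ m : ℕ, 0 < m → ∃ W : Finset (Pt n),
      (∀ w, flw f (m * N) w = w ↔ ∃ w' ∈ W, w - w' ∈ Zn n) ∧
      ∀ w ∈ W, ∀ w' ∈ W, w - w' ∈ Zn n → w = w') :
    ∃ (k : ℕ) (_ : NeZero (k * N)), Wrong S f (k * N) :=
  Pool.Agent.H4.TU.exists_wrong hS hn hper hfper hfin

end Pool.Agent.H75.TH
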