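import Pool.Agent.H75.TH.Tor
import Pool.Agent.H75.TH.Tu

/-!
# Project TH + TU: every Hamiltonian diffeomorphism of the torus
-/

set_option autoImplicit false

open Module QuadraticForm Filter Topology Function
open Pool.Agent.H47.QG (Pt action flw oseq Gen ind hess Zn MeanIdx Sys orbs Decomp)
open Pool.Agent.H60.QG (Torus projP P)
open Pool.Agent.H47.ST

namespace Pool.Agent.H75.TH

variable {n : ℕ}

/-- **Every Hamiltonian diffeomorphism of the torus has growth exponent at least `3/2`.** -/
theorem threeHalves_all {φ : Torus n → Torus n} (hn : 0 < n) {N : ℕ}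
    {S : ℕ → Pt n → ℝ} {ψ : ℕ → Pt n → Pt n} (h : Decomp φ N S ψ) : ThreeHalves φ := by
  haveI : NeZero N := ⟨h.pos.ne'⟩
  exact threeHalves_of (growth_of_wrong h.gen hn h.pos h.perS h.perψ h.sys
    (exists_wrong h.gen hn h.perS h.perψ))

end Pool.Agent.H75.TH
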